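import Pool.Agent.Helper74.BP.Defs

/-!
# BP-DELTA: a quadratic form from the rigidity of the matrices

Adapted from `Helper74/Q8/Delta8.lean` (see the header there for the argument); the private lemmas
are copies of the general lemmas of that file.
-/

set_option autoImplicit false

namespace Pool.Agent.Helper74.BP

open scoped BigOperators
open MvPolynomial
open Pool.Agent.Helper8.LG (Bdd form mon)
open Pool.Agent.Helper49.LN (cP mo hf pl)
open Pool.Agent.Helper6.QS
open Pool.Agent.Helper74.Q8 (dl rr)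
open Pool.Agent.Helper74.Q8 (dl_eq dt_comm' dt_add' dt_smul' dt_sum' lf_add' lf_smul')

section

variable {Ω : Type*} [Field Ω] {σ : Type*} [Fintype σ]

/-- a derivation and the dot product -/
private theorem deltaB_dt (δ : Derivation ℤ Ω Ω) (u v : σ → Ω) :
    δ (dt u v) = dt (fun k => δ (u k)) v + dt u (fun k => δ (v k)) := by
  simp only [dt, map_sum, Derivation.leibniz, smul_eq_mul, Finset.sum_add_distrib]
  rw [add_comm]
  congr 1
  exact Finset.sum_congr rfl fun k _ => mul_comm _ _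

private theorem deltaB_add_left (u v w : σ → Ω) : dt (u + v) w = dt u w + dt v w := by
  rw [dt_comm', dt_add', dt_comm' w u, dt_comm' w v]

private theorem deltaB_smul_left (c : Ω) (u w : σ → Ω) : dt (c • u) w = c * dt u w := by
  rw [dt_comm', dt_smul', dt_comm' w u]

private theorem deltaB_monomial (m : σ →₀ ℕ) (c : Ω) :
    (monomial m c : MvPolynomial σ Ω) = c • monomial m 1 := by
  rw [smul_monomial, smul_eq_mul, mul_one]

private theorem deltaB_mul_lf (m : σ →₀ ℕ) (c : σ → Ω) :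
    (monomial m 1 * lf c : MvPolynomial σ Ω) =
      ∑ k, c k • monomial (m + Finsupp.single k 1) 1 := by
  unfold lf
  rw [Finset.mul_sum]
  refine Finset.sum_congr rfl fun k _ => ?_
  rw [mul_smul_comm, X, monomial_mul, mul_one]

/-- The functionals `ψ_j`. Stated for an abstract linear map `V`. -/
private theorem deltaB_psi (V : MvPolynomial σ Ω →ₗ[Ω] (σ → Ω)) (δ : Derivation ℤ Ω Ω)
    (l θ m : Fin 2 → σ → Ω) (X₀ : Matrix (Fin 2) (Fin 2) Ω)
    (hm : ∀ i, m i = X₀ i 0 • l 0 + X₀ i 1 • l 1 + (-1 : Ω) • fun k => δ (l i k))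
    (h : ∀ (e : σ →₀ ℕ) i j, δ (dt (θ j) (V (monomial e 1 * lf (l i)))) =
      X₀ i 0 * dt (θ j) (V (monomial e 1 * lf (l 0))) +
        X₀ i 1 * dt (θ j) (V (monomial e 1 * lf (l 1))) -
      (dt (θ 0) (V (monomial e 1 * lf (l i))) * X₀ 0 j +
        dt (θ 1) (V (monomial e 1 * lf (l i))) * X₀ 1 j)) :
    ∃ ψ : Fin 2 → MvPolynomial σ Ω →ₗ[Ω] Ω, ∀ P i j,
      dt (θ j) (V (P * lf (m i))) = ψ j (P * lf (l i)) := by
  classical
  obtain ⟨Θ, hΘ⟩ : ∃ Θ : Fin 2 → MvPolynomial σ Ω →ₗ[Ω] Ω,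
      ∀ j f, Θ j f = dt (θ j) (V f) := by
    refine ⟨fun j =>
      { toFun := fun f => dt (θ j) (V f)
        map_add' := fun f g => by rw [map_add, dt_add']
        map_smul' := fun c f => by
          rw [map_smul, dt_smul', RingHom.id_apply, smul_eq_mul] }, fun j f => rfl⟩
  let Θ' : Fin 2 → MvPolynomial σ Ω →ₗ[Ω] Ω := fun j =>
    (MvPolynomial.basisMonomials σ Ω).constr Ω fun m => δ (Θ j (monomial m 1))
  have hΘ' : ∀ j m, Θ' j (monomial m 1) = δ (Θ j (monomial m 1)) := by
    intro j m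
    have h := (MvPolynomial.basisMonomials σ Ω).constr_basis Ω
      (fun m => δ (Θ j (monomial m 1))) m
    rw [MvPolynomial.coe_basisMonomials] at h
    exact h
  refine ⟨fun j => Θ' j + (X₀ 0 j • Θ 0 + X₀ 1 j • Θ 1), fun P i j => ?_⟩
  rw [← hΘ, LinearMap.add_apply, LinearMap.add_apply, LinearMap.smul_apply, LinearMap.smul_apply,
    smul_eq_mul, smul_eq_mul]
  induction P using MvPolynomial.induction_on' with
  | monomial u a =>
    rw [deltaB_monomial u a, smul_mul_assoc, smul_mul_assoc, map_smul, map_smul, map_smul, map_smul,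
      smul_eq_mul, smul_eq_mul, smul_eq_mul, smul_eq_mul]
    have h1 := h u i j
    simp only [← hΘ] at h1
    have h2 : δ (Θ j (monomial u 1 * lf (l i))) =
        Θ j (monomial u 1 * lf fun k => δ (l i k)) + Θ' j (monomial u 1 * lf (l i)) := by
      rw [deltaB_mul_lf, deltaB_mul_lf, map_sum, map_sum, map_sum, map_sum,
        ← Finset.sum_add_distrib]
      refine Finset.sum_congr rfl fun k _ => ?_
      rw [LinearMap.map_smul (Θ j), LinearMap.map_smul (Θ j), LinearMap.map_smul (Θ' j), hΘ',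
        smul_eq_mul, smul_eq_mul, smul_eq_mul, Derivation.leibniz, smul_eq_mul, smul_eq_mul]
      ring
    have h3 : Θ j (monomial u 1 * lf (m i)) = X₀ i 0 * Θ j (monomial u 1 * lf (l 0)) +
        X₀ i 1 * Θ j (monomial u 1 * lf (l 1)) - Θ j (monomial u 1 * lf fun k => δ (l i k)) := by
      rw [hm i, lf_add', lf_add', lf_smul', lf_smul', lf_smul', mul_add, mul_add, mul_smul_comm,
        mul_smul_comm, mul_smul_comm, map_add, map_add, map_smul, map_smul, map_smul, smul_eq_mul,
        smul_eq_mul, smul_eq_mul]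
      ring
    rw [h3]
    rw [h2] at h1
    linear_combination (-a) * h1
  | add p q h3 h4 =>
    rw [add_mul, add_mul, map_add, map_add, map_add, map_add, h3, h4]
    ring

/-- a vector orthogonal to all members of an independent family but one -/
private theorem deltaB_dual [DecidableEq σ] {ι : Type*} (w : ι → σ → Ω)
    (hw : LinearIndependent Ω w) (i : ι) :
    ∃ y : σ → Ω, dt (w i) y = 1 ∧ ∀ j, j ≠ i → dt (w j) y = 0 := by
  classical
  obtain ⟨g, hg⟩ := LinearMap.exists_extend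
    ((Finsupp.lapply i : (ι →₀ Ω) →ₗ[Ω] Ω).comp (hw.repr : _ →ₗ[Ω] (ι →₀ Ω)))
  have h1 : ∀ j, g (w j) = Finsupp.single j (1 : Ω) i := by
    intro j
    have hj : w j ∈ Submodule.span Ω (Set.range w) := Submodule.subset_span ⟨j, rfl⟩
    have h2 := LinearMap.congr_fun hg ⟨w j, hj⟩
    rw [LinearMap.comp_apply, LinearMap.comp_apply] at h2
    have h3 : hw.repr ⟨w j, hj⟩ = Finsupp.single j 1 := hw.repr_eq_single j ⟨w j, hj⟩ rfl
    rw [← h3]
    exact h2
  have h4 : ∀ v : σ → Ω, g v = dt v (fun t => g (Pi.single t 1)) := by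
    intro v
    conv_lhs => rw [← Finset.univ_sum_single v]
    rw [map_sum, dt]
    refine Finset.sum_congr rfl fun t _ => ?_
    have h5 : (Pi.single t (v t) : σ → Ω) = v t • Pi.single t (1 : Ω) := by
      rw [← Pi.single_smul, smul_eq_mul, mul_one]
    rw [h5, map_smul, smul_eq_mul]
  refine ⟨fun t => g (Pi.single t 1), ?_, fun j hj => ?_⟩
  · rw [← h4, h1, Finsupp.single_eq_same]
  · rw [← h4, h1, Finsupp.single_apply, if_neg hj]

private theorem deltaB_ev [DecidableEq σ] (q n e : ℕ) (hq : q = n + e) (x : σ → Ω)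
    (f g : MvPolynomial σ Ω) (hg : g.IsHomogeneous e) :
    ev q x (f * g) = ev n x f * eval x g := by
  subst hq
  exact ev_mul n e x f g hg

end

variable {Ω : Type*} [Field Ω] [CharZero Ω] {σ : Type*} [Fintype σ] [DecidableEq σ] {q b : ℕ}
  {e : Option (Option (Fin b × Fin 2)) ≃ σ} {D : Sym σ q → Derivation ℤ Ω Ω} {a : Sym σ q → Ω}
  {B : Subfield Ω} {i₀ : σ} {x n : σ → Ω} {m : ℕ} {k : Fin m → σ → Ω} {l : Fin 2 → σ → Ω}
  {θ : Fin b → Fin 2 → σ → Ω} {P : Fin b → MvPolynomial σ Ω}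

theorem deltaB (m : MtB e D a B i₀ x n k l θ P) (δ : Derivation ℤ Ω Ω) (hδ : ∀ c ∈ B, δ c = 0)
    (hδx : ∃ i, δ (x i) ≠ 0) (X₀ : Matrix (Fin 2) (Fin 2) Ω)
    (hX : ∀ s (d : σ →₀ ℕ), (uB D x l (θ s) (monomial d 1)).map δ =
      X₀ * uB D x l (θ s) (monomial d 1) - uB D x l (θ s) (monomial d 1) * X₀) :
    ∃ Q : MvPolynomial σ Ω, Q.IsHomogeneous 2 ∧
      (∃ y, (∀ i, dt (k i) y = 0) ∧ eval y Q ≠ 0) ∧ ∀ C, Par x (dv D x (C * Q)) := by
  classical
  have hpl := m.pl
  have hpt := hpl.pt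
  obtain ⟨w, hw⟩ : ∃ w : Fin 2 → σ → Ω, ∀ i, w i = X₀ i 0 • l 0 + X₀ i 1 • l 1 +
      (-1 : Ω) • fun t => δ (l i t) := ⟨_, fun _ => rfl⟩
  have hψ : ∀ s, ∃ ψ : Fin 2 → MvPolynomial σ Ω →ₗ[Ω] Ω, ∀ P i j,
      dt (θ s j) (dv D x (P * lf (w i))) = ψ j (P * lf (l i)) := by
    intro s
    refine deltaB_psi (dv D x) δ l (θ s) w X₀ hw fun d i j => ?_
    have e1 := congrFun (congrFun (hX s d) i) j
    rw [Matrix.map_apply, Matrix.sub_apply, Matrix.mul_apply, Matrix.mul_apply, Fin.sum_univ_two,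
      Fin.sum_univ_two, uB_apply, uB_apply, uB_apply, uB_apply, uB_apply] at e1
    simp only [dl_eq] at e1
    exact e1
  obtain ⟨Q, hQ⟩ : ∃ Q : MvPolynomial σ Ω, Q = lf (l 1) * lf (w 0) - lf (l 0) * lf (w 1) :=
    ⟨_, rfl⟩
  have hQ2 : Q.IsHomogeneous 2 := by
    rw [hQ]
    exact ((lf_hom (l 1)).mul (lf_hom (w 0))).sub ((lf_hom (l 0)).mul (lf_hom (w 1)))
  have hev : ∀ y, eval y Q = dt (l 1) y * dt (w 0) y - dt (l 0) y * dt (w 1) y := by
    intro y
    rw [hQ, map_sub, map_mul, map_mul, eval_lf, eval_lf, eval_lf, eval_lf]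
  refine ⟨Q, hQ2, ?_, ?_⟩
  · by_contra hno
    push Not at hno
    -- `w_i . x = 0`
    have hmx : ∀ i i' : Fin 2, i ≠ i' →
        (∀ y, (∀ t, dt (k t) y = 0) → dt (l i') y * dt (w i) y - dt (l i) y * dt (w i') y = 0) →
        dt (w i) x = 0 := by
      intro i i' hii hz
      obtain ⟨y, hy1, hy2⟩ := deltaB_dual (Sum.elim k l) hpl.ind (Sum.inr i')
      have hy3 : dt (l i') y = 1 := hy1
      have hy4 : dt (l i) y = 0 := hy2 (Sum.inr i) (by simpa using hii)
      have hy5 : ∀ t, dt (k t) y = 0 := fun t => hy2 (Sum.inl t) (by simp)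
      have e1 := hz y hy5
      rw [hy4, hy3, zero_mul, sub_zero, one_mul] at e1
      have e3 := hz (x + y) (fun t => by rw [dt_add', hpl.kx, hy5, add_zero])
      rw [dt_add', dt_add', dt_add', hpl.lx i', hpl.lx i, hy4, hy3, e1, zero_add, add_zero,
        add_zero, zero_mul, sub_zero, one_mul] at e3
      exact e3
    have hm0 : dt (w 0) x = 0 := hmx 0 1 (by decide) fun y hy => by
      rw [← hev y]
      exact hno y hy
    have hm1 : dt (w 1) x = 0 := hmx 1 0 (by decide) fun y hy => by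
      have := hno y hy
      rw [hev y] at this
      linear_combination -this
    have hlx : ∀ i, dt (w i) x = 0 → dt (l i) (fun t => δ (x t)) = 0 := by
      intro i hi
      have e1 := deltaB_dt δ (l i) x
      rw [hpl.lx i, map_zero] at e1
      rw [hw i, deltaB_add_left, deltaB_add_left, deltaB_smul_left, deltaB_smul_left,
        deltaB_smul_left, hpl.lx 0, hpl.lx 1] at hi
      linear_combination hi - e1
    have hkx : ∀ i, dt (k i) (fun t => δ (x t)) = 0 := by
      intro i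
      have e1 := deltaB_dt δ (k i) x
      rw [hpl.kx, map_zero] at e1
      have e2 : dt (fun t => δ (k i t)) x = 0 := by
        simp only [dt, hδ _ (hpl.kB i _), zero_mul, Finset.sum_const_zero]
      rw [e2, zero_add] at e1
      exact e1.symm
    have hl01 : ∀ i, dt (l i) (fun t => δ (x t)) = 0 := by
      intro i
      fin_cases i
      · exact hlx 0 hm0
      · exact hlx 1 hm1
    obtain ⟨j, hj⟩ := hδx
    apply hj
    -- the form `x_j X_0 - X_j`
    have hx0 : δ (x i₀) = 0 := by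
      rw [hpt.one]
      exact δ.map_one_eq_zero
    have hr : ∀ v : σ → Ω, dt (x j • Pi.single i₀ 1 + (-1 : Ω) • Pi.single j 1) v =
        x j * v i₀ - v j := by
      intro v
      rw [deltaB_add_left, deltaB_smul_left, deltaB_smul_left]
      have h6 : ∀ t, dt (Pi.single t (1 : Ω)) v = v t := by
        intro t
        rw [dt, Finset.sum_eq_single t]
        · rw [Pi.single_eq_same, one_mul]
        · intro c _ hb
          rw [Pi.single_eq_of_ne hb, zero_mul]
        · intro hb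
          exact absurd (Finset.mem_univ t) hb
      rw [h6, h6]
      ring
    obtain ⟨α, β, hαβ⟩ := hpl.span (x j • Pi.single i₀ 1 + (-1 : Ω) • Pi.single j 1) (by
      rw [hr, hpt.one, mul_one, sub_self])
    have h7 := hr (fun t => δ (x t))
    rw [hαβ, dt_comm', dt_add', dt_sum', dt_sum'] at h7
    have h8 : ∀ i, dt (fun t => δ (x t)) (α i • k i) = 0 := by
      intro i
      rw [dt_smul', dt_comm', hkx, mul_zero]
    have h9 : ∀ i, dt (fun t => δ (x t)) (β i • l i) = 0 := by
      intro i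
      rw [dt_smul', dt_comm', hl01, mul_zero]
    simp only [h8, h9, Finset.sum_const_zero, add_zero, hx0, mul_zero, zero_sub] at h7
    exact neg_eq_zero.1 h7.symm
  · intro C
    refine m.tp _ ?_ fun s j => ?_
    · rw [hpt.nf, deltaB_ev q (3 * b) 2 hpt.hq x C Q hQ2, hev, hpl.lx 0, hpl.lx 1]
      ring
    · obtain ⟨ψ, hs⟩ := hψ s
      have e1 := hs (C * lf (l 1)) 0 j
      have e2 := hs (C * lf (l 0)) 1 j
      have e3 : C * Q = C * lf (l 1) * lf (w 0) + (-1 : Ω) • (C * lf (l 0) * lf (w 1)) := by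
        rw [hQ, neg_one_smul]
        ring
      have e5 : C * lf (l 1) * lf (l 0) = C * lf (l 0) * lf (l 1) :=
        mul_right_comm C (lf (l 1)) (lf (l 0))
      rw [e5] at e1
      rw [e3, map_add, map_smul, dt_add', dt_smul', e1, e2]
      ring

end Pool.Agent.Helper74.BP
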