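import Pool.Agent.Helper74.BP.TrB
import Pool.Agent.Helper74.BP.Delta
import Pool.Agent.Helper74.Q8.AdX
import Pool.Agent.Helper6.QS.Der

/-!
# BP-CASEN: the nondegenerate case, a quadratic form
-/

set_option autoImplicit false

namespace Pool.Agent.Helper74.BP

open scoped BigOperators
open MvPolynomial
open Pool.Agent.Helper8.LG (Bdd form mon)
open Pool.Agent.Helper49.LN (cP mo hf pl)
open Pool.Agent.Helper6.QS
open Pool.Agent.Helper74.Q8 (dl rr)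

variable {Ω : Type*} [Field Ω] [CharZero Ω] {σ : Type*} [Fintype σ] [DecidableEq σ] {q b : ℕ}
  {e : Option (Option (Fin b × Fin 2)) ≃ σ} {D : Sym σ q → Derivation ℤ Ω Ω} {a : Sym σ q → Ω}
  {B : Subfield Ω} {i₀ : σ} {x n : σ → Ω} {m : ℕ} {k : Fin m → σ → Ω} {l : Fin 2 → σ → Ω}
  {θ : Fin b → Fin 2 → σ → Ω} {P : Fin b → MvPolynomial σ Ω}

theorem case_nB (m : MtB e D a B i₀ x n k l θ P)
    (hnd : ∀ N ∈ Submodule.span Ω (Set.range (fB D x l θ)),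
      (∀ i, (N * fB D x l θ i).trace = 0) → N = 0) (hx : ¬ ∀ i, x i ∈ B) :
    ∃ Q : MvPolynomial σ Ω, Q.IsHomogeneous 2 ∧
      (∃ y, (∀ i, dt (k i) y = 0) ∧ eval y Q ≠ 0) ∧ ∀ C, Par x (dv D x (C * Q)) := by
  push Not at hx
  obtain ⟨i, hi⟩ := hx
  obtain ⟨δ, hδ, hδx⟩ := exists_der B (x i) fun h => hi (rat_alg m.pl.pt.frame _ h)
  obtain ⟨X₀, hX⟩ := Pool.Agent.Helper74.Q8.ad_X (fB D x l θ) none rfl (fB_trace m) hnd δ hδ
  exact deltaB m δ hδ ⟨i, hδx⟩ X₀ fun s e => hX (some (s, e))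

end Pool.Agent.Helper74.BP
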