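import Pool.Agent.Helper74.BP.Defs
import Pool.Agent.Helper74.Q8.Traces

/-!
# BP-TRB: the traces are rational

`traces` (`Q8/Traces`) for the pair of blocks `s, s'` (`s' ≠ s` exists as `b ≥ 2`).
-/

set_option autoImplicit false

namespace Pool.Agent.Helper74.BP

open scoped BigOperators
open MvPolynomial
open Pool.Agent.Helper8.LG (Bdd form mon)
open Pool.Agent.Helper49.LN (cP mo hf pl)
open Pool.Agent.Helper6.QS
open Pool.Agent.Helper74.Q8 (dl rr)

variable {Ω : Type*} [Field Ω] [CharZero Ω] {σ : Type*} [Fintype σ] [DecidableEq σ] {q b : ℕ}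
  {e : Option (Option (Fin b × Fin 2)) ≃ σ} {D : Sym σ q → Derivation ℤ Ω Ω} {a : Sym σ q → Ω}
  {B : Subfield Ω} {i₀ : σ} {x n : σ → Ω} {m : ℕ} {k : Fin m → σ → Ω} {l : Fin 2 → σ → Ω}
  {θ : Fin b → Fin 2 → σ → Ω} {P : Fin b → MvPolynomial σ Ω}

theorem TrB_ne {b : ℕ} (hb : 2 ≤ b) (s : Fin b) : ∃ t : Fin b, t ≠ s := by
  have : Nontrivial (Fin b) := Fin.nontrivial_iff_two_le.2 hb
  exact exists_ne s

omit [CharZero Ω] [Fintype σ] in
theorem TrB_mono (B : Subfield Ω) (c : σ →₀ ℕ) : RatP B (monomial c (1 : Ω)) := by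
  classical
  intro m
  rw [coeff_monomial]
  split_ifs
  · exact B.one_mem
  · exact B.zero_mem

theorem trB (m : MtB e D a B i₀ x n k l θ P) (s s' : Fin b) (Q Q' : MvPolynomial σ Ω)
    (hQ : RatP B Q) (hQ' : RatP B Q') :
    (uB D x l (θ s) Q).trace ∈ B ∧ (uB D x l (θ s) Q).det ∈ B ∧
      (uB D x l (θ s) Q * uB D x l (θ s') Q').trace ∈ B := by
  obtain ⟨t, ht⟩ := TrB_ne m.pl.pt.hb s
  have key : ∀ t : Fin b, t ≠ s → ∀ R R', RatP B R → RatP B R' →
      (uB D x l (θ s) R).trace ∈ B ∧ (uB D x l (θ t) R).trace ∈ B ∧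
      (uB D x l (θ s) R).det ∈ B ∧ (uB D x l (θ t) R).det ∈ B ∧
      (uB D x l (θ s) R * uB D x l (θ s) R').trace ∈ B ∧
      (uB D x l (θ t) R * uB D x l (θ t) R').trace ∈ B ∧
      (uB D x l (θ s) R * uB D x l (θ t) R').trace ∈ B := by
    intro t ht R R' hR hR'
    refine Pool.Agent.Helper74.Q8.traces (uB D x l (θ s)) (uB D x l (θ t)) (P s) (P t)
      (m.rP s) (m.rP t) ?_ ?_ ?_ ?_ (m.det s t (Ne.symm ht)) R R' hR hR'
    · rw [m.one s s, if_pos rfl]
    · rw [m.one t s, if_neg ht]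
    · rw [m.one s t, if_neg (Ne.symm ht)]
    · rw [m.one t t, if_pos rfl]
  refine ⟨(key t ht Q Q' hQ hQ').1, (key t ht Q Q' hQ hQ').2.2.1, ?_⟩
  by_cases hs : s' = s
  · subst hs
    exact (key t ht Q Q' hQ hQ').2.2.2.2.1
  · exact (key s' hs Q Q' hQ hQ').2.2.2.2.2.2

theorem fB_trace (m : MtB e D a B i₀ x n k l θ P) (i j : Option (Fin b × (σ →₀ ℕ))) :
    (fB D x l θ i * fB D x l θ j).trace ∈ B := by
  have h1 : ∀ (s : Fin b) (c : σ →₀ ℕ), (uB D x l (θ s) (monomial c 1)).trace ∈ B :=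
    fun s c => (trB m s s _ _ (TrB_mono B c) (TrB_mono B c)).1
  rcases i with _ | ⟨s, c⟩
  · rcases j with _ | ⟨s', c'⟩
    · show ((1 : Matrix (Fin 2) (Fin 2) Ω) * 1).trace ∈ B
      rw [mul_one, Matrix.trace_one]
      exact natCast_mem B _
    · show (1 * uB D x l (θ s') (monomial c' 1)).trace ∈ B
      rw [one_mul]
      exact h1 _ _
  · rcases j with _ | ⟨s', c'⟩
    · show (uB D x l (θ s) (monomial c 1) * 1).trace ∈ B
      rw [mul_one]
      exact h1 _ _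
    · show (uB D x l (θ s) (monomial c 1) * uB D x l (θ s') (monomial c' 1)).trace ∈ B
      exact (trB m s s' _ _ (TrB_mono B c) (TrB_mono B c')).2.2

end Pool.Agent.Helper74.BP
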