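import Pool.Agent.Helper74.BP.AnnPt
import Pool.Agent.Helper74.BP.TrB
import Pool.Agent.Helper74.Q8.Tri

/-!
# BP-CASET: the triangular case

Adapt `Helper74/Q8/CaseT.lean`, with two different blocks `s = 0, 1` (`b ≥ 2`), `traces` applied to
`uB D x l (θ s)`, `uB D x l (θ s')` (`m.one`, `m.det`). The lemmas `CaseT_..` there are about
`um D x l θ s`; `uB D x l θ' = um D x l (fun _ => θ') 0` by definition.
-/

set_option autoImplicit false

namespace Pool.Agent.Helper74.BP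

open scoped BigOperators
open MvPolynomial Matrix
open Pool.Agent.Helper8.LG (Bdd form mon)
open Pool.Agent.Helper49.LN (cP mo hf pl)
open Pool.Agent.Helper6.QS
open Pool.Agent.Helper74.Q8 (dl rr)

section CaseT_gen

variable {Ω : Type*} [Field Ω] {σ : Type*} [Fintype σ] [DecidableEq σ] {q : ℕ}

/-- the matrices of `C lf k` vanish when `k` does not move `x` -/
theorem CaseT_k (D : Sym σ q → Derivation ℤ Ω Ω) (x : σ → Ω) (l θ : Fin 2 → σ → Ω)
    (htx : ∀ j, dt (θ j) x = 0) (k : σ → Ω)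
    (hk : ∀ P, Par x (dl D x P k)) (C : MvPolynomial σ Ω) : uB D x l θ (C * lf k) = 0 := by
  ext i j
  rw [uB_apply, Pool.Agent.Helper74.Q8.dl_comm]
  obtain ⟨c, hc⟩ := hk (C * lf (l i))
  rw [hc, Pool.Agent.Helper74.Q8.dt_smul', htx, mul_zero, Matrix.zero_apply]

/-- the matrices of `C lf l'`, `l' = w_0 l_0 + w_1 l_1` -/
theorem CaseT_l (D : Sym σ q → Derivation ℤ Ω Ω) (x : σ → Ω) (l θ : Fin 2 → σ → Ω)
    (w : Fin 2 → Ω) (C : MvPolynomial σ Ω)
    (i j : Fin 2) : uB D x l θ (C * lf (w 0 • l 0 + w 1 • l 1)) i j =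
      (w ᵥ* uB D x l θ (C * lf (l i))) j := by
  rw [uB_apply, Pool.Agent.Helper74.Q8.dl_comm, Pool.Agent.Helper74.Q8.dl_add_right,
    Pool.Agent.Helper74.Q8.dl_smul_right, Pool.Agent.Helper74.Q8.dl_smul_right,
    Pool.Agent.Helper74.Q8.dt_add', Pool.Agent.Helper74.Q8.dt_smul',
    Pool.Agent.Helper74.Q8.dt_smul',
    Matrix.vecMul, dotProduct, Fin.sum_univ_two, uB_apply, uB_apply]

/-- only one part counts -/
theorem CaseT_part (D : Sym σ q → Derivation ℤ Ω Ω) (x : σ → Ω) (l θ : Fin 2 → σ → Ω)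
    (n : ℕ) (hq : n + 1 = q) (P : MvPolynomial σ Ω) :
    uB D x l θ P = uB D x l θ (homogeneousComponent n P) := by
  ext i j
  rw [uB_apply, uB_apply, Pool.Agent.Helper74.Q8.dl_eq, Pool.Agent.Helper74.Q8.dl_eq,
    dv_part D x n 1 hq P (lf (l i)) (lf_hom (l i))]

omit [Fintype σ] [DecidableEq σ] in
theorem CaseT_alg {B : Subfield Ω} (f g : Ω) (ht : f + g ∈ B) (hd : f * g ∈ B) :
    IsAlgebraic B f := by
  obtain ⟨t, ht'⟩ : ∃ t : B, (t : Ω) = f + g := ⟨⟨_, ht⟩, rfl⟩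
  obtain ⟨d, hd'⟩ : ∃ d : B, (d : Ω) = f * g := ⟨⟨_, hd⟩, rfl⟩
  refine ⟨Polynomial.X ^ 2 - Polynomial.C t * Polynomial.X + Polynomial.C d, ?_, ?_⟩
  · intro h
    have h1 := congrArg (fun p => Polynomial.coeff p 2) h
    simp at h1
  · have h1 : algebraMap B Ω t = f + g := ht'
    have h2 : algebraMap B Ω d = f * g := hd'
    simp only [map_add, map_sub, map_mul, map_pow, Polynomial.aeval_X, Polynomial.aeval_C, h1, h2]
    ring

/-- the eigenvalue functional -/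
theorem CaseT_fun (D : Sym σ q → Derivation ℤ Ω Ω) (x : σ → Ω) (l θ : Fin 2 → σ → Ω)
    (v w : Fin 2 → Ω) (hv : v ≠ 0) (hwv : w ⬝ᵥ v = 0)
    (f g : MvPolynomial σ Ω →ₗ[Ω] Ω) (hf : ∀ P, uB D x l θ P *ᵥ v = f P • v)
    (hg : ∀ P, w ᵥ* uB D x l θ P = g P • w) {ι : Type*} (k : ι → σ → Ω)
    (htx : ∀ j, dt (θ j) x = 0) (hk : ∀ P i, Par x (dl D x P (k i)))
    (n : ℕ) (hq : n + 1 = q) :
    (∀ P, f P = f (homogeneousComponent n P)) ∧ (∀ C i, f (C * lf (k i)) = 0) ∧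
      ∀ C, f (C * lf (w 0 • l 0 + w 1 • l 1)) = 0 := by
  have hv' : ∀ a b : Ω, a • v = b • v → a = b := fun a b h => smul_left_injective Ω hv h
  refine ⟨fun P => ?_, fun C i => ?_, fun C => ?_⟩
  · apply hv'
    rw [← hf, ← hf, ← CaseT_part D x l θ n hq P]
  · apply hv'
    rw [← hf, CaseT_k D x l θ htx (k i) (fun P => hk P i) C, Matrix.zero_mulVec, zero_smul]
  · apply hv'
    rw [← hf, zero_smul]
    funext i
    rw [Matrix.mulVec, dotProduct, Fin.sum_univ_two, CaseT_l, CaseT_l, hg, Pi.smul_apply,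
      Pi.smul_apply, smul_eq_mul, smul_eq_mul, Pi.zero_apply]
    rw [dotProduct, Fin.sum_univ_two] at hwv
    linear_combination (g (C * lf (l i))) * hwv

omit [Fintype σ] [DecidableEq σ] in
/-- two functionals which factor through proportional points are proportional -/
theorem CaseT_prop (f0 f1 : MvPolynomial σ Ω →ₗ[Ω] Ω) (n : ℕ) (z z' : σ → Ω) (c : Ω)
    (hc : z' = c • z) (h0 : ∀ P, eval z (homogeneousComponent n P) = 0 → f0 P = 0)
    (h1 : ∀ P, eval z' (homogeneousComponent n P) = 0 → f1 P = 0) (P1 P2 : MvPolynomial σ Ω)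
    (a1 : f0 P1 = 1) (b1 : f1 P1 = 0) (b2 : f1 P2 = 1) : False := by
  obtain ⟨e1, he1⟩ : ∃ e1, e1 = eval z (homogeneousComponent n P1) := ⟨_, rfl⟩
  obtain ⟨e2, he2⟩ : ∃ e2, e2 = eval z (homogeneousComponent n P2) := ⟨_, rfl⟩
  have hQ : eval z (homogeneousComponent n (e2 • P1 - e1 • P2)) = 0 := by
    rw [map_sub, map_smul, map_smul, map_sub, smul_eval, smul_eval, ← he1, ← he2, mul_comm,
      sub_self]
  have hz' : ∀ P : MvPolynomial σ Ω, eval z (homogeneousComponent n P) = 0 →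
      eval z' (homogeneousComponent n P) = 0 := by
    intro P hP
    have h2 : eval (c • z) (homogeneousComponent n P) = c ^ n * eval z (homogeneousComponent n P) := by
      have h3 := (homogeneousComponent_isHomogeneous n P)
      rw [eval_eq, eval_eq, Finset.mul_sum]
      refine Finset.sum_congr rfl fun d hd => ?_
      have h4 : d.degree = n := by
        have := h3 (mem_support_iff.1 hd)
        rwa [Finsupp.degree_eq_weight_one]
      have h5 : ∏ i ∈ d.support, (c • z) i ^ d i = c ^ n * ∏ i ∈ d.support, z i ^ d i := by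
        have h6 : ∑ i ∈ d.support, d i = n := h4
        rw [← h6, ← Finset.prod_pow_eq_pow_sum, ← Finset.prod_mul_distrib]
        exact Finset.prod_congr rfl fun i _ => by rw [Pi.smul_apply, smul_eq_mul, mul_pow]
      rw [h5]
      ring
    rw [hc, h2, hP, mul_zero]
  have h3 := h1 _ (hz' _ hQ)
  rw [map_sub, map_smul, map_smul, b1, b2, smul_zero, zero_sub, smul_eq_mul, mul_one,
    neg_eq_zero] at h3
  rw [h3] at he1
  have h4 := h0 P1 he1.symm
  rw [a1] at h4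
  exact one_ne_zero h4

omit [DecidableEq σ] in
theorem CaseT_dt_left (l : Fin 2 → σ → Ω)
    (w : Fin 2 → Ω) (x : σ → Ω) (h : ∀ i, dt (l i) x = 0) :
    dt (w 0 • l 0 + w 1 • l 1) x = 0 := by
  rw [Pool.Agent.Helper74.Q8.dt_comm', Pool.Agent.Helper74.Q8.dt_add',
    Pool.Agent.Helper74.Q8.dt_smul', Pool.Agent.Helper74.Q8.dt_smul',
    Pool.Agent.Helper74.Q8.dt_comm' x, Pool.Agent.Helper74.Q8.dt_comm' x, h, h, mul_zero,
    mul_zero, add_zero]

omit [Fintype σ] [DecidableEq σ] in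
/-- `l'` is not in the span of `k` -/
theorem CaseT_ind {m : ℕ} (k : Fin m → σ → Ω) (l : Fin 2 → σ → Ω)
    (hind : LinearIndependent Ω (Sum.elim k l)) (w : Fin 2 → Ω) (hw : w ≠ 0) :
    w 0 • l 0 + w 1 • l 1 ∉ Submodule.span Ω (Set.range k) := by
  intro h
  obtain ⟨-, h2, h3⟩ := linearIndependent_sum.1 hind
  rw [Sum.elim_comp_inl, Sum.elim_comp_inr] at h3
  rw [Sum.elim_comp_inr] at h2
  have h4 : w 0 • l 0 + w 1 • l 1 ∈ Submodule.span Ω (Set.range l) :=
    Submodule.add_mem _ (Submodule.smul_mem _ _ (Submodule.subset_span ⟨0, rfl⟩))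
      (Submodule.smul_mem _ _ (Submodule.subset_span ⟨1, rfl⟩))
  have h5 := Submodule.disjoint_def.1 h3 _ h h4
  have h6 := Fintype.linearIndependent_iff.1 h2 w (by rw [Fin.sum_univ_two]; exact h5)
  exact hw (funext h6)

omit [DecidableEq σ] in
/-- the two-dimensional space of solutions of `card σ - 2` independent equations -/
theorem CaseT_span {M : ℕ} (hM : M + 2 = Fintype.card σ) (k : Fin M → σ → Ω)
    (hk : LinearIndependent Ω k)
    (z z' : σ → Ω) (hz : ∀ i, ∑ j, z j * k i j = 0) (hz' : ∀ i, ∑ j, z' j * k i j = 0)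
    (hzz : LinearIndependent Ω ![z, z']) (x : σ → Ω) (hx : ∀ i, ∑ j, x j * k i j = 0) :
    ∃ α β : Ω, x = α • z + β • z' := by
  set K : Matrix (Fin M) σ Ω := Matrix.of k with hK
  have hrank : K.rank = M := by
    have h1 := LinearIndependent.rank_matrix (M := K) hk
    rwa [Fintype.card_fin] at h1
  have hmem : ∀ y : σ → Ω, (∀ i, ∑ j, y j * k i j = 0) → y ∈ LinearMap.ker K.mulVecLin := by
    intro y hy
    rw [LinearMap.mem_ker, Matrix.mulVecLin_apply]
    funext i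
    rw [Pi.zero_apply, ← hy i]
    show ∑ j, k i j * y j = _
    exact Finset.sum_congr rfl fun j _ => mul_comm _ _
  have hker : Module.finrank Ω (LinearMap.ker K.mulVecLin) = 2 := by
    have h1 := LinearMap.finrank_range_add_finrank_ker K.mulVecLin
    have h2 : Module.finrank Ω (LinearMap.range K.mulVecLin) = M := hrank
    rw [h2, Module.finrank_fintype_fun_eq_card, ← hM] at h1
    omega
  have hle : Submodule.span Ω (Set.range ![z, z']) ≤ LinearMap.ker K.mulVecLin := by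
    rw [Submodule.span_le]
    rintro _ ⟨i, rfl⟩
    fin_cases i
    · exact hmem z hz
    · exact hmem z' hz'
  have heq : Submodule.span Ω (Set.range ![z, z']) = LinearMap.ker K.mulVecLin := by
    apply Submodule.eq_of_le_of_finrank_le hle
    rw [hker, finrank_span_eq_card hzz, Fintype.card_fin]
  have h3 := hmem x hx
  rw [← heq, Matrix.range_cons, Matrix.range_cons, Matrix.range_empty, Set.union_empty,
    Set.singleton_union, Submodule.mem_span_pair] at h3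
  obtain ⟨α, β, h4⟩ := h3
  exact ⟨α, β, h4.symm⟩

end CaseT_gen

variable {Ω : Type*} [Field Ω] [CharZero Ω] {σ : Type*} [Fintype σ] [DecidableEq σ] {q b : ℕ}
  {e : Option (Option (Fin b × Fin 2)) ≃ σ} {D : Sym σ q → Derivation ℤ Ω Ω} {a : Sym σ q → Ω}
  {B : Subfield Ω} {i₀ : σ} {x n : σ → Ω} {m : ℕ} {k : Fin m → σ → Ω} {l : Fin 2 → σ → Ω}
  {θ : Fin b → Fin 2 → σ → Ω} {P : Fin b → MvPolynomial σ Ω}

/-- the eigenvalue functional of the block `s` -/
theorem CaseT_blk (m : MtB e D a B i₀ x n k l θ P) (v w : Fin 2 → Ω) (hv : v ≠ 0) (hw : w ≠ 0)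
    (hwv : w ⬝ᵥ v = 0) (s : Fin b) (hM : ∀ Q, w ⬝ᵥ (uB D x l (θ s) Q *ᵥ v) = 0)
    {r : ℕ} (hr : r + 1 = q) :
    ∃ f : MvPolynomial σ Ω →ₗ[Ω] Ω, (∀ Q, RatP B Q → f Q ∈ B) ∧
      (∀ s', f (P s') = if s = s' then 1 else 0) ∧
      (∀ Q, f Q = f (homogeneousComponent r Q)) ∧ (∀ C i, f (C * lf (k i)) = 0) ∧
      ∀ C, f (C * lf (w 0 • l 0 + w 1 • l 1)) = 0 := by
  have pl := m.pl
  have hv' : ∀ a b : Ω, a • v = b • v → a = b := fun a b h => smul_left_injective Ω hv h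
  obtain ⟨f, g, hf, hg, ht⟩ := Pool.Agent.Helper74.Q8.tri_eig (uB D x l (θ s)) v w hv hw hwv hM
  refine ⟨f, fun Q hQ => ?_, fun s' => ?_, ?_⟩
  · obtain ⟨h1, h2, -⟩ := trB m s s Q Q hQ hQ
    exact rat_alg pl.pt.frame _ (CaseT_alg (f Q) (g Q) (by rw [← (ht Q).1]; exact h1)
      (by rw [← (ht Q).2]; exact h2))
  · apply hv'
    rw [← hf, m.one]
    split_ifs
    · rw [Matrix.one_mulVec, one_smul]
    · rw [Matrix.zero_mulVec, zero_smul]
  · exact CaseT_fun D x l (θ s) v w hv hwv f g hf hg k (m.tx s) pl.kp r hr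

theorem case_tB (m : MtB e D a B i₀ x n k l θ P) (v w : Fin 2 → Ω) (hv : v ≠ 0) (hw : w ≠ 0)
    (hwv : w ⬝ᵥ v = 0) (hM : ∀ s Q, w ⬝ᵥ (uB D x l (θ s) Q *ᵥ v) = 0) : ∀ i, x i ∈ B := by
  have pl := m.pl
  have hb := pl.pt.hb
  obtain ⟨r, hr⟩ : ∃ r, r + 1 = q := ⟨3 * b + 1, by rw [pl.pt.hq]⟩
  obtain ⟨s0, hs0⟩ : ∃ s : Fin b, s = ⟨0, by omega⟩ := ⟨_, rfl⟩
  obtain ⟨s1, hs1⟩ : ∃ s : Fin b, s = ⟨1, by omega⟩ := ⟨_, rfl⟩
  have h01 : s1 ≠ s0 := by
    rw [hs0, hs1]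
    intro h
    have h1 := congrArg Fin.val h
    exact one_ne_zero h1
  obtain ⟨f0, hB0, e0, p0, k0, l0⟩ := CaseT_blk m v w hv hw hwv s0 (hM s0) hr
  obtain ⟨f1, hB1, e1, p1, k1, l1⟩ := CaseT_blk m v w hv hw hwv s1 (hM s1) hr
  have e01 : f0 (P s0) = 1 := by rw [e0, if_pos rfl]
  have e11 : f1 (P s0) = 0 := by rw [e1, if_neg h01]
  have e12 : f1 (P s1) = 1 := by rw [e1, if_pos rfl]
  obtain ⟨l', hl'⟩ : ∃ l', l' = w 0 • l 0 + w 1 • l 1 := ⟨_, rfl⟩
  rw [← hl'] at l0 l1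
  have hlx : dt l' x = 0 := by
    rw [hl']
    exact CaseT_dt_left l w x pl.lx
  have hli : l' ∉ Submodule.span Ω (Set.range k) := by
    rw [hl']
    exact CaseT_ind k l pl.ind w hw
  rcases ann_ptB pl hr l' hlx hli f0 (fun h => by rw [h] at e01; exact zero_ne_one e01) hB0 p0 k0
    l0 with h | ⟨z, hzB, hz0, hzk, hzl, hzf⟩
  · exact h
  rcases ann_ptB pl hr l' hlx hli f1 (fun h => by rw [h] at e12; exact zero_ne_one e12) hB1 p1 k1
    l1 with h | ⟨z', hzB', hz0', hzk', hzl', hzf'⟩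
  · exact h
  have hzz : LinearIndependent Ω ![z, z'] := by
    rw [LinearIndependent.pair_iff' hz0]
    intro c hc
    exact CaseT_prop f0 f1 r z z' c hc.symm hzf hzf' (P s0) (P s1) e01 e11 e12
  have hkind : LinearIndependent Ω k := by
    have h1 := pl.ind.comp Sum.inl Sum.inl_injective
    exact h1
  have hK : LinearIndependent Ω (Fin.cons l' k : Fin (_ + 1) → σ → Ω) := hkind.finCons hli
  have hsum : ∀ y : σ → Ω, (∀ i, dt (k i) y = 0) → dt l' y = 0 →
      ∀ i, ∑ j, y j * (Fin.cons l' k : Fin (_ + 1) → σ → Ω) i j = 0 := by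
    intro y hy hy' i
    have h1 : ∀ u : σ → Ω, dt u y = 0 → ∑ j, y j * u j = 0 := by
      intro u hu
      rw [← hu]
      exact Finset.sum_congr rfl fun j _ => mul_comm _ _
    refine Fin.cases ?_ (fun i => ?_) i
    · exact h1 l' hy'
    · exact h1 (k i) (hy i)
  obtain ⟨α, β, hx⟩ := CaseT_span (by have h1 := card_e e; have h2 := pl.hm; omega) _ hK z z'
    (hsum z hzk hzl) (hsum z' hzk' hzl') hzz x (hsum x pl.kx hlx)
  exact two_line pl.pt.frame x i₀ pl.pt.one pl.pt.zero pl.pt.nol z z' hzB hzB' α β hx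

end Pool.Agent.Helper74.BP
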