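import Pool.Agent.Helper74.BP.Defs
import Pool.Agent.Helper6.QS.Rat

/-!
# BP-FINQ: the last step of the plane case

Adapt `Helper74/Q8/FinQ8.lean` with `r = q - 2 ≥ 5` instead of `6`: `w = x ∧ D_(Q X_o^r) x` satisfies
`w = x_m^(2 - r) x' ∧ D_(Q X_m^r) x'`, so `Δ^2 w x_m^(r - 2) ∈ O` and, as `1 / x_m ∈ O`, `Δ^2 w x_m ∈ O`.
-/

set_option autoImplicit false

namespace Pool.Agent.Helper74.BP

open scoped BigOperators
open MvPolynomial
open Pool.Agent.Helper8.LG (Bdd form mon)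
open Pool.Agent.Helper49.LN (cP mo hf pl)
open Pool.Agent.Helper6.QS
open Pool.Agent.Helper74.Q8 (dl rr)

section

variable {Ω : Type*} [Field Ω] {σ : Type*} [Fintype σ] [DecidableEq σ]

theorem FinQ_dt_rr (x : σ → Ω) (o m : σ) : dt (rr x o m) x = 0 := by
  unfold dt rr
  simp only [sub_mul, mul_assoc, ite_mul, one_mul, zero_mul, Finset.sum_sub_distrib,
    mul_ite, mul_zero, Finset.sum_ite_eq', Finset.mem_univ, if_true]
  ring

theorem FinQ_lf_rr (x : σ → Ω) (o : σ) (hx : x o = 1) (m : σ) :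
    lf (rr x o m) = X m - C (x m) * X o := by
  unfold lf rr
  simp only [hx, sub_smul, Finset.sum_sub_distrib, ite_smul, one_smul, zero_smul,
    mul_ite, mul_one, mul_zero, Finset.sum_ite_eq', Finset.mem_univ, if_true, smul_eq_C_mul]

/-- not proportional: a coordinate of the wedge product is not zero -/
theorem FinQ_par (x v : σ → Ω) (o : σ) (hx : x o = 1) (h : ∀ j l, pl x v j l = 0) : Par x v := by
  refine ⟨v o, ?_⟩
  funext l
  have h1 := h o l
  unfold pl at h1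
  rw [hx, one_mul] at h1
  rw [Pi.smul_apply, smul_eq_mul, mul_comm]
  exact sub_eq_zero.1 h1

/-- the directions `Q X_m^r`, for an arbitrary linear map -/
theorem FinQ_lin (L : MvPolynomial σ Ω →ₗ[Ω] (σ → Ω)) (x : σ → Ω) (o : σ) (hx : x o = 1)
    (Q : MvPolynomial σ Ω) (r : ℕ)
    (hpar : ∀ C l, dt l x = 0 → Par x (L (C * Q * lf l))) (m : σ) :
    ∃ c : Ω, L (Q * X m ^ r) = (x m) ^ r • L (Q * X o ^ r) + c • x := by
  obtain ⟨c, hc⟩ := hpar (∑ i ∈ Finset.range r, X m ^ i * (C (x m) * X o) ^ (r - 1 - i))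
    (rr x o m) (FinQ_dt_rr x o m)
  refine ⟨c, ?_⟩
  have hg := geom_sum₂_mul (X m : MvPolynomial σ Ω) (C (x m) * X o) r
  have hdec : Q * X m ^ r = C ((x m) ^ r) * (Q * X o ^ r) +
      (∑ i ∈ Finset.range r, X m ^ i * (C (x m) * X o) ^ (r - 1 - i)) * Q * lf (rr x o m) := by
    rw [FinQ_lf_rr x o hx m, C_pow]
    have h2 : (∑ i ∈ Finset.range r, (X m : MvPolynomial σ Ω) ^ i *
        (C (x m) * X o) ^ (r - 1 - i)) * Q * (X m - C (x m) * X o) =
        Q * ((∑ i ∈ Finset.range r, (X m : MvPolynomial σ Ω) ^ i *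
        (C (x m) * X o) ^ (r - 1 - i)) * (X m - C (x m) * X o)) := by ring
    rw [h2, hg, mul_pow]
    ring
  rw [hdec, map_add, ← smul_eq_C_mul, map_smul, hc]

omit [Fintype σ] [DecidableEq σ] in
theorem FinQ_coeff (O : ValuationSubring Ω) (Δ : Ω) (Q : MvPolynomial σ Ω)
    (h : ∀ k, Δ * coeff k Q ∈ O) (m : σ) (r : ℕ) (k : σ →₀ ℕ) :
    Δ ^ 1 * coeff k (Q * X m ^ r) ∈ O := by
  rw [X_pow_eq_monomial, coeff_mul_monomial', pow_one]
  split_ifs with h1
  · rw [mul_one]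
    exact h _
  · rw [mul_zero]
    exact zero_mem _

omit [Fintype σ] [DecidableEq σ] in
theorem FinQ_alg (x V U : σ → Ω) (m : σ) (hm : x m ≠ 0) (c c' : Ω) (s : ℕ)
    (e : x m ^ (s + 2) • V + c • x = x m • U + c' • x) (j l : σ) :
    pl x V j l * x m ^ s = x j / x m * U l - x l / x m * U j := by
  have e1 : ∀ i, x m ^ (s + 2) * V i + c * x i = x m * U i + c' * x i := by
    intro i
    have := congrFun e i
    simpa only [Pi.add_apply, Pi.smul_apply, smul_eq_mul] using this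
  unfold pl
  have h1 : x m ^ 2 * ((x j * V l - x l * V j) * x m ^ s) =
      x m ^ 2 * (x j / x m * U l - x l / x m * U j) := by
    have h2 : x m ^ 2 * (x j / x m * U l - x l / x m * U j) =
        x j * (x m * U l) - x l * (x m * U j) := by
      field_simp
    rw [h2]
    have h3 := e1 l
    have h4 := e1 j
    rw [pow_add] at h3 h4
    linear_combination x j * h3 - x l * h4
  exact mul_left_cancel₀ (pow_ne_zero 2 hm) h1

omit [Fintype σ] [DecidableEq σ] in
theorem FinQ_mem (O : ValuationSubring Ω) (Δ : Ω) (x V U : σ → Ω) (m o : σ) (hx : x o = 1)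
    (hm : x m ≠ 0) (hxm : ∀ l, x l / x m ∈ O) (c c' : Ω) (s : ℕ)
    (e : x m ^ (s + 1 + 2) • V + c • x = x m • U + c' • x) (hb : ∀ l, Δ ^ (1 + 1) * U l ∈ O)
    (j l : σ) : Δ ^ 2 * (pl x V j l * x m) ∈ O := by
  have m1 : Δ ^ 2 * (x j / x m * U l) ∈ O := by
    have := mul_mem (hxm j) (hb l)
    have e : x j / x m * (Δ ^ (1 + 1) * U l) = Δ ^ 2 * (x j / x m * U l) := by ring
    rw [← e]
    exact this
  have m2 : Δ ^ 2 * (x l / x m * U j) ∈ O := by
    have := mul_mem (hxm l) (hb j)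
    have e : x l / x m * (Δ ^ (1 + 1) * U j) = Δ ^ 2 * (x l / x m * U j) := by ring
    rw [← e]
    exact this
  have m3 : Δ ^ 2 * (pl x V j l * x m ^ (s + 1)) ∈ O := by
    rw [FinQ_alg x V U m hm c c' (s + 1) e j l, mul_sub]
    exact sub_mem m1 m2
  have m4 : (1 / x m) ^ s ∈ O := by
    have := hxm o
    rw [hx] at this
    exact pow_mem this s
  have h5 : Δ ^ 2 * (pl x V j l * x m) = (1 / x m) ^ s * (Δ ^ 2 * (pl x V j l * x m ^ (s + 1))) := by
    have h6 : (1 / x m) ^ s * x m ^ s = 1 := by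
      rw [← mul_pow, one_div, inv_mul_cancel₀ hm, one_pow]
    rw [pow_succ]
    linear_combination (-(Δ ^ 2 * pl x V j l * x m)) * h6
  rw [h5]
  exact mul_mem m4 m3

end

section

variable {Ω : Type*} [Field Ω] [CharZero Ω] {σ : Type*} [Fintype σ] [DecidableEq σ] {q : ℕ}

/-- the general form, the degree `q` is `2 + r`, `r = s + 3` -/
theorem FinQ_gen {D : Sym σ q → Derivation ℤ Ω Ω} {a : Sym σ q → Ω} {B : Subfield Ω}
    {x n : σ → Ω} (hfr : Frame D a B) (o : σ) (hx : x o = 1) (hnx : dt n x = 0)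
    (hnf : ∀ f, dt n (dv D x f) = - ev q x f) (Q : MvPolynomial σ Ω) (hQ : RatP B Q) (s : ℕ)
    (hhom : (Q * X o ^ (s + 1 + 2)).IsHomogeneous q)
    (hpar : ∀ C l, dt l x = 0 → Par x (dv D x (C * Q * lf l))) :
    (∀ i, x i ∈ B) ∨ eval x Q = 0 := by
  have key : ∀ m : σ, ∃ c : Ω, dv D x (Q * X m ^ (s + 1 + 2)) =
      (x m) ^ (s + 1 + 2) • dv D x (Q * X o ^ (s + 1 + 2)) + c • x :=
    FinQ_lin (dv D x) x o hx Q (s + 1 + 2) hpar
  by_cases hw : ∀ j l, pl x (dv D x (Q * X o ^ (s + 1 + 2))) j l = 0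
  · right
    obtain ⟨c, hc⟩ := FinQ_par x _ o hx hw
    have h1 := hnf (Q * X o ^ (s + 1 + 2))
    rw [hc, Pool.Agent.Helper74.Q8.dt_smul', hnx, mul_zero, ev_hom q x _ hhom] at h1
    have h4 : eval x (Q * X o ^ (s + 1 + 2)) = eval x Q := by
      rw [map_mul, map_pow, eval_X, hx, one_pow, mul_one]
    rw [h4] at h1
    exact neg_eq_zero.1 h1.symm
  · left
    push Not at hw
    obtain ⟨j, l, hjl⟩ := hw
    classical
    refine rat_pt hfr x o hx (Q.support.image fun k => coeff k Q) ?_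
      (pl x (dv D x (Q * X o ^ (s + 1 + 2))) j l) hjl 2 ?_
    · intro b hb
      obtain ⟨k, -, rfl⟩ := Finset.mem_image.1 hb
      exact hQ k
    · intro O Δ hΔ hs m hm hxm
      have hco : ∀ k, Δ * coeff k Q ∈ O := by
        intro k
        by_cases hk : k ∈ Q.support
        · exact hs _ (Finset.mem_image_of_mem _ hk)
        · rw [notMem_support_iff.1 hk, mul_zero]
          exact zero_mem _
      obtain ⟨c, hc⟩ := key m
      obtain ⟨c', hc'⟩ := dv_scale D x m hm (Q * X m ^ (s + 1 + 2))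
      have hb := dv_bdd D (fun l => x l / x m) O Δ hΔ hxm (Q * X m ^ (s + 1 + 2)) 1
        (FinQ_coeff O Δ Q hco m _)
      exact FinQ_mem O Δ x _ _ m o hx hm hxm c c' s (hc.symm.trans hc') hb j l

end

variable {Ω : Type*} [Field Ω] [CharZero Ω] {σ : Type*} [Fintype σ] [DecidableEq σ] {q b : ℕ}
  {e : Option (Option (Fin b × Fin 2)) ≃ σ} {D : Sym σ q → Derivation ℤ Ω Ω} {a : Sym σ q → Ω}
  {B : Subfield Ω} {i₀ : σ} {x n : σ → Ω}

theorem fin_qB (h : PtB e D a B i₀ x n) (Q : MvPolynomial σ Ω) (hQ : RatP B Q)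
    (hQ2 : Q.IsHomogeneous 2)
    (hpar : ∀ C l, dt l x = 0 → Par x (dv D x (C * Q * lf l))) :
    (∀ i, x i ∈ B) ∨ eval x Q = 0 := by
  have hb := h.hb
  have hq := h.hq
  have hhom : (Q * X i₀ ^ (3 * b - 3 + 1 + 2)).IsHomogeneous q := by
    have h1 : (X i₀ ^ (3 * b - 3 + 1 + 2) : MvPolynomial σ Ω).IsHomogeneous (3 * b) := by
      have h2 := (isHomogeneous_X Ω i₀).pow (3 * b - 3 + 1 + 2)
      have h3 : 1 * (3 * b - 3 + 1 + 2) = 3 * b := by omega
      rwa [h3] at h2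
    have h4 := hQ2.mul h1
    rwa [show 2 + 3 * b = q by omega] at h4
  exact FinQ_gen h.frame i₀ h.one h.nx h.nf Q hQ (3 * b - 3) hhom hpar

end Pool.Agent.Helper74.BP
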