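import Pool.Agent.Helper74.BP.TBlk

/-!
# BP-MATS: the matrices

Adapt `Helper74/Q8/Mats.lean`. `w_(s,j) = D_(P_s l_j) x`, `vB_coord` gives `θ_(s,j)`. `det`: let
`P' = P` with `Q`, `Q'` in the places `s`, `s'`; `TB e D x i₀ P' (fun r => l r.2) / TB e D x i₀ P ..` is
the determinant of the matrix `(θ_j . D_(P'_(i.1) l_(i.2)) x)_(i,j)` (last part of `vB_coord`), whose
rows in the other blocks are unit vectors; it is the determinant of the 4 x 4 block matrix
(`Matrix.twoBlockTriangular_det`). Both are in `B` (`pl.rat`).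
-/

set_option autoImplicit false

namespace Pool.Agent.Helper74.BP

open scoped BigOperators
open MvPolynomial
open Pool.Agent.Helper8.LG (Bdd form mon)
open Pool.Agent.Helper49.LN (cP mo hf pl)
open Pool.Agent.Helper6.QS
open Pool.Agent.Helper74.Q8 (dl rr)

section mats

variable {Ω : Type*} [Field Ω] {b : ℕ}

/-- the two blocks `s`, `s'` -/
noncomputable def matsB_equiv (s s' : Fin b) (h : s ≠ s') :
    (Fin 2 ⊕ Fin 2) ≃ {r : Fin b × Fin 2 // r.1 = s ∨ r.1 = s'} :=
  Equiv.ofBijective (Sum.elim (fun i => ⟨(s, i), Or.inl rfl⟩) fun i => ⟨(s', i), Or.inr rfl⟩) (by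
    constructor
    · rintro (i | i) (j | j) hij
      · have h1 := congrArg (fun z => z.1.2) hij
        exact congrArg Sum.inl h1
      · have h1 := congrArg (fun z => z.1.1) hij
        exact absurd h1 h
      · have h1 := congrArg (fun z => z.1.1) hij
        exact absurd h1.symm h
      · have h1 := congrArg (fun z => z.1.2) hij
        exact congrArg Sum.inr h1
    · rintro ⟨⟨r, i⟩, h1⟩
      rcases h1 with h1 | h1
      · refine ⟨Sum.inl i, ?_⟩
        have h2 : r = s := h1
        subst h2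
        rfl
      · refine ⟨Sum.inr i, ?_⟩
        have h2 : r = s' := h1
        subst h2
        rfl)

theorem matsB_inl (s s' : Fin b) (h : s ≠ s') (i : Fin 2) :
    (matsB_equiv s s' h (Sum.inl i)).1 = (s, i) := rfl

theorem matsB_inr (s s' : Fin b) (h : s ≠ s') (i : Fin 2) :
    (matsB_equiv s s' h (Sum.inr i)).1 = (s', i) := rfl

/-- a determinant whose rows outside of two blocks are unit vectors -/
theorem matsB_det (M : Matrix (Fin b × Fin 2) (Fin b × Fin 2) Ω) (s s' : Fin b) (h : s ≠ s')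
    (hM : ∀ i j, i.1 ≠ s → i.1 ≠ s' → M i j = if i = j then 1 else 0) :
    M.det = (M.submatrix (fun z => (matsB_equiv s s' h z).1)
      fun z => (matsB_equiv s s' h z).1).det := by
  rw [Matrix.twoBlockTriangular_det M (fun r => r.1 = s ∨ r.1 = s')]
  · have h1 : Matrix.toSquareBlockProp M (fun r => ¬ (r.1 = s ∨ r.1 = s')) = 1 := by
      ext i j
      rw [Matrix.toSquareBlockProp_def, Matrix.of_apply, Matrix.one_apply,
        hM i.1 j.1 (fun h2 => i.2 (Or.inl h2)) (fun h2 => i.2 (Or.inr h2))]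
      by_cases h3 : i = j
      · rw [if_pos h3, if_pos (congrArg Subtype.val h3)]
      · rw [if_neg h3, if_neg fun h4 => h3 (Subtype.ext h4)]
    rw [h1, Matrix.det_one, mul_one]
    rw [← Matrix.det_submatrix_equiv_self (matsB_equiv s s' h)]
    rfl
  · intro i hi j hj
    rw [hM i j (fun h2 => hi (Or.inl h2)) (fun h2 => hi (Or.inr h2)), if_neg]
    rintro rfl
    exact hi hj

end mats

variable {Ω : Type*} [Field Ω] [CharZero Ω] {σ : Type*} [Fintype σ] [DecidableEq σ] {q b : ℕ}
  {e : Option (Option (Fin b × Fin 2)) ≃ σ} {D : Sym σ q → Derivation ℤ Ω Ω} {a : Sym σ q → Ω}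
  {B : Subfield Ω} {i₀ : σ} {x n : σ → Ω} {m : ℕ} {k : Fin m → σ → Ω} {l : Fin 2 → σ → Ω}

theorem matsB (pl : PlB e D a B i₀ x n k l) (P : Fin b → MvPolynomial σ Ω)
    (hP : ∀ s, RatP B (P s)) (hne : TB e D x i₀ P (fun r => l r.2) ≠ 0) :
    ∃ θ : Fin b → Fin 2 → σ → Ω, MtB e D a B i₀ x n k l θ P := by
  have ht : ∀ (R : MvPolynomial σ Ω) (i : Fin 2), dt n (dl D x R (l i)) = 0 := fun R i =>
    vB_tan pl.pt R (l i) (pl.lx i)
  have hT : ∀ P' : Fin b → MvPolynomial σ Ω, TB e D x i₀ P' (fun r => l r.2) =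
      vol2 e x (dv D x (X i₀ ^ q)) fun r => dl D x (P' r.1) (l r.2) := fun _ => rfl
  have h0 : vol2 e x (dv D x (X i₀ ^ q)) (fun r : Fin b × Fin 2 => dl D x (P r.1) (l r.2)) ≠ 0 := by
    rw [← hT]
    exact hne
  have h4 : vol2 e x (dv D x (X i₀ ^ q)) (fun r : Fin b × Fin 2 => dl D x (P r.1) (l r.2)) ∈ B := by
    rw [← hT]
    exact pl.rat P hP
  obtain ⟨t, ht0, ht1, -, ht3, ht4⟩ := vB_coord pl.pt
    (fun r : Fin b × Fin 2 => dl D x (P r.1) (l r.2)) (fun r => ht _ _) h0
  have hone : ∀ s s' : Fin b, uB D x l (fun j => t (s, j)) (P s') = if s = s' then 1 else 0 := by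
    intro s s'
    ext i j
    rw [uB_apply]
    refine (ht1 (s', i) (s, j)).trans ?_
    by_cases hs : s = s'
    · subst hs
      rw [if_pos rfl, Matrix.one_apply]
      by_cases hij : i = j
      · rw [if_pos hij, if_pos (by rw [hij])]
      · rw [if_neg hij, if_neg fun h => hij (congrArg Prod.snd h)]
    · rw [if_neg hs, if_neg fun h => hs (congrArg Prod.fst h).symm]
      rfl
  refine ⟨fun s j => t (s, j), pl, hP, fun s j => ht0 (s, j), ?_, hone, ?_⟩
  · intro v hv h
    exact ht3 v hv fun j => h j.1 j.2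
  · intro s s' hs Q Q' hQ hQ'
    obtain ⟨P', hP'⟩ : ∃ P' : Fin b → MvPolynomial σ Ω,
        P' = Function.update (Function.update P s Q) s' Q' := ⟨_, rfl⟩
    have e1 : P' s = Q := by
      rw [hP', Function.update_of_ne hs, Function.update_self]
    have e2 : P' s' = Q' := by
      rw [hP', Function.update_self]
    have e3 : ∀ r, r ≠ s → r ≠ s' → P' r = P r := by
      intro r h1 h2
      rw [hP', Function.update_of_ne h2, Function.update_of_ne h1]
    have hr : ∀ r, RatP B (P' r) := by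
      intro r
      by_cases h2 : r = s'
      · rw [h2, e2]
        exact hQ'
      · by_cases h1 : r = s
        · rw [h1, e1]
          exact hQ
        · rw [e3 r h1 h2]
          exact hP r
    have h3 : vol2 e x (dv D x (X i₀ ^ q)) (fun r : Fin b × Fin 2 => dl D x (P' r.1) (l r.2)) ∈ B := by
      rw [← hT]
      exact pl.rat P' hr
    have h5 := ht4 (fun r : Fin b × Fin 2 => dl D x (P' r.1) (l r.2)) (fun r => ht _ _)
    have h6 := matsB_det (Matrix.of fun i j : Fin b × Fin 2 => dt (t j) (dl D x (P' i.1) (l i.2)))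
      s s' hs (by
        intro i j h1 h2
        rw [Matrix.of_apply, e3 i.1 h1 h2]
        exact ht1 i j)
    have h7 : Matrix.fromBlocks (uB D x l (fun j => t (s, j)) Q) (uB D x l (fun j => t (s', j)) Q)
        (uB D x l (fun j => t (s, j)) Q') (uB D x l (fun j => t (s', j)) Q') =
        (Matrix.of fun i j : Fin b × Fin 2 => dt (t j) (dl D x (P' i.1) (l i.2))).submatrix
          (fun z => (matsB_equiv s s' hs z).1) fun z => (matsB_equiv s s' hs z).1 := by
      ext i j
      rw [Matrix.submatrix_apply, Matrix.of_apply]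
      rcases i with i | i <;> rcases j with j | j
      · rw [matsB_inl, matsB_inl, Matrix.fromBlocks_apply₁₁, uB_apply, e1]
      · rw [matsB_inl, matsB_inr, Matrix.fromBlocks_apply₁₂, uB_apply, e1]
      · rw [matsB_inl, matsB_inr, Matrix.fromBlocks_apply₂₁, uB_apply, e2]
      · rw [matsB_inr, matsB_inr, Matrix.fromBlocks_apply₂₂, uB_apply, e2]
    show (Matrix.fromBlocks (uB D x l (fun j => t (s, j)) Q) (uB D x l (fun j => t (s', j)) Q)
        (uB D x l (fun j => t (s, j)) Q') (uB D x l (fun j => t (s', j)) Q')).det ∈ B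
    rw [h7, ← h6]
    have h8 : (Matrix.of fun i j : Fin b × Fin 2 => dt (t j) (dl D x (P' i.1) (l i.2))).det =
        vol2 e x (dv D x (X i₀ ^ q)) (fun r : Fin b × Fin 2 => dl D x (P' r.1) (l r.2)) /
          vol2 e x (dv D x (X i₀ ^ q)) (fun r : Fin b × Fin 2 => dl D x (P r.1) (l r.2)) := by
      rw [h5, mul_div_cancel_left₀ _ h0]
    rw [h8]
    exact div_mem h3 h4

end Pool.Agent.Helper74.BP
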