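import Pool.Agent.Helper74.BP.Defs

/-!
# BP-VOL: the volume form on `n^⊥ / x`

`vB_tan`: `ev_lf` with `q = (3 b + 1) + 1`. `vB_par`: two proportional rows. `vB_ne`: `x, v_i` span
`n^⊥` and `n . D_(X_(i₀)^q) x = - x_(i₀)^q = - 1`, so the rows are independent.
`vB_coord`: the rows `x, D_(X_(i₀)^q) x, w_i` form a basis; the `θ_j` are columns of the inverse
matrix; for `v` in `n^⊥` the coefficient of `D_(X_(i₀)^q) x` is zero, so `v - ∑ (θ_j . v) w_j` is a
multiple of `x`; the last formula is the determinant of a block triangular matrix.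
-/

set_option autoImplicit false

namespace Pool.Agent.Helper74.BP

open scoped BigOperators
open MvPolynomial
open Pool.Agent.Helper8.LG (Bdd form mon)
open Pool.Agent.Helper49.LN (cP mo hf pl)
open Pool.Agent.Helper6.QS
open Pool.Agent.Helper74.Q8 (dl rr)

section

variable {Ω : Type*} [Field Ω] {σ τ : Type*} [Fintype σ] [DecidableEq σ] [DecidableEq τ]

/-- a row proportional to the first one -/
theorem vB_par (e : Option (Option τ) ≃ σ) (x w : σ → Ω) (v : τ → σ → Ω) (i : τ)
    (hi : Par x (v i)) : vol2 e x w v = 0 := by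
  obtain ⟨c, hc⟩ := hi
  have h1 : v = Function.update v i (c • x) := by
    rw [← hc, Function.update_eq_self]
  rw [h1, AlternatingMap.map_update_smul, vol2_apply]
  have h2 : Matrix.det (Matrix.of fun r => rows x w (Function.update v i x) (e.symm r)) = 0 := by
    refine Matrix.det_zero_of_row_eq (i := e none) (j := e (some (some i))) ?_ ?_
    · intro h
      have h3 := e.injective h
      simp at h3
    · show rows x w (Function.update v i x) (e.symm (e none)) =
        rows x w (Function.update v i x) (e.symm (e (some (some i))))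
      rw [Equiv.symm_apply_apply, Equiv.symm_apply_apply, rows_none, rows_some_some,
        Function.update_self]
  rw [h2, smul_zero]

theorem rr_spanB {x : σ → Ω} {i₀ : σ} (hx : x i₀ = 1) (l : σ → Ω) (hl : dt l x = 0) :
    l = ∑ b, l b • rr x i₀ b := by
  funext i
  rw [Finset.sum_apply]
  have h1 : ∀ b, (l b • rr x i₀ b) i = l b * (if i = b then 1 else 0) -
      l b * x b * (if i = i₀ then 1 else 0) := by
    intro b
    rw [Pi.smul_apply, smul_eq_mul, rr, hx]
    ring
  rw [Finset.sum_congr rfl fun b _ => h1 b, Finset.sum_sub_distrib, ← Finset.sum_mul]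
  have h2 : ∑ b, l b * x b = 0 := hl
  rw [h2, zero_mul, sub_zero]
  simp

theorem rr_dtB (x : σ → Ω) (j b : σ) : dt (rr x j b) x = 0 := by
  unfold dt rr
  have h1 : ∀ i, (x j * (if i = b then 1 else 0) - x b * (if i = j then 1 else 0)) * x i =
      x j * (if i = b then x i else 0) - x b * (if i = j then x i else 0) := by
    intro i
    split_ifs <;> ring
  rw [Finset.sum_congr rfl fun i _ => h1 i, Finset.sum_sub_distrib, ← Finset.mul_sum,
    ← Finset.mul_sum]
  simp
  ring

omit [Fintype σ] in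
theorem rr_zeroB (x : σ → Ω) (j : σ) : rr x j j = 0 := by
  funext i
  unfold rr
  rw [sub_self]
  rfl

/-- the order of the rows -/
def vB_oo (τ : Type*) : Fin 2 ⊕ τ ≃ Option (Option τ) where
  toFun := Sum.elim (fun i => if i = 0 then none else some none) fun p => some (some p)
  invFun
    | none => Sum.inl 0
    | some none => Sum.inl 1
    | some (some p) => Sum.inr p
  left_inv := by
    rintro (i | p)
    · fin_cases i <;> rfl
    · rfl
  right_inv := by
    rintro (_ | _ | p) <;> rfl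

/-- a matrix with two unit rows -/
theorem vB_block [Fintype τ] (e : Option (Option τ) ≃ σ) (A : Matrix σ σ Ω)
    (h0 : ∀ r, A (e none) r = if e none = r then 1 else 0)
    (h1 : ∀ r, A (e (some none)) r = if e (some none) = r then 1 else 0) :
    A.det = Matrix.det (Matrix.of fun p p' : τ => A (e (some (some p))) (e (some (some p')))) := by
  obtain ⟨g, hg⟩ : ∃ g, g = (vB_oo τ).trans e := ⟨_, rfl⟩
  have hg0 : g (Sum.inl 0) = e none := by rw [hg]; rfl
  have hg1 : g (Sum.inl 1) = e (some none) := by rw [hg]; rfl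
  have hgp : ∀ p, g (Sum.inr p) = e (some (some p)) := by intro p; rw [hg]; rfl
  have hA : A.submatrix g g = Matrix.fromBlocks 1 0
      (Matrix.of fun p i => A (g (Sum.inr p)) (g (Sum.inl i)))
      (Matrix.of fun p p' => A (e (some (some p))) (e (some (some p')))) := by
    have hi : ∀ (i : Fin 2) (s : Fin 2 ⊕ τ), A (g (Sum.inl i)) (g s) =
        if Sum.inl i = s then 1 else 0 := by
      intro i s
      have hc : (g (Sum.inl i) = g s) ↔ (Sum.inl i = s) := g.injective.eq_iff
      fin_cases i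
      · show A (g (Sum.inl 0)) (g s) = _
        rw [hg0, h0, ← hg0]
        exact if_congr g.injective.eq_iff rfl rfl
      · show A (g (Sum.inl 1)) (g s) = _
        rw [hg1, h1, ← hg1]
        exact if_congr g.injective.eq_iff rfl rfl
    ext s t
    rcases s with i | p <;> rcases t with i' | p'
    · rw [Matrix.submatrix_apply, hi, Matrix.fromBlocks_apply₁₁, Matrix.one_apply]
      exact if_congr Sum.inl_injective.eq_iff rfl rfl
    · rw [Matrix.submatrix_apply, hi, Matrix.fromBlocks_apply₁₂, if_neg Sum.inl_ne_inr]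
      rfl
    · rfl
    · rw [Matrix.submatrix_apply, Matrix.fromBlocks_apply₂₂, Matrix.of_apply, hgp, hgp]
  rw [← Matrix.det_submatrix_equiv_self g A, hA, Matrix.det_fromBlocks_zero₁₂, Matrix.det_one,
    one_mul]

omit [DecidableEq τ] in
theorem vB_sum [Fintype τ] (e : Option (Option τ) ≃ σ) (c : σ → Ω) (x w : σ → Ω)
    (v : τ → σ → Ω) :
    ∑ r, c r • rows x w v (e.symm r) =
      c (e none) • x + (c (e (some none)) • w + ∑ p, c (e (some (some p))) • v p) := by
  rw [← Equiv.sum_comp e (fun r => c r • rows x w v (e.symm r)), Fintype.sum_option,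
    Fintype.sum_option]
  simp only [Equiv.symm_apply_apply, rows_none, rows_some_none, rows_some_some]

/-- the determinant of a matrix with two prescribed rows -/
theorem vB_det [Fintype τ] (e : Option (Option τ) ≃ σ) (x y : σ → Ω) (w v : τ → σ → Ω)
    (W : Matrix σ σ Ω) (hW : W = Matrix.of fun r => rows x y w (e.symm r)) (h0 : W.det ≠ 0) :
    Matrix.det (Matrix.of fun r => rows x y v (e.symm r)) =
      W.det * Matrix.det (Matrix.of fun i j => dt (fun l => W⁻¹ l (e (some (some j)))) (v i)) := by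
  have hu : IsUnit W.det := isUnit_iff_ne_zero.2 h0
  have h1 : W * W⁻¹ = 1 := Matrix.mul_nonsing_inv W hu
  have h2 : W⁻¹ * W = 1 := Matrix.nonsing_inv_mul W hu
  obtain ⟨V, hV⟩ : ∃ V, V = Matrix.of fun r => rows x y v (e.symm r) := ⟨_, rfl⟩
  rw [← hV]
  have h3 : V = (V * W⁻¹) * W := by rw [Matrix.mul_assoc, h2, Matrix.mul_one]
  have hVr : ∀ s, V (e s) = rows x y v s := by
    intro s
    rw [hV]
    show rows x y v (e.symm (e s)) = _
    rw [Equiv.symm_apply_apply]
  have hWr : ∀ s, W (e s) = rows x y w s := by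
    intro s
    rw [hW]
    show rows x y w (e.symm (e s)) = _
    rw [Equiv.symm_apply_apply]
  have hr : ∀ s, rows x y v s = rows x y w s → ∀ r, (V * W⁻¹) (e s) r =
      if e s = r then 1 else 0 := by
    intro s hs r
    have h4 : (V * W⁻¹) (e s) r = (W * W⁻¹) (e s) r := by
      rw [Matrix.mul_apply, Matrix.mul_apply]
      refine Finset.sum_congr rfl fun l _ => ?_
      rw [hVr, hWr, hs]
    rw [h4, h1, Matrix.one_apply]
  conv_lhs => rw [h3]
  rw [Matrix.det_mul, vB_block e (V * W⁻¹) (hr none rfl) (hr (some none) rfl), mul_comm]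
  congr 1
  congr 1
  ext i j
  rw [Matrix.of_apply, Matrix.of_apply, Matrix.mul_apply]
  unfold dt
  refine Finset.sum_congr rfl fun l _ => ?_
  rw [hVr, rows_some_some, mul_comm]

end

variable {Ω : Type*} [Field Ω] [CharZero Ω] {σ : Type*} [Fintype σ] [DecidableEq σ] {q b : ℕ}
  {e : Option (Option (Fin b × Fin 2)) ≃ σ} {D : Sym σ q → Derivation ℤ Ω Ω} {a : Sym σ q → Ω}
  {B : Subfield Ω} {i₀ : σ} {x n : σ → Ω}

omit [CharZero Ω] in
theorem vB_ev_lf (k : ℕ) (hk : q = k + 1) (x l : σ → Ω) (P : MvPolynomial σ Ω)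
    (hl : dt l x = 0) : ev q x (P * lf l) = 0 := by
  subst hk
  rw [ev_lf, hl, mul_zero]

omit [CharZero Ω] in
theorem vB_ev_pow (x : σ → Ω) (i : σ) : ev q x (X i ^ q) = x i ^ q := by
  have h1 : (X i ^ q : MvPolynomial σ Ω).IsHomogeneous q := by
    have h2 := (isHomogeneous_X Ω i).pow q
    rwa [one_mul] at h2
  rw [ev_hom q x _ h1, map_pow, eval_X]

/-- derivatives in directions vanishing at `x` are orthogonal to `n` -/
theorem vB_tan (h : PtB e D a B i₀ x n) (P : MvPolynomial σ Ω) (l : σ → Ω) (hl : dt l x = 0) :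
    dt n (dl D x P l) = 0 := by
  rw [Pool.Agent.Helper74.Q8.dl_eq, h.nf, vB_ev_lf (3 * b + 1) h.hq x l P hl, neg_zero]

theorem vB_w0 (h : PtB e D a B i₀ x n) : dt n (dv D x (X i₀ ^ q)) = -1 := by
  rw [h.nf, vB_ev_pow, h.one, one_pow]

theorem vB_ne (h : PtB e D a B i₀ x n) (v : Fin b × Fin 2 → σ → Ω) (hv : ∀ i, dt n (v i) = 0)
    (hlin : LinearIndependent Ω (Sum.elim (fun _ : Fin 1 => x) v)) :
    vol2 e x (dv D x (X i₀ ^ q)) v ≠ 0 := by
  rw [vol2_apply]
  obtain ⟨w0, hw0⟩ : ∃ w0, w0 = dv D x (X i₀ ^ q) := ⟨_, rfl⟩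
  have h0 : dt n w0 = -1 := by rw [hw0]; exact vB_w0 h
  rw [← hw0]
  intro hdet
  obtain ⟨c, hc0, hc⟩ := Matrix.exists_vecMul_eq_zero_iff.2 hdet
  have h1 : c (e none) • x + (c (e (some none)) • w0 +
      ∑ p, c (e (some (some p))) • v p) = 0 := by
    rw [← vB_sum e c x w0 v, ← hc]
    funext l
    rw [Matrix.vecMul, Finset.sum_apply]
    rfl
  have h3 : c (e (some none)) = 0 := by
    have h4 : dt n (c (e none) • x + (c (e (some none)) • w0 +
        ∑ p, c (e (some (some p))) • v p)) = 0 := by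
      rw [h1, Pool.Agent.Helper74.Q8.dt_zero']
    rw [Pool.Agent.Helper74.Q8.dt_add', Pool.Agent.Helper74.Q8.dt_add',
      Pool.Agent.Helper74.Q8.dt_smul', Pool.Agent.Helper74.Q8.dt_smul',
      Pool.Agent.Helper74.Q8.dt_sum', h.nx, h0, Finset.sum_eq_zero
      (fun i _ => by rw [Pool.Agent.Helper74.Q8.dt_smul', hv i, mul_zero])] at h4
    linear_combination -h4
  have h5 : ∑ i, (Sum.elim (fun _ : Fin 1 => c (e none)) (fun p => c (e (some (some p)))) :
      Fin 1 ⊕ Fin b × Fin 2 → Ω) i • (Sum.elim (fun _ : Fin 1 => x) v) i = 0 := by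
    rw [Fintype.sum_sum_type]
    have h6 : c (e none) • x + ∑ p, c (e (some (some p))) • v p = 0 := by
      rw [h3, zero_smul, zero_add] at h1
      exact h1
    simpa using h6
  have h7 := Fintype.linearIndependent_iff.1 hlin _ h5
  apply hc0
  funext r
  obtain ⟨s, rfl⟩ := e.surjective r
  rcases s with _ | _ | p
  · exact h7 (Sum.inl 0)
  · exact h3
  · exact h7 (Sum.inr p)

/-- the coordinates of `n^⊥ / x` in a basis `w` -/
theorem vB_coord (h : PtB e D a B i₀ x n) (w : Fin b × Fin 2 → σ → Ω) (hw : ∀ i, dt n (w i) = 0)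
    (h0 : vol2 e x (dv D x (X i₀ ^ q)) w ≠ 0) :
    ∃ θ : Fin b × Fin 2 → σ → Ω, (∀ j, dt (θ j) x = 0) ∧
      (∀ i j, dt (θ j) (w i) = if i = j then 1 else 0) ∧
      (∀ v, dt n v = 0 → Par x (v - ∑ j, dt (θ j) v • w j)) ∧
      (∀ v, dt n v = 0 → (∀ j, dt (θ j) v = 0) → Par x v) ∧
      ∀ v : Fin b × Fin 2 → σ → Ω, (∀ i, dt n (v i) = 0) →
        vol2 e x (dv D x (X i₀ ^ q)) v = vol2 e x (dv D x (X i₀ ^ q)) w *
          Matrix.det (Matrix.of fun i j => dt (θ j) (v i)) := by
  have hw0' : dt n (dv D x (X i₀ ^ q)) = -1 := vB_w0 h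
  rw [vol2_apply] at h0
  simp only [vol2_apply]
  obtain ⟨w0, hw0⟩ : ∃ w0, w0 = dv D x (X i₀ ^ q) := ⟨_, rfl⟩
  rw [← hw0] at hw0' h0 ⊢
  obtain ⟨W, hW⟩ : ∃ W, W = Matrix.of fun r => rows x w0 w (e.symm r) := ⟨_, rfl⟩
  rw [← hW] at h0 ⊢
  have hu : IsUnit W.det := isUnit_iff_ne_zero.2 h0
  have h1 : W * W⁻¹ = 1 := Matrix.mul_nonsing_inv W hu
  have h2 : W⁻¹ * W = 1 := Matrix.nonsing_inv_mul W hu
  have hWr : ∀ s, W (e s) = rows x w0 w s := by
    intro s
    rw [hW]
    show rows x w0 w (e.symm (e s)) = _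
    rw [Equiv.symm_apply_apply]
  have hdt : ∀ (s : Option (Option (Fin b × Fin 2))) (j : Fin b × Fin 2),
      dt (fun l => W⁻¹ l (e (some (some j)))) (rows x w0 w s) =
      if s = some (some j) then 1 else 0 := by
    intro s j
    have h3 : (W * W⁻¹) (e s) (e (some (some j))) = if s = some (some j) then 1 else 0 := by
      rw [h1, Matrix.one_apply]
      exact if_congr e.injective.eq_iff rfl rfl
    rw [← h3, Matrix.mul_apply, dt, ← hWr]
    exact Finset.sum_congr rfl fun l _ => mul_comm _ _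
  have hcomb : ∀ v, dt n v = 0 →
      Par x (v - ∑ j, dt (fun l => W⁻¹ l (e (some (some j)))) v • w j) := by
    intro v hv
    have e1 : v = ∑ r, (Matrix.vecMul v W⁻¹) r • rows x w0 w (e.symm r) := by
      have e2 : Matrix.vecMul (Matrix.vecMul v W⁻¹) W = v := by
        rw [Matrix.vecMul_vecMul, h2, Matrix.vecMul_one]
      conv_lhs => rw [← e2]
      funext l
      rw [Matrix.vecMul, Finset.sum_apply, hW]
      rfl
    have e3 : ∀ j, (Matrix.vecMul v W⁻¹) (e (some (some j))) =
        dt (fun l => W⁻¹ l (e (some (some j)))) v := by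
      intro j
      show ∑ l, v l * W⁻¹ l (e (some (some j))) = ∑ l, W⁻¹ l (e (some (some j))) * v l
      exact Finset.sum_congr rfl fun l _ => mul_comm _ _
    rw [vB_sum] at e1
    simp only [e3] at e1
    obtain ⟨c0, hc0⟩ : ∃ c0, c0 = (Matrix.vecMul v W⁻¹) (e none) := ⟨_, rfl⟩
    obtain ⟨c1, hc1⟩ : ∃ c1, c1 = (Matrix.vecMul v W⁻¹) (e (some none)) := ⟨_, rfl⟩
    rw [← hc0, ← hc1] at e1
    obtain ⟨S, hS⟩ : ∃ S, S = ∑ j, dt (fun l => W⁻¹ l (e (some (some j)))) v • w j := ⟨_, rfl⟩
    have e5 : dt n S = 0 := by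
      rw [hS, Pool.Agent.Helper74.Q8.dt_sum', Finset.sum_eq_zero
        (fun j _ => by rw [Pool.Agent.Helper74.Q8.dt_smul', hw j, mul_zero])]
    rw [← hS] at e1 ⊢
    have e6 : c1 = 0 := by
      have e7 := congrArg (dt n) e1
      rw [hv, Pool.Agent.Helper74.Q8.dt_add', Pool.Agent.Helper74.Q8.dt_add',
        Pool.Agent.Helper74.Q8.dt_smul', Pool.Agent.Helper74.Q8.dt_smul', h.nx, hw0', e5] at e7
      linear_combination e7
    refine ⟨c0, ?_⟩
    rw [e6, zero_smul, zero_add] at e1
    rw [e1, add_sub_cancel_right]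
  refine ⟨fun j l => W⁻¹ l (e (some (some j))), ?_, ?_, hcomb, ?_, ?_⟩
  · intro j
    have := hdt none j
    rw [rows_none] at this
    rw [this, if_neg (by simp)]
  · intro i j
    have := hdt (some (some i)) j
    rw [rows_some_some] at this
    rw [this]
    exact if_congr (by simp) rfl rfl
  · intro v hv hj
    have h3 := hcomb v hv
    rwa [Finset.sum_eq_zero (fun j _ => by rw [hj j, zero_smul]), sub_zero] at h3
  · intro v _
    exact vB_det e x w0 w v W hW h0

end Pool.Agent.Helper74.BP
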