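import Pool.Agent.Helper74.BP.PlaneC
import Pool.Agent.Helper74.BP.Mats
import Pool.Agent.Helper74.BP.CaseT
import Pool.Agent.Helper74.BP.CaseN
import Pool.Agent.Helper74.BP.RatQ
import Pool.Agent.Helper74.BP.FinQ
import Pool.Agent.Helper74.BP.ConicDiv
import Pool.Agent.Helper74.BP.ConicCount

/-!
# BP-KEYBLK: the block case (assembly)
-/

set_option autoImplicit false

namespace Pool.Agent.Helper74.BP

open scoped BigOperators
open MvPolynomial Matrix
open Pool.Agent.Helper8.LG (Bdd form mon)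
open Pool.Agent.Helper49.LN (cP mo hf pl)
open Pool.Agent.Helper6.QS
open Pool.Agent.Helper74.Q8 (dl rr)

section general

variable {Ω : Type*} [Field Ω] {σ : Type*} [Fintype σ] [DecidableEq σ] {q : ℕ}

omit [Fintype σ] [DecidableEq σ] in
theorem kb_eval_mo (x : σ → Ω) (J : Sym σ q) : eval x (mo Ω (J : Multiset σ)) = mon x J := by
  unfold mo mon
  rw [map_multiset_prod, Multiset.map_map]
  congr 1
  exact Multiset.map_congr rfl fun i _ => eval_X i

theorem kb_eval_sum (x : σ → Ω) (a : Sym σ q → Ω) :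
    eval x (∑ J : Sym σ q, a J • mo Ω (J : Multiset σ)) = form a x := by
  rw [map_sum]
  unfold form
  refine Finset.sum_congr rfl fun J _ => ?_
  rw [smul_eval, kb_eval_mo]

theorem kb_sum_hom (a : Sym σ q → Ω) :
    (∑ J : Sym σ q, a J • mo Ω (J : Multiset σ) : MvPolynomial σ Ω).IsHomogeneous q := by
  refine IsHomogeneous.sum _ _ _ fun J _ => ?_
  have h4 := Pool.Agent.Helper49.LN.mo_hom (E := Ω) (J : Multiset σ)
  rw [Sym.card_coe] at h4
  rw [smul_eq_C_mul]
  have h5 := (isHomogeneous_C σ (a J)).mul h4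
  rwa [zero_add] at h5

theorem kb_sum_rat (B : Subfield Ω) (a : Sym σ q → Ω) (ha : ∀ J, a J ∈ B) :
    RatP B (∑ J : Sym σ q, a J • mo Ω (J : Multiset σ)) := by
  intro m
  rw [coeff_sum]
  refine sum_mem fun J _ => ?_
  rw [coeff_smul, smul_eq_mul, Pool.Agent.Helper49.LN.mo_eq, coeff_monomial]
  refine mul_mem (ha J) ?_
  split_ifs
  · exact one_mem B
  · exact zero_mem B

end general

variable {Ω : Type*} [Field Ω] [CharZero Ω] {σ : Type*} [Fintype σ] [DecidableEq σ] {q b : ℕ}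
  {e : Option (Option (Fin b × Fin 2)) ≃ σ} {D : Sym σ q → Derivation ℤ Ω Ω} {a : Sym σ q → Ω}
  {B : Subfield Ω} {i₀ : σ} {x n : σ → Ω} {m : ℕ} {k : Fin m → σ → Ω} {l : Fin 2 → σ → Ω}
  {θ : Fin b → Fin 2 → σ → Ω} {P : Fin b → MvPolynomial σ Ω}

/-- the plane case -/
theorem key_mtB (m : MtB e D a B i₀ x n k l θ P) : ∀ i, x i ∈ B := by
  by_contra hcon
  by_cases hnd : ∀ N ∈ Submodule.span Ω (Set.range (fB D x l θ)),
      (∀ i, (N * fB D x l θ i).trace = 0) → N = 0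
  swap
  · push Not at hnd
    obtain ⟨N, hNs, hN0, hN⟩ := hnd
    obtain ⟨v, w, hv, hw, hwv, hM⟩ := Pool.Agent.Helper74.Q8.tri (fB D x l θ) none rfl N hN hNs hN0
    refine hcon (case_tB m v w hv hw hwv fun s Q => ?_)
    have h1 : ∀ d : σ →₀ ℕ, w ⬝ᵥ (uB D x l (θ s) (monomial d 1) *ᵥ v) = 0 :=
      fun d => hM (some (s, d))
    induction Q using MvPolynomial.induction_on' with
    | monomial d c =>
      have h2 : monomial d c = c • (monomial d (1 : Ω) : MvPolynomial σ Ω) := by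
        rw [smul_monomial, smul_eq_mul, mul_one]
      rw [h2, map_smul, Matrix.smul_mulVec, dotProduct_smul, h1, smul_zero]
    | add Q Q' hQ hQ' =>
      rw [map_add, Matrix.add_mulVec, dotProduct_add, hQ, hQ', add_zero]
  obtain ⟨Q, hQ2, hQy, hQpar⟩ := case_nB m hnd hcon
  obtain ⟨Q1, hQ1, hQ12, hQ1y, hpar⟩ := rat_qB m hnd Q hQ2 hQy hQpar
  have hpt := m.pl.pt
  rcases fin_qB hpt Q1 hQ1 hQ12 hpar with h3 | h3
  · exact hcon h3
  have hq : q = 3 * b + 2 := hpt.hq
  obtain ⟨F, hFdef⟩ : ∃ F, F = ∑ J : Sym σ q, a J • mo Ω (J : Multiset σ) := ⟨_, rfl⟩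
  have hFq : F.IsHomogeneous q := by
    rw [hFdef]
    exact kb_sum_hom a
  have hFhom : F.IsHomogeneous (3 * b + 2) := by
    rw [hq] at hFq
    exact hFq
  have hFx : eval x F = 0 := by
    rw [hFdef, kb_eval_sum]
    exact hpt.zero
  have hFB : RatP B F := by
    rw [hFdef]
    exact kb_sum_rat B a hpt.frame.mem
  have hkind : LinearIndependent Ω k := by
    have h5 := m.pl.ind.comp Sum.inl Sum.inl_injective
    exact h5
  have hσ := card_e e
  have hm := m.pl.hm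
  rcases conic_divB (rat_alg hpt.frame) x i₀ hpt.one (by omega) k m.pl.kB m.pl.kx hkind Q1 F hQ1
    hFB (3 * b) hQ12 hFhom hQ1y h3 hFx with h4 | ⟨h', h5, h6, h7⟩ | ⟨A, C, h5, h6, h7⟩
  · exact hcon h4
  · refine hcon (many_line hpt.frame x i₀ hpt.one hpt.zero hpt.nol (by omega)
      (Matrix.vecCons h' k) ?_ ?_ h6)
    · intro i j
      refine Fin.cases ?_ (fun i => ?_) i
      · exact h5 j
      · exact m.pl.kB i j
    · intro i
      refine Fin.cases ?_ (fun i => ?_) i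
      · exact h7
      · exact m.pl.kx i
  · exact conic_countB (d := 3 * b) (by omega) hq (by omega) D a hpt.frame.dual k hkind Q1 C A
      hQ12 h5 h6 (hFdef ▸ h7)

/-- **The block case.** -/
theorem key_blkB (hb : 2 ≤ b) (hq : q = 3 * b + 2) (e : Option (Option (Fin b × Fin 2)) ≃ σ)
    (hB : Frame D a B) (x : σ → Ω) (i₀ : σ) (hx : x i₀ = 1) (hF : form a x = 0)
    (hnl : ¬ LineIn a x) (P : Fin b → MvPolynomial σ Ω) (hP : ∀ p, RatP B (P p))
    (l : Fin b × Fin 2 → σ → Ω) (hl : ∀ r, dt (l r) x = 0)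
    (hlin : LinearIndependent Ω (Sum.elim (fun _ : Fin 1 => x) fun r => dl D x (P r.1) (l r))) :
    ∀ i, x i ∈ B := by
  obtain ⟨n, hn, hf⟩ := dv_normal D a hB.dual (by omega) x hF
  have hpt : PtB e D a B i₀ x n := ⟨hb, hq, hB, hx, hnl, hF, hn, hf⟩
  have hne : TB e D x i₀ P l ≠ 0 := vB_ne hpt _ (fun r => vB_tan hpt _ _ (hl r)) hlin
  rcases plane_c hpt P hP l hl hne with h1 | ⟨m, k, l0, pl, hne0⟩
  · exact h1
  obtain ⟨θ, hθ⟩ := matsB pl P hP hne0
  exact key_mtB hθ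

end Pool.Agent.Helper74.BP
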