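import Pool.Agent.Helper74.BP.Defs

/-!
# BP-KEYDEF: the key statement
-/

set_option autoImplicit false

namespace Pool.Agent.Helper74.BP

open scoped BigOperators
open MvPolynomial
open Pool.Agent.Helper8.LG (Bdd form mon)
open Pool.Agent.Helper49.LN (cP mo hf pl)
open Pool.Agent.Helper6.QS

universe u

/-- **The key statement** for `(N, q)`: the points on no line contained in the hypersurface -/
def KeyL (N q : ℕ) : Prop :=
  ∀ (Ω : Type u) [Field Ω] [CharZero Ω] (D : Sym (Fin (N + 1)) q → Derivation ℤ Ω Ω)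
    (a : Sym (Fin (N + 1)) q → Ω) (B : Subfield Ω), Frame D a B →
    ∀ x : Fin (N + 1) → Ω, x 0 = 1 → form a x = 0 → ¬ LineIn a x → ∀ l, x l ∈ B

theorem KeyL.of_Q {N q : ℕ} (h : KeyQ.{u} N q) : KeyL.{u} N q :=
  fun Ω _ _ D a B hB x hx hF _ => h Ω D a B hB x hx hF

end Pool.Agent.Helper74.BP
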