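import Pool.Agent.Helper74.BP.Dich
import Pool.Agent.Helper74.BP.KeyBlk
import Pool.Agent.Helper74.BP.KeyDef

/-!
# BP-KEY: the key statement for generic hypersurfaces of degree `q`, `2 q ≥ 3 N + 1`, `N ≥ 4`
-/

set_option autoImplicit false

namespace Pool.Agent.Helper74.BP

open scoped BigOperators
open MvPolynomial
open Pool.Agent.Helper8.LG (Bdd form mon)
open Pool.Agent.Helper49.LN (cP mo hf pl)
open Pool.Agent.Helper6.QS

universe u

theorem keyL_all (N q : ℕ) (hN : 4 ≤ N) (h : 3 * N + 1 ≤ 2 * q) : KeyL.{u} N q := by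
  intro Ω _ _ D a B hB x hx hF hnl
  obtain ⟨n, rfl⟩ : ∃ n, q = n + 1 := ⟨q - 1, by omega⟩
  have hc : Fintype.card (Fin (N + 1)) = N + 1 := Fintype.card_fin _
  rcases bp_dich hB x 0 hx hF hnl (by rw [hc]; omega) (by rw [hc]; omega) with
    h1 | ⟨b, h1, h2, P, l, hP, hl, hlin⟩
  · exact h1
  · rw [hc] at h1
    have hb : 2 ≤ b := by omega
    have e : Option (Option (Fin b × Fin 2)) ≃ Fin (N + 1) := Fintype.equivOfCardEq (by
      simp only [Fintype.card_option, Fintype.card_prod, Fintype.card_fin]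
      omega)
    exact key_blkB hb h2 e hB x 0 hx hF hnl P hP l hl hlin

end Pool.Agent.Helper74.BP
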