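import Pool.Agent.Helper74.BP.FinL
import Pool.Agent.Helper74.BP.Key
import Pool.Agent.Helper6.QS.KeyAll

/-!
# BP-FINC: `FinC N q` for `N ≥ 3`, `2 q ≥ 3 N + 1`

`N = 3`, `q = 5`: `keyQ35`; `N = 3`, `q ≥ 6`: the engine of the project LN; `N ≥ 4`: `keyL_all`.
-/

set_option autoImplicit false

namespace Pool.Agent.Helper74.BP

open scoped BigOperators
open MvPolynomial
open Pool.Agent.Helper8.LG
open Pool.Agent.Helper6.QS (FinC KeyQ)

universe u v

theorem trdeg_pt {k₀ L : Type*} [Field k₀] [Field L] [Algebra k₀ L] {N : ℕ}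
    (x : Fin (N + 1) → L) (i₀ : Fin (N + 1)) (hx : x i₀ = 1) :
    Algebra.trdeg k₀ (IntermediateField.adjoin k₀ (Set.range x)) ≤ N := by
  have h1 : IntermediateField.adjoin k₀ (Set.range x) =
      IntermediateField.adjoin k₀ (Set.range fun j : Fin N => x (i₀.succAbove j)) := by
    apply le_antisymm
    · rw [IntermediateField.adjoin_le_iff]
      rintro _ ⟨l, rfl⟩
      rcases eq_or_ne l i₀ with rfl | hl
      · rw [hx]
        exact one_mem _
      · obtain ⟨j, rfl⟩ := Fin.exists_succAbove_eq hl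
        exact IntermediateField.subset_adjoin _ _ ⟨j, rfl⟩
    · apply IntermediateField.adjoin.mono
      rintro _ ⟨j, rfl⟩
      exact ⟨_, rfl⟩
  rw [h1]
  have h2 := Pool.Agent.Helper8.LV.multi_trdeg_le (F := k₀) (fun j : Fin N => x (i₀.succAbove j))
  rwa [Fintype.card_fin] at h2

/-- surfaces in `P^3` of degree at least six -/
theorem finC_three {q : ℕ} (hq : 6 ≤ q) : FinC.{u, v} 3 q := by
  refine FinC.of_fin fun k₀ M _ _ _ _ hfg F hF hcoef i₀ => ?_
  have h := Pool.Agent.Helper74.LN.eng_none hfg 3 q q (fun _ : Fin 1 => 0) (fun _ => by omega) F 0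
    (isHomogeneous_zero _ _ _) (fun _ => 1) (fun _ => isHomogeneous_one _ _) (fun _ => F)
    (fun _ => hF) (by simp) 0 ?_ (Or.inl rfl) (by omega) ?_ (by omega) i₀
  · refine h.subset ?_
    rintro x ⟨h1, h2⟩
    exact ⟨h1, trdeg_pt x i₀ h1, ⟨0, by simp⟩, h2⟩
  · have e1 : ({z | ∃ (_ : Fin 1) (J : Fin (3 + 1) →₀ ℕ), z = coeff J F} : Set M) =
        {z | ∃ J, z = coeff J F} := by
      ext z
      constructor
      · rintro ⟨-, h⟩
        exact h
      · intro h
        exact ⟨0, h⟩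
    rw [e1, Fin.sum_univ_one, Nat.cast_zero, add_zero]
    exact hcoef
  · obtain ⟨m, rfl⟩ : ∃ m, q = m + 6 := ⟨q - 6, by omega⟩
    have h1 : m + 6 - 2 = m + 4 := by omega
    have h2 : m + 6 - 1 = m + 5 := by omega
    rw [h1, h2]
    nlinarith

/-- **The full range `2 q ≥ 3 N + 1`.** -/
theorem finC {N q : ℕ} (hN : 3 ≤ N) (hq : 3 * N + 1 ≤ 2 * q) : FinC.{u, v} N q := by
  rcases Nat.lt_or_ge 3 N with h | h
  · refine finC_of (keyL_all _ _ h hq) ?_
    nlinarith
  · obtain rfl : N = 3 := le_antisymm h hN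
    rcases Nat.lt_or_ge 5 q with h5 | h5
    · exact finC_three h5
    · obtain rfl : q = 5 := by omega
      exact finC_of (KeyL.of_Q Pool.Agent.Helper6.QS.keyQ35) (by norm_num)

end Pool.Agent.Helper74.BP
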