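import Pool.Agent.Helper74.Q8.Defs

/-!
# BP: generic hypersurfaces of degree `q = 3 b + 2` in `P^(2 b + 1)`, definitions

`b ≥ 2` blocks. This is the project Q8 (`b = 2`, folder `Helper74/Q8`) for an arbitrary number of
blocks. The variables are indexed by `σ`, the rows of the determinants by `Option (Option τ)`,
`τ = Fin b × Fin 2`: the rows `x`, `D_(X_(i₀)^q) x` and the rows of the blocks; `e` identifies the
two sets. Keep `q` a VARIABLE (never a numeral).

`dl D x P l` (from `Q8/Defs`) is the derivative of the point `x` in the direction `P l`, `l` a linear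
form; `rr x j b` are the coefficients of the linear form `x_j X_b - x_b X_j`.
-/

set_option autoImplicit false

namespace Pool.Agent.Helper74.BP

open scoped BigOperators
open MvPolynomial
open Pool.Agent.Helper8.LG (Bdd form mon)
open Pool.Agent.Helper49.LN (cP mo hf pl)
open Pool.Agent.Helper6.QS
open Pool.Agent.Helper74.Q8 (dl rr)

section rows

variable {Ω : Type*} {σ τ : Type*}

/-- the rows `u`, `w`, `v` -/
def rows (u w : σ → Ω) (v : τ → σ → Ω) : Option (Option τ) → σ → Ω
  | none => u
  | some none => w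
  | some (some p) => v p

theorem rows_none (u w : σ → Ω) (v : τ → σ → Ω) : rows u w v none = u := rfl

theorem rows_some_none (u w : σ → Ω) (v : τ → σ → Ω) : rows u w v (some none) = w := rfl

theorem rows_some_some (u w : σ → Ω) (v : τ → σ → Ω) (p : τ) :
    rows u w v (some (some p)) = v p := rfl

theorem rows_update [DecidableEq τ] [DecidableEq σ] (e : Option (Option τ) ≃ σ) (u w : σ → Ω)
    (v : τ → σ → Ω) (p : τ) (z : σ → Ω) :
    (fun r => rows u w (Function.update v p z) (e.symm r)) =
      Function.update (fun r => rows u w v (e.symm r)) (e (some (some p))) z := by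
  funext r
  by_cases h : r = e (some (some p))
  · subst h
    rw [Function.update_self, Equiv.symm_apply_apply, rows_some_some, Function.update_self]
  · rw [Function.update_of_ne h]
    have h' : e.symm r ≠ some (some p) := fun h1 => h (by rw [← h1, Equiv.apply_symm_apply])
    rcases h2 : e.symm r with _ | _ | p'
    · rfl
    · rfl
    · rw [rows_some_some, rows_some_some, Function.update_of_ne]
      intro h3
      rw [h2, h3] at h'
      exact h' rfl

end rows

section vol

variable {Ω : Type*} [Field Ω] {σ τ : Type*} [Fintype σ] [DecidableEq σ]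

/-- the determinant with rows `u`, `w`, `v`, as an alternating map of `v` -/
noncomputable def vol2 (e : Option (Option τ) ≃ σ) (u w : σ → Ω) :
    (σ → Ω) [⋀^τ]→ₗ[Ω] Ω where
  toFun v := Matrix.det (Matrix.of fun r => rows u w v (e.symm r))
  map_update_add' v p z z' := by
    show Matrix.detRowAlternating (R := Ω) (n := σ) _ = Matrix.detRowAlternating _ +
      Matrix.detRowAlternating _
    show Matrix.detRowAlternating (R := Ω) (n := σ) (fun r => rows u w _ (e.symm r)) =
      Matrix.detRowAlternating (fun r => rows u w _ (e.symm r)) +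
      Matrix.detRowAlternating (fun r => rows u w _ (e.symm r))
    rw [rows_update, rows_update, rows_update]
    exact (Matrix.detRowAlternating (R := Ω) (n := σ)).map_update_add _ _ _ _
  map_update_smul' v p c z := by
    show Matrix.detRowAlternating (R := Ω) (n := σ) (fun r => rows u w _ (e.symm r)) =
      c • Matrix.detRowAlternating (fun r => rows u w _ (e.symm r))
    rw [rows_update, rows_update]
    exact (Matrix.detRowAlternating (R := Ω) (n := σ)).map_update_smul _ _ _ _
  map_eq_zero_of_eq' v p p' h hne := by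
    show Matrix.detRowAlternating (R := Ω) (n := σ) (fun r => rows u w v (e.symm r)) = 0
    refine (Matrix.detRowAlternating (R := Ω) (n := σ)).map_eq_zero_of_eq _
      (i := e (some (some p))) (j := e (some (some p'))) ?_ ?_
    · show rows u w v (e.symm _) = rows u w v (e.symm _)
      rw [Equiv.symm_apply_apply, Equiv.symm_apply_apply]
      exact h
    · intro h1
      have h2 := e.injective h1
      exact hne (by simpa using h2)

theorem vol2_apply (e : Option (Option τ) ≃ σ) (u w : σ → Ω) (v : τ → σ → Ω) :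
    vol2 e u w v = Matrix.det (Matrix.of fun r => rows u w v (e.symm r)) := rfl

end vol

section blocks

variable {Ω : Type*} [Field Ω] {σ : Type*} [Fintype σ] [DecidableEq σ] {q b : ℕ}

/-- the determinant of the blocks: the rows `D_(P_p l_(p,j)) x`, `j = 0, 1` -/
noncomputable def TB (e : Option (Option (Fin b × Fin 2)) ≃ σ) (D : Sym σ q → Derivation ℤ Ω Ω)
    (x : σ → Ω) (i₀ : σ) (P : Fin b → MvPolynomial σ Ω) (l : Fin b × Fin 2 → σ → Ω) : Ω :=
  vol2 e x (dv D x (X i₀ ^ q)) fun p => dl D x (P p.1) (l p)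

/-- the block `p` given by `u`, `v`, the other blocks by `l` -/
noncomputable def TU (e : Option (Option (Fin b × Fin 2)) ≃ σ) (D : Sym σ q → Derivation ℤ Ω Ω)
    (x : σ → Ω) (i₀ : σ) (P : Fin b → MvPolynomial σ Ω) (l : Fin b × Fin 2 → σ → Ω) (p : Fin b)
    (u v : σ → Ω) : Ω :=
  TB e D x i₀ P (Function.update (Function.update l (p, 0) u) (p, 1) v)

/-- a line through `x` contained in the hypersurface -/
def LineIn {n : ℕ} (a : Sym σ n → Ω) (x : σ → Ω) : Prop :=
  ∃ y : σ → Ω, (∃ j l, pl x y j l ≠ 0) ∧ ∀ s t : Ω, form a (fun l => s * x l + t * y l) = 0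

/-- the point `x`, on no line contained in the hypersurface, and the normal vector `n` -/
structure PtB (e : Option (Option (Fin b × Fin 2)) ≃ σ) (D : Sym σ q → Derivation ℤ Ω Ω)
    (a : Sym σ q → Ω) (B : Subfield Ω) (i₀ : σ) (x n : σ → Ω) : Prop where
  hb : 2 ≤ b
  hq : q = 3 * b + 2
  frame : Frame D a B
  one : x i₀ = 1
  nol : ¬ LineIn a x
  zero : form a x = 0
  nx : dt n x = 0
  nf : ∀ f, dt n (dv D x f) = - ev q x f

/-- the span of the rational vectors orthogonal to `x` -/
def RatO (B : Subfield Ω) (x : σ → Ω) : Submodule Ω (σ → Ω) :=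
  Submodule.span Ω {m | (∀ j, m j ∈ B) ∧ dt m x = 0}

/-- **The plane case.** `k` are `2 b - 1` rational linear forms vanishing at `x` which do not move
`x`; `l` completes them to a basis of the linear forms vanishing at `x`. -/
structure PlB (e : Option (Option (Fin b × Fin 2)) ≃ σ) (D : Sym σ q → Derivation ℤ Ω Ω)
    (a : Sym σ q → Ω) (B : Subfield Ω) (i₀ : σ) (x n : σ → Ω) {m : ℕ} (k : Fin m → σ → Ω)
    (l : Fin 2 → σ → Ω) : Prop where
  pt : PtB e D a B i₀ x n
  hm : m + 1 = 2 * b
  kB : ∀ i j, k i j ∈ B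
  kx : ∀ i, dt (k i) x = 0
  kp : ∀ P i, Par x (dl D x P (k i))
  lx : ∀ i, dt (l i) x = 0
  ind : LinearIndependent Ω (Sum.elim k l)
  span : ∀ m, dt m x = 0 → ∃ (α : _ → Ω) (β : Fin 2 → Ω), m = ∑ i, α i • k i + ∑ i, β i • l i
  rat : ∀ P : Fin b → MvPolynomial σ Ω, (∀ p, RatP B (P p)) → TB e D x i₀ P (fun r => l r.2) ∈ B

/-- the 2 x 2 matrix of functionals `θ_j(D_(P l_i) x)` -/
noncomputable def uB (D : Sym σ q → Derivation ℤ Ω Ω) (x : σ → Ω) (l θ : Fin 2 → σ → Ω) :
    MvPolynomial σ Ω →ₗ[Ω] Matrix (Fin 2) (Fin 2) Ω :=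
  Pool.Agent.Helper74.Q8.um D x l (fun _ => θ) 0

theorem uB_apply (D : Sym σ q → Derivation ℤ Ω Ω) (x : σ → Ω) (l θ : Fin 2 → σ → Ω)
    (P : MvPolynomial σ Ω) (i j : Fin 2) : uB D x l θ P i j = dt (θ j) (dl D x P (l i)) := rfl

/-- the family of matrices: `1` and the matrices of the monomials -/
noncomputable def fB (D : Sym σ q → Derivation ℤ Ω Ω) (x : σ → Ω) (l : Fin 2 → σ → Ω)
    (θ : Fin b → Fin 2 → σ → Ω) : Option (Fin b × (σ →₀ ℕ)) → Matrix (Fin 2) (Fin 2) Ω
  | none => 1
  | some p => uB D x l (θ p.1) (monomial p.2 1)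

/-- **The matrices.** `θ_(s,j)` are the coordinates of `n^⊥ / x` in the basis `D_(P_s l_j) x`. -/
structure MtB (e : Option (Option (Fin b × Fin 2)) ≃ σ) (D : Sym σ q → Derivation ℤ Ω Ω)
    (a : Sym σ q → Ω) (B : Subfield Ω) (i₀ : σ) (x n : σ → Ω) {m : ℕ} (k : Fin m → σ → Ω)
    (l : Fin 2 → σ → Ω) (θ : Fin b → Fin 2 → σ → Ω) (P : Fin b → MvPolynomial σ Ω) : Prop where
  pl : PlB e D a B i₀ x n k l
  rP : ∀ s, RatP B (P s)
  tx : ∀ s j, dt (θ s j) x = 0
  tp : ∀ v, dt n v = 0 → (∀ s j, dt (θ s j) v = 0) → Par x v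
  one : ∀ s s', uB D x l (θ s) (P s') = if s = s' then 1 else 0
  det : ∀ s s', s ≠ s' → ∀ Q Q', RatP B Q → RatP B Q' →
    (Matrix.fromBlocks (uB D x l (θ s) Q) (uB D x l (θ s') Q) (uB D x l (θ s) Q')
      (uB D x l (θ s') Q')).det ∈ B

end blocks

/-- the number of variables -/
theorem card_e {σ : Type*} [Fintype σ] {b : ℕ} (e : Option (Option (Fin b × Fin 2)) ≃ σ) :
    Fintype.card σ = 2 * b + 2 := by
  have h := Fintype.card_congr e
  simp only [Fintype.card_option, Fintype.card_prod, Fintype.card_fin] at h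
  omega

end Pool.Agent.Helper74.BP
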