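import Pool.Agent.Helper74.BP.Lines
import Pool.Agent.Helper6.QS.KeyAll

/-!
# BP-DICH: the dichotomy for generic hypersurfaces of degree `q`, `2 q ≥ 3 N + 1`, in `P^N`, `N ≥ 4`

Copy of `key_dich` with general numbers: either the point is rational or there are `b` independent
blocks, `card σ = 2 b + 2`, `q = 3 b + 2`.
-/

set_option autoImplicit false

namespace Pool.Agent.Helper74.BP

open scoped BigOperators
open MvPolynomial
open Pool.Agent.Helper8.LG (Bdd form mon col)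
open Pool.Agent.Helper49.LN hiding dt
open Pool.Agent.Helper6.QS
open Pool.Agent.Helper74.LN (Moves KeyL)
open Pool.Agent.Helper74.Q8 (dl)

/-- the numbers, all blocks -/
theorem bd_blocks (K q kw i : ℕ) (hnum : 3 * K ≤ 2 * q + 2) (hit : 2 * i + 0 + 2 = kw)
    (hK : kw ≤ K) (hA : ¬ kw + i + 0 + 1 ≤ q) : kw = K ∧ K = 2 * i + 2 ∧ q = 3 * i + 2 := by
  omega

/-- the numbers, one single column -/
theorem bd_ar4 (K q i p fr : ℕ) (hnum : 3 * K ≤ 2 * q + 2) (hit : 2 * i + 1 + 2 = fr)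
    (hp : p + fr = K) : K + i + 1 ≤ q + p := by
  omega

theorem bd_ar5 (t : ℕ) (h0 : ¬ t = 0) (h1 : ¬ t = 1) : 2 ≤ t := by
  omega

/-- the numbers, moving line -/
theorem bd_k2 (K q : ℕ) (h5 : 5 ≤ K) (hnum : 3 * K ≤ 2 * q + 2) :
    6 * K + 2 * 0 ≤ (q - 2) * (q - 2 + 1) + 6 := by
  obtain ⟨s, rfl⟩ : ∃ s, q = s + 7 := ⟨q - 7, by omega⟩
  have h1 : s + 7 - 2 = s + 5 := by omega
  rw [h1]
  have h2 : (s + 5) * (s + 5 + 1) = s * s + 11 * s + 30 := by ring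
  rw [h2]
  have h3 : 0 ≤ s * s := Nat.zero_le _
  omega

/-- the numbers, the product of the two determinants -/
theorem bd_num (K kw q i t b r : ℕ) (h5 : 5 ≤ K) (hnum : 3 * K ≤ 2 * q + 2) (hK : kw ≤ K)
    (hit : 2 * i + t + 2 = kw) (hA : ¬ kw + i + t + 1 ≤ q) (ht : 2 ≤ t) (hr : r + 3 ≤ q)
    (hb : b + r + 4 ≤ kw + K) :
    ∃ B C m s : ℕ, C + m = C * (K + b) ∧
      m + s = B * (t * (t + 1) / 2) + C * (r * (r + 1) / 2) ∧
      B * (kw + i + t) + C * (2 + r) + 1 ≤ q * (B + C) := by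
  obtain ⟨u, hu⟩ : ∃ u : ℕ, t * (t + 1) = 2 * u := (Nat.even_mul_succ_self t).two_dvd
  obtain ⟨v, hv⟩ : ∃ v : ℕ, r * (r + 1) = 2 * v := (Nat.even_mul_succ_self r).two_dvd
  have hu' : t * (t + 1) / 2 = u := by omega
  have hv' : r * (r + 1) / 2 = v := by omega
  rw [hu', hv']
  by_cases hB : K + b ≤ 1 + v
  · exact ⟨0, 1, K + b - 1, v - (K + b - 1), by omega, by omega, by omega⟩
  obtain ⟨B, hBe⟩ : ∃ B : ℕ, K + b = 1 + v + B := ⟨K + b - 1 - v, by omega⟩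
  refine ⟨B, u, B * u + u * v, 0, ?_, by ring, ?_⟩
  · rw [hBe]
    ring
  obtain ⟨a, ha⟩ : ∃ a : ℕ, kw + i + t = q + a := ⟨kw + i + t - q, by omega⟩
  obtain ⟨e, he⟩ : ∃ e : ℕ, q = r + 2 + e := ⟨q - r - 2, by omega⟩
  have hta : 2 * a ≤ t := by omega
  have hu1 : 1 ≤ u := by
    have : 2 * 1 ≤ t * (t + 1) := Nat.mul_le_mul ht (by omega)
    omega
  have hrv : B ≤ 2 * e ∨ (B ≤ 2 * e + 1 ∧ 4 ≤ e) := by
    rcases le_or_gt 2 r with h | h
    · left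
      have h1 : r * 3 ≤ r * (r + 1) := Nat.mul_le_mul_left r (by omega)
      omega
    · right
      have h1 : r ≤ v := by
        rcases Nat.eq_zero_or_pos r with h | h
        · omega
        · have : r * 2 ≤ r * (r + 1) := Nat.mul_le_mul_left r (by omega)
          omega
      exact ⟨by omega, by omega⟩
  have key : B * a + 1 ≤ u * e := by
    rcases Nat.eq_zero_or_pos a with h0 | h0
    · subst h0
      rw [mul_zero, zero_add]
      exact Nat.mul_pos (by omega) (by omega)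
    · have h3 : 3 * a ≤ u := by
        have h4 : (2 * a) * (2 * a + 1) ≤ t * (t + 1) := Nat.mul_le_mul hta (by omega)
        have h6 : (2 * a) * 3 ≤ (2 * a) * (2 * a + 1) := Nat.mul_le_mul_left _ (by omega)
        omega
      have h7 : B + 1 ≤ 3 * e := by omega
      calc B * a + 1 ≤ B * a + a := by omega
        _ = (B + 1) * a := by ring
        _ ≤ (3 * e) * a := Nat.mul_le_mul_right a h7
        _ = (3 * a) * e := by ring
        _ ≤ u * e := Nat.mul_le_mul_right e h3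
  rw [ha]
  have e1 : q * (B + u) = B * q + (u * (2 + r) + u * e) := by
    conv_lhs => rw [mul_add, mul_comm q B, mul_comm q u]
    conv_lhs => congr; rfl; rw [he]
    ring
  rw [e1, mul_add]
  omega

section

variable {Ω : Type*} [Field Ω] {σ : Type*} [Fintype σ] [DecidableEq σ] {n : ℕ}

/-- one single column and exponent 0: a rational line -/
theorem bd_t1 [CharZero Ω] {D : Sym σ (n + 1) → Derivation ℤ Ω Ω} {a : Sym σ (n + 1) → Ω}
    {B : Subfield Ω} (hB : Frame D a B) (x : σ → Ω) (i₀ : σ)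
    (hx : x i₀ = 1) (hF : form a x = 0) (hnl : ¬ LineIn a x) {i p u : ℕ}
    (β : Fin i → (Sym σ n × Sym σ n) × (σ × σ)) (f : Fin 1 → Sym σ n × σ) (e : Fin p → σ)
    (f' : Fin u → σ ⊕ K0)
    (rr : TT (Fin 1) (Fin i) (Fin 1) (Fin 0) (Fin 1 ⊕ Fin p) (Fin u) ≃ σ ⊕ K0)
    (hdt : Pool.Agent.Helper49.LN.dt rr (vv (fun _ => pe x (ε0 Ω))
      (fun p => bl (pv D x (g0 n σ Ω)) x i₀ (β p.1) p.2)
      (fun s => sg (pv D x (g0 n σ Ω)) x i₀ (f s)) Fin.elim0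
      (Sum.elim (fun _ => la (E := Ω) (pv D x (g0 n σ Ω)) i₀) fun s => uv (Sum.inl (e s)))
      fun s => uv (f' s)) ≠ 0)
    (hspan : ∀ g ∈ Ipt x, cP (pv D x (g0 n σ Ω)) g ∈ Submodule.span Ω (Set.range (Sum.elim
        (Sum.elim (fun _ : Fin 1 => pe x (ε0 Ω))
          (fun p : Fin i × Fin 2 => bl (pv D x (g0 n σ Ω)) x i₀ (β p.1) p.2))
        (fun s => sg (pv D x (g0 n σ Ω)) x i₀ (f s)))))
    (hnum : Fintype.card σ + i + 1 ≤ n + 1 + p) : ∀ l, x l ∈ B := by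
  classical
  obtain ⟨V, hV⟩ : ∃ V, V = pv D x (g0 n σ Ω) := ⟨_, rfl⟩
  obtain ⟨T, hT⟩ : ∃ T : (σ ⊕ K0 → Ω) → Ω, T = fun w => Pool.Agent.Helper49.LN.dt rr
      (vv (fun _ => pe x (ε0 Ω)) (fun p => bl (pv D x (g0 n σ Ω)) x i₀ (β p.1) p.2)
      (fun _ => w) Fin.elim0
      (Sum.elim (fun _ => la (E := Ω) (pv D x (g0 n σ Ω)) i₀) fun s => uv (Sum.inl (e s)))
      fun s => uv (f' s)) := ⟨_, rfl⟩
  have hTl : ∀ (c c' : Ω) w w', T (c • w - c' • w') = c * T w - c' * T w' := by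
    intro c c' w w'
    rw [hT]
    exact kd_lin rr _ _ _ _ _ c c' w w'
  obtain ⟨I₀, hI⟩ : ∃ I₀, I₀ = (f 0).1 := ⟨_, rfl⟩
  obtain ⟨l₀, hl₀⟩ : ∃ l₀, l₀ = (f 0).2 := ⟨_, rfl⟩
  have hf0 : f = fun _ => (I₀, l₀) := by
    funext s
    rw [Subsingleton.elim s 0, hI, hl₀]
  have hpl : ∀ j l, pl x (fun l => T (sg V x i₀ (I₀, l))) j l = T (sg V x j (I₀, l)) := by
    intro j l
    unfold pl
    rw [← hTl]
    congr 1
    simp only [sg]
    rw [hf_comb x i₀ hx j l, mul_sub, map_sub, mul_smul_comm, mul_smul_comm, map_smul, map_smul]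
  have hne : T (sg V x i₀ (I₀, l₀)) ≠ 0 := by
    rw [hT, hV]
    rw [hf0] at hdt
    exact hdt
  refine line_or_G hB x i₀ hx hF hnl (fun l => T (sg V x i₀ (I₀, l))) ⟨i₀, l₀, ?_⟩ 1
    one_ne_zero (Fintype.card (σ ⊕ K0)) ?_
  · rw [hpl]
    exact hne
  intro O Δ hΔ m hm hxm j l
  rw [one_mul, hpl]
  by_cases h0 : T (sg V x j (I₀, l)) = 0
  · rw [h0, mul_zero]
    exact zero_mem O
  -- the span
  have hli : LinearIndependent Ω (Sum.elim (Sum.elim (fun _ : Fin 1 => pe x (ε0 Ω))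
          (fun p : Fin i × Fin 2 => bl V x i₀ (β p.1) p.2))
        (fun _ : Fin 1 => sg V x j (I₀, l))) := by
    have h1 : T (sg V x j (I₀, l)) ≠ 0 := h0
    rw [hT, hV] at h1
    have h2 := Matrix.linearIndependent_cols_of_det_ne_zero h1
    have h3 : LinearIndependent Ω (vv (T3 := Fin 1 ⊕ Fin p) (fun _ : Fin 1 => pe x (ε0 Ω))
        (fun p => bl (pv D x (g0 n σ Ω)) x i₀ (β p.1) p.2)
        (fun _ : Fin 1 => sg (pv D x (g0 n σ Ω)) x j (I₀, l)) Fin.elim0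
        (Sum.elim (fun _ => la (E := Ω) (pv D x (g0 n σ Ω)) i₀) fun s => uv (Sum.inl (e s)))
        fun s => uv (f' s)) := by
      refine LinearIndependent.of_comp (LinearMap.funLeft Ω Ω rr) ?_
      exact h2
    have h4 := h3.comp (fun s : (Fin 1 ⊕ (Fin i × Fin 2)) ⊕ Fin 1 =>
      (Sum.inl (Sum.inl (Sum.inl s)) : TT (Fin 1) (Fin i) (Fin 1) (Fin 0) (Fin 1 ⊕ Fin p)
        (Fin u))) (fun s s' h => Sum.inl.inj (Sum.inl.inj (Sum.inl.inj h)))
    rw [hV]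
    exact h4
  have hle : Submodule.span Ω (Set.range (Sum.elim (Sum.elim (fun _ : Fin 1 => pe x (ε0 Ω))
          (fun p : Fin i × Fin 2 => bl V x i₀ (β p.1) p.2))
        (fun _ : Fin 1 => sg V x j (I₀, l)))) ≤
      Submodule.span Ω (Set.range (Sum.elim (Sum.elim (fun _ : Fin 1 => pe x (ε0 Ω))
          (fun p : Fin i × Fin 2 => bl V x i₀ (β p.1) p.2))
        (fun _ : Fin 1 => sg V x i₀ (I₀, l₀)))) := by
    rw [Submodule.span_le]
    rintro _ ⟨s | s, rfl⟩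
    · exact Submodule.subset_span ⟨Sum.inl s, rfl⟩
    · have h5 := hspan (mo Ω (I₀ : Multiset σ) * hf x j l)
        (Ideal.mul_mem_left _ _ (Ideal.subset_span ⟨(j, l), rfl⟩))
      rw [hf0, ← hV] at h5
      exact h5
  have heq := Submodule.eq_of_le_of_finrank_le hle (by
    rw [finrank_span_eq_card hli]
    refine (finrank_range_le_card _).trans ?_
    exact le_rfl)
  have hJ : ∀ g ∈ Ipt x, cP (pv D x (g0 n σ Ω)) g ∈ Submodule.span Ω
        ((Set.range fun _ : Fin 1 => pe x (ε0 Ω)) ∪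
        (Set.range fun p : Fin i × Fin 2 => bl (pv D x (g0 n σ Ω)) x i₀ (β p.1) p.2) ∪
        Set.range fun _ : Fin 1 => sg (pv D x (g0 n σ Ω)) x j (I₀, l)) := by
    intro g hg
    have h5 := hspan g hg
    rw [hf0, ← hV, ← heq, hV] at h5
    rwa [Set.Sum.elim_range, Set.Sum.elim_range] at h5
  obtain ⟨N, hN, eq⟩ := g1_sj (locG0 (n := n) hΔ x m) hm hxm hx β (fun _ => j)
    (fun _ : Fin 1 => (I₀, l)) e f' rr hJ
  have hxi : (x m)⁻¹ ∈ O := by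
    have h1 := hxm i₀
    rw [hx, one_div] at h1
    exact h1
  obtain ⟨r, hr⟩ : ∃ r, n + 1 + p = r + (Fintype.card σ + i + 1) :=
    ⟨n + 1 + p - (Fintype.card σ + i + 1), by omega⟩
  have h6 : Δ ^ Fintype.card (σ ⊕ K0) * T (sg V x j (I₀, l)) = (x m)⁻¹ ^ r * N := by
    have h7 : x m ^ (n + 1 + p) ≠ 0 := pow_ne_zero _ hm
    refine mul_right_cancel₀ h7 ?_
    have h8 : Δ ^ Fintype.card (σ ⊕ K0) * T (sg V x j (I₀, l)) * x m ^ (n + 1 + p) =
        x m ^ (Fintype.card σ + i + 1) * N := by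
      rw [hT, hV]
      exact eq
    rw [h8, hr, pow_add (x m) r]
    have h9 : (x m)⁻¹ ^ r * x m ^ r = 1 := by
      rw [← mul_pow, inv_mul_cancel₀ hm, one_pow]
    calc x m ^ (Fintype.card σ + i + 1) * N = 1 * (x m ^ (Fintype.card σ + i + 1) * N) := by ring
      _ = ((x m)⁻¹ ^ r * x m ^ r) * (x m ^ (Fintype.card σ + i + 1) * N) := by rw [h9]
      _ = _ := by ring
  rw [h6]
  exact mul_mem (pow_mem hxi _) hN

/-- **The dichotomy.** -/
theorem bp_dich [CharZero Ω] {D : Sym σ (n + 1) → Derivation ℤ Ω Ω} {a : Sym σ (n + 1) → Ω}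
    {B : Subfield Ω} (hB : Frame D a B) (x : σ → Ω) (i₀ : σ)
    (hx : x i₀ = 1) (hF : form a x = 0)
    (hnl : ¬ LineIn a x) (h5 : 5 ≤ Fintype.card σ) (hnum : 3 * Fintype.card σ ≤ 2 * (n + 1) + 2) :
    (∀ l, x l ∈ B) ∨ ∃ b : ℕ, Fintype.card σ = 2 * b + 2 ∧ n + 1 = 3 * b + 2 ∧
      ∃ (P : Fin b → MvPolynomial σ Ω) (l : Fin b × Fin 2 → σ → Ω), (∀ p, RatP B (P p)) ∧
        (∀ r, dt (l r) x = 0) ∧
        LinearIndependent Ω (Sum.elim (fun _ : Fin 1 => x) fun r => dl D x (P r.1) (l r)) := by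
  classical
  have hK0 : Fintype.card K0 = 0 := rfl
  obtain ⟨nn, hn1, hn2⟩ := dv_normal D a hB.dual (Nat.succ_pos n) x hF
  obtain ⟨lam, hlam⟩ : ∃ lam : (σ ⊕ K0 → Ω) →ₗ[Ω] Ω,
      lam = ∑ l, nn l • (LinearMap.proj (Sum.inl l) : (σ ⊕ K0 → Ω) →ₗ[Ω] Ω) := ⟨_, rfl⟩
  have hlam' : ∀ v, lam v = ∑ l, nn l * v (Sum.inl l) := by
    intro v
    rw [hlam, LinearMap.sum_apply]
    rfl
  have hl0 : lam (pe x (ε0 Ω)) = 0 := by
    rw [hlam']
    exact hn1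
  have hlc : ∀ f, lam (cP (pv D x (g0 n σ Ω)) f) = - ev (n + 1) x f := by
    intro f
    rw [hlam', ← hn2 f]
    unfold dt
    exact Finset.sum_congr rfl fun l _ => by rw [cP_dv]
  have hl1 : ∀ f ∈ Ipt x, lam (cP (pv D x (g0 n σ Ω)) f) = 0 := by
    intro f hf
    rw [hlc, ev_ipt x f hf, neg_zero]
  have hu : lam (la (E := Ω) (pv D x (g0 n σ Ω)) i₀) ≠ 0 := by
    unfold la
    rw [hlc, neg_ne_zero]
    have h1 : ev (n + 1) x (X i₀ ^ (n + 1)) = eval x (X i₀ ^ (n + 1)) :=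
      ev_hom _ _ _ (by
        have h2 := (isHomogeneous_X Ω i₀).pow (n + 1)
        rwa [one_mul] at h2)
    rw [h1, map_pow, eval_X, hx, one_pow]
    exact one_ne_zero
  have he0 : pe x (ε0 Ω) ≠ 0 := by
    intro h
    have h1 : pe x (ε0 Ω) (Sum.inl i₀) = 0 := by rw [h]; rfl
    have h2 : pe x (ε0 Ω) (Sum.inl i₀) = x i₀ := rfl
    rw [h2, hx] at h1
    exact one_ne_zero h1
  obtain ⟨S, hSd⟩ : ∃ S, S = Submodule.span Ω (Set.range (col D x)) := ⟨_, rfl⟩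
  have hS0 : (fun l => pe x (ε0 Ω) (Sum.inl l)) ∈ S := by
    rw [hSd]
    exact Submodule.subset_span ⟨none, rfl⟩
  have hSV : ∀ J, (fun l => pv D x (g0 n σ Ω) J (Sum.inl l)) ∈ S := by
    intro J
    rw [hSd]
    exact Submodule.subset_span ⟨some J, rfl⟩
  obtain ⟨i, t, β, f, hlin, hspan, hline⟩ := ex_point (pv D x (g0 n σ Ω)) (pe x (ε0 Ω)) he0 x i₀ hx
  have hlin' := indep_right _ hlin (Fin.elim0 : Fin 0 → σ ⊕ K0 → Ω)
  obtain ⟨p, u, e, f', rr, hp, hdt⟩ := point_complete (pv D x (g0 n σ Ω)) (pe x (ε0 Ω)) x i₀ lam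
    hl0 hl1 hu S hS0 hSV β _ (fun s => ⟨_, sg_mem x i₀ (f s), rfl⟩) _ (fun s => s.elim0) hlin'
  have hcard := Fintype.card_congr rr
  simp only [Fintype.card_sum, Fintype.card_prod, Fintype.card_fin] at hcard
  have hrank := kd_rank D x i₀ hx _ hspan (Submodule.subset_span ⟨Sum.inl (Sum.inl 0), rfl⟩)
  simp only [Fintype.card_sum, Fintype.card_prod, Fintype.card_fin] at hrank
  rw [← hSd] at hrank
  have hit : 2 * i + t + 2 = Module.finrank Ω S := by omega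
  have hSK : Module.finrank Ω S ≤ Fintype.card σ := by omega
  obtain ⟨kw, hkw⟩ : ∃ kw, kw = Module.finrank Ω S := ⟨_, rfl⟩
  have hxi : ∀ (O : ValuationSubring Ω) (m : σ), (∀ l, xt x m l ∈ O) → (x m)⁻¹ ∈ O := by
    intro O m hxm
    have h1 := hxm i₀
    unfold xt at h1
    rwa [hx, one_div] at h1
  by_cases hA : kw + i + t + 1 ≤ n + 1
  · left
    refine kd_mem hB x i₀ hx _ hdt (Fintype.card (σ ⊕ K0)) ?_
    intro O Δ m hΔ hm hxm
    have hl := hxi O m hxm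
    obtain ⟨N, hN, eq⟩ := g1_det (locG0 (n := n) hΔ x m) hm hxm hx β f e f' rr (by
      intro q hq
      have h1 := hspan q hq
      rw [Set.Sum.elim_range, Set.Sum.elim_range] at h1
      exact h1)
    rw [add_assoc (Fintype.card σ) i t] at eq
    have h2 := ka_w _ _ _ hm (n + 1) p (Fintype.card σ) (Module.finrank Ω S) kw (i + t) eq hp
      hkw.ge
    rw [← add_assoc] at h2
    have h3 := ka_easy O _ (x m) Δ kw i t (n + 1) _ hA hm hl
      ⟨_, mul_mem (pow_mem hl _) hN, h2⟩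
    rw [← mul_assoc]
    exact h3
  by_cases ht0 : t = 0
  · -- all blocks
    right
    subst ht0
    obtain ⟨e1, e2, e3⟩ := bd_blocks _ _ kw i hnum (by rw [hit, hkw]) (by rw [hkw]; exact hSK) hA
    refine ⟨i, e2, e3, fun p => mo Ω ((β p).1.1 : Multiset σ) + mo Ω ((β p).1.2 : Multiset σ),
      fun r => Pi.single (if r.2 = 0 then (β r.1).2.1 else (β r.1).2.2) (x i₀) -
        Pi.single i₀ (x (if r.2 = 0 then (β r.1).2.1 else (β r.1).2.2)), fun p m => ?_,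
      fun r => dt_hf x i₀ _, ?_⟩
    · rw [coeff_add]
      exact add_mem (ratP_mo B _ m) (ratP_mo B _ m)
    have h1 := hlin.comp (fun s : Fin 1 ⊕ (Fin i × Fin 2) =>
      (Sum.inl s : (Fin 1 ⊕ (Fin i × Fin 2)) ⊕ Fin 0)) Sum.inl_injective
    have h2 : LinearMap.ker (LinearMap.funLeft Ω Ω (Sum.inl : σ → σ ⊕ K0)) = ⊥ := by
      rw [LinearMap.ker_eq_bot']
      intro v hv
      funext r
      rcases r with r | (r | r)
      · exact congrFun hv r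
      · exact r.elim0
      · exact r.elim0
    have h3 := h1.map' _ h2
    have h4 : (LinearMap.funLeft Ω Ω (Sum.inl : σ → σ ⊕ K0)) ∘
        (Sum.elim (Sum.elim (fun _ : Fin 1 => pe x (ε0 Ω))
          (fun p : Fin i × Fin 2 => bl (pv D x (g0 n σ Ω)) x i₀ (β p.1) p.2))
          (fun s => sg (pv D x (g0 n σ Ω)) x i₀ (f s)) ∘
        fun s : Fin 1 ⊕ (Fin i × Fin 2) => (Sum.inl s : (Fin 1 ⊕ (Fin i × Fin 2)) ⊕ Fin 0)) =
        Sum.elim (fun _ : Fin 1 => x) fun r : Fin i × Fin 2 =>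
          dl D x (mo Ω ((β r.1).1.1 : Multiset σ) + mo Ω ((β r.1).1.2 : Multiset σ))
            (Pi.single (if r.2 = 0 then (β r.1).2.1 else (β r.1).2.2) (x i₀) -
        Pi.single i₀ (x (if r.2 = 0 then (β r.1).2.1 else (β r.1).2.2))) := by
      funext s l
      rcases s with s | s
      · rfl
      · refine (cP_dv D x _ l).trans ?_
        show dv D x _ l = dl D x _ _ l
        unfold dl
        rw [← hf_lf]
    rw [← h4]
    exact h3
  left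
  by_cases ht1 : t = 1
  · subst ht1
    exact bd_t1 hB x i₀ hx hF hnl β f e f' rr hdt hspan (bd_ar4 _ _ i p _ hnum hit hp)
  have ht : 2 ≤ t := bd_ar5 t ht0 ht1
  obtain ⟨y, b₀, ha, hI⟩ := hline ht
  -- the fan
  obtain ⟨K, hK, -, hlinK, hspanK⟩ := ex_fan (pv D x (g0 n σ Ω)) _ f x y i₀ b₀ hx ha hlin hspan hI
  have hlinK' := indep_mid _ _ hlinK (Fin.elim0 : Fin 0 → σ ⊕ K0 → Ω)
  obtain ⟨p₁, u₁, e₁, f₁, rr₁, hp₁, hdt₁⟩ := point_complete (pv D x (g0 n σ Ω)) (pe x (ε0 Ω)) x i₀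
    lam hl0 hl1 hu S hS0 hSV β _ (fun s => s.elim0) _ (fun s => ⟨_, fn_mem x i₀ b₀ (K s), rfl⟩)
    hlinK'
  -- the flag
  have hcomp : ∀ q : MvPolynomial σ Ω, fp (cP (fv D x y (g0 n σ Ω)) q) =
      cP (pv D x (g0 n σ Ω)) q := by
    intro q
    have h1 : (fun J => fp (fv D x y (g0 n σ Ω) J)) = pv D x (g0 n σ Ω) :=
      funext fun J => fp_fv D x y (g0 n σ Ω) J
    rw [ka_comp, h1]
  obtain ⟨b, r, t', f₂, K₂, f₂', rr₂, hK₂, -, hdt₂, hI₂, hJ₂, hd1, hd2, hd3, hc2⟩ :=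
    ex_flag (fv D x y (g0 n σ Ω)) x y (ε0 Ω) i₀ b₀ hx ha (lam.comp fp) (by
      intro s
      fin_cases s
      · show lam (fp (tr 0 x 0)) = 0
        rw [fp_tr]
        have : (Sum.elim (0 : σ → Ω) (0 : K0 → Ω)) = 0 := by
          funext r
          rcases r with l | k <;> rfl
        rw [this, map_zero]
      · show lam (fp (tr x 0 (ε0 Ω))) = 0
        rw [fp_tr]
        exact hl0
      · show lam (fp (tr 0 y 0)) = 0
        rw [fp_tr]
        have : (Sum.elim (0 : σ → Ω) (0 : K0 → Ω)) = 0 := by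
          funext r
          rcases r with l | k <;> rfl
        rw [this, map_zero]) (by
      intro q hq
      show lam (fp (cP (fv D x y (g0 n σ Ω)) q)) = 0
      rw [hcomp]
      exact hl1 q hq) (by
      show lam (fp (cP (fv D x y (g0 n σ Ω)) _)) ≠ 0
      rw [hcomp]
      exact hu)
  have hrk := rk4 D x y (g0 n σ Ω) (ε0 Ω)
  rw [← hSd, hK0] at hrk
  have hbr : b + r + 4 ≤ kw + Fintype.card σ := by omega
  -- the line moves
  by_cases hT : n + 1 ≤ r + 2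
  · have hmv : Moves (n + 1 - 2) D (fun (j : Fin 0) _ => j.elim0) ![x, y] := by
      refine moves_of_flag (z := Fin 0) (n + 1 - 2) D (fun (j : Fin 0) _ => j.elim0) x y
        (g0 n σ Ω) (fun _ j => j.elim0) (ε0 Ω) (fun j => j.elim0) ?_
      rw [hd1, Fintype.card_fin]
      exact (kd_ar1 b (n + 1 - 2) r (Nat.sub_le_iff_le_add.2 hT)).trans hd3
    obtain ⟨G, hG, hKL⟩ := Pool.Agent.Helper74.LN.k2 D (fun (j : Fin 0) _ => j.elim0) ![x, y]
      ⟨i₀, b₀, ha⟩ (n + 1 - 2) hmv (by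
        rw [Fintype.card_fin]
        exact bd_k2 _ _ h5 hnum)
    exact line_or_G hB x i₀ hx hF hnl y ⟨i₀, b₀, ha⟩ G hG _ fun O Δ hΔ m _ _ j l =>
      hKL O Δ hΔ (fun j => j.elim0) j l
  -- the numbers
  obtain ⟨B', C, m', s, e1, e2, e3⟩ := bd_num (Fintype.card σ) kw (n + 1) i t b r h5 hnum
    (by rw [hkw]; exact hSK) (by rw [hit, hkw]) hA ht (by omega) hbr
  obtain ⟨G₂, hG₂⟩ : ∃ G₂, G₂ = Pool.Agent.Helper49.LN.dt rr₂ (vv (b3 x y (ε0 Ω)) (vb0 _)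
      (fun s => lv (fv D x y (g0 n σ Ω)) (pl x y) (f₂ s))
      (fun s => fn (fv D x y (g0 n σ Ω)) x i₀ b₀ (K₂ s))
      (fun _ => la (E := Ω) (fv D x y (g0 n σ Ω)) i₀) fun s => kv x y (f₂' s)) := ⟨_, rfl⟩
  obtain ⟨G₁, hG₁⟩ : ∃ G₁, G₁ = Pool.Agent.Helper49.LN.dt rr₁ (vv (fun _ => pe x (ε0 Ω))
      (fun p => bl (pv D x (g0 n σ Ω)) x i₀ (β p.1) p.2) Fin.elim0
      (fun s => fn (pv D x (g0 n σ Ω)) x i₀ b₀ (K s))
      (Sum.elim (fun _ => la (E := Ω) (pv D x (g0 n σ Ω)) i₀) fun s => uv (Sum.inl (e₁ s)))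
      fun s => uv (f₁ s)) := ⟨_, rfl⟩
  have hdt₁' : G₁ ≠ 0 := by
    rw [hG₁]
    exact hdt₁
  rw [← hG₂] at hdt₂
  refine kd_mem hB x i₀ hx (G₁ ^ B' * G₂ ^ C / pl x y i₀ b₀ ^ m')
    (div_ne_zero (mul_ne_zero (pow_ne_zero _ hdt₁') (pow_ne_zero _ hdt₂)) (pow_ne_zero _ ha))
    (B' * Fintype.card (σ ⊕ K0) + C * Fintype.card ((σ ⊕ σ) ⊕ K0)) ?_
  intro O Δ m hΔ hm hxm
  have hl := hxi O m hxm
  obtain ⟨j, hL⟩ := exists_j O x y i₀ b₀ ha m hm hxm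
  have hδ : pl x y i₀ b₀ / pl x y m j = pl (xt x m) (yt x y m j) i₀ b₀ := by
    rw [hL.pl_eq i₀ b₀, mul_div_cancel_left₀ _ hL.hρ]
  obtain ⟨N₁, hN₁, eq₁⟩ := g1_fan (locG0 (n := n) hΔ x m) hL hx ha β K hK e₁ f₁ rr₁ (by
    intro q hq
    have h1 := hI q hq
    rw [Set.Sum.elim_range] at h1
    exact h1) (by
    intro q hq
    have h1 := hspanK q hq
    rw [Set.Sum.elim_range, Set.Sum.elim_range] at h1
    exact h1)
  obtain ⟨N₂, hN₂, eq₂⟩ := g2_det (locG0 (n := n) hΔ x m) hL i₀ b₀ hx ha f₂ K₂ hK₂ f₂' rr₂ hI₂ hJ₂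
  rw [← hG₁, add_assoc (Fintype.card σ) i t, mul_assoc (x m ^ _)] at eq₁
  rw [← hG₂] at eq₂
  have h2 := ka_w _ _ _ hm (n + 1) p₁ (Fintype.card σ) (Module.finrank Ω S) kw (i + t)
    eq₁ hp₁ hkw.ge
  rw [← add_assoc] at h2
  have h6 : Δ ^ Fintype.card (σ ⊕ K0) * G₁ * x m ^ (n + 1) = x m ^ (kw + i + t) *
      (pl x y i₀ b₀ / pl x y m j) ^ (t * (t + 1) / 2) *
        ((x m)⁻¹ ^ (kw - Module.finrank Ω S) * N₁) := by
    rw [h2, hδ]
    ring
  have h7 : Δ ^ Fintype.card ((σ ⊕ σ) ⊕ K0) * G₂ * x m ^ (n + 1) * pl x y m j =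
      x m ^ (2 + r) * pl x y m j ^ (Fintype.card σ + b) *
        (pl x y i₀ b₀ / pl x y m j) ^ (r * (r + 1) / 2) * N₂ := by
    rw [hδ, ← eq₂]
    ring
  have h8 := kd_pt (Fintype.card σ) kw (n + 1) i t b r B' C m' s e1 e2 e3 O G₁ G₂ (x m)
    (pl x y m j) Δ (pl x y i₀ b₀) (Fintype.card (σ ⊕ K0)) (Fintype.card ((σ ⊕ σ) ⊕ K0)) hm hL.hρ
    ha (by rw [hδ]; exact hL.pl_mem i₀ b₀) hl
    ⟨_, mul_mem (pow_mem hl _) hN₁, h6⟩ ⟨_, hN₂, h7⟩
  rw [← mul_assoc]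
  exact h8

end

end Pool.Agent.Helper74.BP
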