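import Pool.Agent.Helper74.BP.Defs
import Pool.Agent.Helper74.LN.Lam
import Pool.Agent.Helper74.PQ.TanLine

/-!
# BP-LINEMV: a line contained in the hypersurface moves in `q + 1` dimensions

Let `z = ![x, y]`, `F = form a`, `F(s x + t y) = 0` for all `s, t`, and `c = 0, .., q`. The linear
map `φ : ((Fin 2 × σ) ⊕ τ → E) → (Fin (q + 1) → E)`,
`φ(v)_c = ∑_l (∂_l F)(x + c y) (v (inl (0, l)) + c v (inl (1, l)))` (`∂_l F`, for instance through
`MvPolynomial.pderiv`, or `fderiv`-like formulas for `form` which exist in the library, see below)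
satisfies
* `φ (mu D θ z s)_c = - mon (x + c y) s` (apply `D s` to `form a (x + c y) = 0`, `D J (a I)` is `1`
  or `0`, `D s c = 0` for natural numbers `c`);
* `φ (w4 z (e, f)) = 0` (the polynomial `F(S x + T y)` is zero, so the derivatives of `F` in the
  directions `x` and `y` at the points of the line are zero);
* `φ (jc (mu D θ z) z p) = 0`: `jc` is `Lam (mu D θ z) g`, `g = X^m thr(z)`, so the value is
  `- (the part of degree q of g)(x + c y) = 0` (`Helper74/LN/Lam.lean`; `thr` vanishes at the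
  points of the line);
so `Jsp D θ z ≤ ker φ`. `φ` maps `Asp D θ z` onto `Fin (q + 1) → E`: for `c` let
`g_c = ∏_(c' ≠ c) ((x_a + c' y_a) X_b - (x_b + c' y_b) X_a)`, `pl x y a b ≠ 0`, a form of degree `q`,
zero at `x + c' y`, `c' ≠ c`, and not zero at `x + c y` (the value of the factor `c'` is
`(c - c') (x_a y_b - x_b y_a)`): `φ (Lam (mu D θ z) g_c)` is a multiple `≠ 0` of `Pi.single c 1`.
Rank-nullity for `φ` restricted to `Asp D θ z`.
-/

set_option autoImplicit false

namespace Pool.Agent.Helper74.BP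

open scoped BigOperators
open MvPolynomial
open Pool.Agent.Helper8.LG (Bdd form mon)
open Pool.Agent.Helper6.QS
open Pool.Agent.Helper74.LN (Moves Jsp Asp mu w4 jc thr Lam)
open Pool.Agent.Helper74.PQ (gr)

section

variable {E : Type*} [Field E] {σ τ : Type*}

/-- the point `x + c y` -/
def lmPt (x y : σ → E) (c : ℕ) : σ → E := fun l => x l + (c : E) * y l

variable [Fintype σ] [DecidableEq σ] {q : ℕ}

/-- the linear map `φ` -/
noncomputable def lmPhi (a : Sym σ q → E) (x y : σ → E) :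
    ((Fin 2 × σ) ⊕ τ → E) →ₗ[E] (Fin (q + 1) → E) where
  toFun v c := ∑ l, gr a (lmPt x y (c : ℕ)) l *
    (v (Sum.inl (0, l)) + ((c : ℕ) : E) * v (Sum.inl (1, l)))
  map_add' v w := by
    funext c
    rw [Pi.add_apply, ← Finset.sum_add_distrib]
    refine Finset.sum_congr rfl fun l _ => ?_
    simp only [Pi.add_apply]
    ring
  map_smul' t v := by
    funext c
    rw [Pi.smul_apply, smul_eq_mul, Finset.mul_sum]
    refine Finset.sum_congr rfl fun l _ => ?_
    simp only [Pi.smul_apply, smul_eq_mul, RingHom.id_apply]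
    ring

theorem lmPhi_apply (a : Sym σ q → E) (x y : σ → E) (v : (Fin 2 × σ) ⊕ τ → E)
    (c : Fin (q + 1)) : lmPhi a x y v c = ∑ l, gr a (lmPt x y (c : ℕ)) l *
    (v (Sum.inl (0, l)) + ((c : ℕ) : E) * v (Sum.inl (1, l))) := rfl

theorem lm_zero (a : Sym σ q → E) (x y : σ → E)
    (hF : ∀ s t : E, form a (fun l => s * x l + t * y l) = 0) (c : ℕ) :
    form a (lmPt x y c) = 0 := by
  have h := hF 1 (c : E)
  simp only [one_mul] at h
  exact h

/-- the values on the columns -/
theorem lmPhi_mu (D : Sym σ q → Derivation ℤ E E) (θ : τ → Sym σ q → E)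
    (a : Sym σ q → E) (hD : ∀ I J, D J (a I) = if I = J then 1 else 0) (x y : σ → E)
    (hF : ∀ s t : E, form a (fun l => s * x l + t * y l) = 0) (s : Sym σ q)
    (c : Fin (q + 1)) :
    lmPhi a x y (mu D θ ![x, y] s) c = - mon (lmPt x y (c : ℕ)) s := by
  have h1 := Pool.Agent.Helper74.PQ.gr_der D a hD (lmPt x y (c : ℕ)) s
  rw [lm_zero a x y hF, map_zero, zero_sub] at h1
  rw [← h1, lmPhi_apply]
  show _ = ∑ l, gr a (lmPt x y (c : ℕ)) l * D s (lmPt x y (c : ℕ) l)
  refine Finset.sum_congr rfl fun l _ => ?_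
  have h2 : D s (lmPt x y (c : ℕ) l) = D s (x l) + ((c : ℕ) : E) * D s (y l) := by
    show D s (x l + ((c : ℕ) : E) * y l) = _
    rw [map_add, Derivation.leibniz, Derivation.map_natCast, smul_zero, add_zero, smul_eq_mul]
  rw [h2]
  rfl

/-- the derivatives along the line are zero -/
theorem lm_dir [CharZero E] (a : Sym σ q → E) (x y : σ → E)
    (hF : ∀ s t : E, form a (fun l => s * x l + t * y l) = 0) (c : ℕ) (e f : E) :
    ∑ l, gr a (lmPt x y c) l * (e * x l + f * y l) = 0 := by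
  have h1 := Pool.Agent.Helper74.PQ.tanLine_pder a (fun l => e * x l + f * y l)
    (fun l => lmPt x y c l - (e * x l + f * y l)) 0 0 (by
      intro s
      rw [zero_mul]
      have h2 := hF (s * e + 1 - e) (s * f + (c : E) - f)
      have h3 : (fun l => s * (e * x l + f * y l) + (lmPt x y c l - (e * x l + f * y l))) =
          fun l => (s * e + 1 - e) * x l + (s * f + (c : E) - f) * y l := by
        funext l
        unfold lmPt
        ring
      rw [h3]
      exact h2)
  rw [mul_zero] at h1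
  have h4 : (fun l => e * x l + f * y l + (lmPt x y c l - (e * x l + f * y l))) =
      lmPt x y c := by
    funext l
    ring
  rw [h4] at h1
  exact h1

theorem lmPhi_w4 [CharZero E] (a : Sym σ q → E) (x y : σ → E)
    (hF : ∀ s t : E, form a (fun l => s * x l + t * y l) = 0) (ef : Fin 2 × Fin 2) :
    lmPhi a x y (w4 (τ := τ) ![x, y] ef) = 0 := by
  funext c
  rw [lmPhi_apply, Pi.zero_apply]
  have hx := lm_dir a x y hF (c : ℕ) 1 0
  have hy := lm_dir a x y hF (c : ℕ) 0 1
  simp only [one_mul, zero_mul, add_zero, zero_add] at hx hy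
  have hz : ∀ f : Fin 2, ∑ l, gr a (lmPt x y (c : ℕ)) l * (![x, y] : Fin 2 → σ → E) f l = 0 := by
    intro f
    fin_cases f
    · exact hx
    · exact hy
  obtain ⟨e, f⟩ := ef
  fin_cases e
  · rw [← hz f]
    refine Finset.sum_congr rfl fun l _ => ?_
    simp [w4]
  · have h1 : ∑ l, gr a (lmPt x y (c : ℕ)) l * (w4 (τ := τ) ![x, y] (1, f) (Sum.inl (0, l)) +
        ((c : ℕ) : E) * w4 (τ := τ) ![x, y] (1, f) (Sum.inl (1, l))) =
        ((c : ℕ) : E) * ∑ l, gr a (lmPt x y (c : ℕ)) l * (![x, y] : Fin 2 → σ → E) f l := by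
      rw [Finset.mul_sum]
      refine Finset.sum_congr rfl fun l _ => ?_
      simp [w4]
      ring
    rw [hz f, mul_zero] at h1
    exact h1

/-- a functional with `V s ↦ mon p s` -/
theorem lm_lam {M : Type*} [AddCommGroup M] [Module E M] (lam : M →ₗ[E] E) (V : Sym σ q → M)
    (p : σ → E) (h : ∀ s, lam (V s) = mon p s) (g : MvPolynomial σ E) :
    lam (Lam V g) = ev q p g := by
  rw [Pool.Agent.Helper74.LN.lam_apply, map_sum, ev, Pool.Agent.Helper49.LN.cP_apply]
  refine Finset.sum_congr rfl fun s _ => ?_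
  rw [map_smul, h]
  rfl

/-- the functional `v ↦ - φ(v)_c` -/
noncomputable def lmFun (a : Sym σ q → E) (x y : σ → E) (c : Fin (q + 1)) :
    ((Fin 2 × σ) ⊕ τ → E) →ₗ[E] E := -((LinearMap.proj c).comp (lmPhi a x y))

theorem lmFun_apply (a : Sym σ q → E) (x y : σ → E) (c : Fin (q + 1))
    (v : (Fin 2 × σ) ⊕ τ → E) : lmFun a x y c v = - lmPhi a x y v c := rfl

theorem lmPhi_lam (D : Sym σ q → Derivation ℤ E E) (θ : τ → Sym σ q → E)
    (a : Sym σ q → E) (hD : ∀ I J, D J (a I) = if I = J then 1 else 0) (x y : σ → E)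
    (hF : ∀ s t : E, form a (fun l => s * x l + t * y l) = 0) (g : MvPolynomial σ E)
    (c : Fin (q + 1)) :
    lmPhi a x y (Lam (mu D θ ![x, y]) g) c = - ev q (lmPt x y (c : ℕ)) g := by
  have h := lm_lam (lmFun a x y c) (mu D θ ![x, y]) (lmPt x y (c : ℕ)) (fun s => by
    rw [lmFun_apply, lmPhi_mu D θ a hD x y hF s c, neg_neg]) g
  rw [← h, lmFun_apply, neg_neg]

omit [Fintype σ] [DecidableEq σ] in
theorem lm_thr_hom (z : Fin 2 → σ → E) (j l m : σ) : (thr z j l m).IsHomogeneous 1 := by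
  unfold thr
  have h : ∀ (c : E) (i : σ), (C c * X i : MvPolynomial σ E).IsHomogeneous 1 := by
    intro c i
    have h1 := (isHomogeneous_C σ c).mul (isHomogeneous_X E i)
    rwa [zero_add] at h1
  exact ((h _ _).sub (h _ _)).add (h _ _)

omit [Fintype σ] [DecidableEq σ] in
theorem lm_thr_eval (x y : σ → E) (c : ℕ) (j l m : σ) :
    eval (lmPt x y c) (thr ![x, y] j l m) = 0 := by
  unfold thr
  simp only [map_add, map_sub, map_mul, eval_C, eval_X]
  show (x j * y l - x l * y j) * (x m + (c : E) * y m) -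
    (x j * y m - x m * y j) * (x l + (c : E) * y l) +
    (x l * y m - x m * y l) * (x j + (c : E) * y j) = 0
  ring

theorem lm_ev_thr (x y : σ → E) (c : ℕ) (m : σ →₀ ℕ) (j l k : σ) :
    ev q (lmPt x y c) (monomial m 1 * thr ![x, y] j l k) = 0 := by
  have h1 : (monomial m (1 : E) * thr ![x, y] j l k).IsHomogeneous (m.degree + 1) :=
    (isHomogeneous_monomial _ rfl).mul (lm_thr_hom _ _ _ _)
  by_cases hq : m.degree + 1 = q
  · rw [hq] at h1
    rw [ev_hom q _ _ h1, map_mul, lm_thr_eval, mul_zero]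
  · rw [ev_part, homogeneousComponent_of_mem h1, if_neg (fun h => hq h.symm), map_zero]

theorem lmPhi_jc (D : Sym σ q → Derivation ℤ E E) (θ : τ → Sym σ q → E)
    (a : Sym σ q → E) (hD : ∀ I J, D J (a I) = if I = J then 1 else 0) (x y : σ → E)
    (hF : ∀ s t : E, form a (fun l => s * x l + t * y l) = 0)
    (p : (σ →₀ ℕ) × σ × σ × σ) :
    lmPhi a x y (jc (mu D θ ![x, y]) ![x, y] p) = 0 := by
  funext c
  rw [jc, lmPhi_lam D θ a hD x y hF, lm_ev_thr, neg_zero]
  rfl

omit [Fintype σ] [DecidableEq σ] in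
/-- the form `g_c` -/
theorem lm_sep [CharZero E] (x y : σ → E) (j l : σ) (hxy : x j * y l - x l * y j ≠ 0)
    (c : Fin (q + 1)) : ∃ g : MvPolynomial σ E, g.IsHomogeneous q ∧
      (∀ c' : Fin (q + 1), c' ≠ c → eval (lmPt x y (c' : ℕ)) g = 0) ∧
      eval (lmPt x y (c : ℕ)) g ≠ 0 := by
  have hv : ∀ c' c'' : ℕ, eval (lmPt x y c'')
      (C (lmPt x y c' j) * X l - C (lmPt x y c' l) * X j) =
      ((c'' : E) - (c' : E)) * (x j * y l - x l * y j) := by
    intro c' c''
    simp only [map_sub, map_mul, eval_C, eval_X]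
    unfold lmPt
    ring
  refine ⟨∏ c' ∈ (Finset.univ : Finset (Fin (q + 1))).erase c,
    (C (lmPt x y (c' : ℕ) j) * X l - C (lmPt x y (c' : ℕ) l) * X j), ?_, ?_, ?_⟩
  · have h : ∀ (d : E) (i : σ), (C d * X i : MvPolynomial σ E).IsHomogeneous 1 := by
      intro d i
      have h1 := (isHomogeneous_C σ d).mul (isHomogeneous_X E i)
      rwa [zero_add] at h1
    have h2 := IsHomogeneous.prod ((Finset.univ : Finset (Fin (q + 1))).erase c)
      (fun c' : Fin (q + 1) => (C (lmPt x y (c' : ℕ) j) * X l - C (lmPt x y (c' : ℕ) l) * X j :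
        MvPolynomial σ E)) (fun _ => 1) (fun c' _ => (h _ _).sub (h _ _))
    rw [Finset.sum_const, Finset.card_erase_of_mem (Finset.mem_univ c), Finset.card_univ,
      Fintype.card_fin, smul_eq_mul, mul_one, Nat.add_sub_cancel] at h2
    exact h2
  · intro c' hc'
    rw [map_prod]
    refine Finset.prod_eq_zero (Finset.mem_erase.2 ⟨hc', Finset.mem_univ c'⟩) ?_
    rw [hv, sub_self, zero_mul]
  · rw [map_prod]
    refine Finset.prod_ne_zero_iff.2 fun c' hc' => ?_
    rw [hv]
    refine mul_ne_zero ?_ hxy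
    rw [sub_ne_zero]
    intro h
    exact (Finset.mem_erase.1 hc').1 (Fin.ext (Nat.cast_injective h).symm)

end

theorem moves_lineIn {E : Type*} [Field E] [CharZero E] {σ τ : Type*} [Fintype σ] [DecidableEq σ]
    [Fintype τ] {q : ℕ} (D : Sym σ q → Derivation ℤ E E) (θ : τ → Sym σ q → E)
    (a : Sym σ q → E) (hD : ∀ I J, D J (a I) = if I = J then 1 else 0) (x y : σ → E)
    (hxy : ∃ j l, x j * y l - x l * y j ≠ 0)
    (hF : ∀ s t : E, form a (fun l => s * x l + t * y l) = 0) :
    Moves (q + 1) D θ ![x, y] := by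
  obtain ⟨j, l, hjl⟩ := hxy
  unfold Moves
  have hJA : Jsp D θ ![x, y] ≤ Asp D θ ![x, y] := by
    unfold Jsp Asp
    refine sup_le_sup_left ?_ _
    rw [Submodule.span_le]
    rintro _ ⟨p, rfl⟩
    exact Pool.Agent.Helper74.LN.lam_mem_span _ _
  have hJK : Jsp D θ ![x, y] ≤ LinearMap.ker (lmPhi a x y) := by
    unfold Jsp
    refine sup_le ?_ ?_
    · rw [Submodule.span_le]
      rintro _ ⟨p, rfl⟩
      exact lmPhi_w4 a x y hF p
    · rw [Submodule.span_le]
      rintro _ ⟨p, rfl⟩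
      exact lmPhi_jc D θ a hD x y hF p
  set f : Asp D θ ![x, y] →ₗ[E] (Fin (q + 1) → E) :=
    (lmPhi a x y).comp (Asp D θ ![x, y]).subtype with hf
  have hsurj : LinearMap.range f = ⊤ := by
    rw [LinearMap.range_eq_top]
    intro w
    choose g hg0 hg1 hg2 using fun c => lm_sep (q := q) x y j l hjl c
    have hu : ∀ c, Lam (mu D θ ![x, y]) (g c) ∈ Asp D θ ![x, y] := fun c =>
      (le_sup_right : _ ≤ Asp D θ ![x, y]) (Pool.Agent.Helper74.LN.lam_mem_span _ _)
    refine ⟨∑ c, (w c * (- (eval (lmPt x y (c : ℕ)) (g c))⁻¹)) •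
      (⟨Lam (mu D θ ![x, y]) (g c), hu c⟩ : Asp D θ ![x, y]), ?_⟩
    rw [map_sum]
    funext i
    have h3 : ∀ c i, f (⟨Lam (mu D θ ![x, y]) (g c), hu c⟩ : Asp D θ ![x, y]) i =
        - eval (lmPt x y (i : ℕ)) (g c) := by
      intro c i
      rw [← ev_hom q _ _ (hg0 c)]
      exact lmPhi_lam D θ a hD x y hF (g c) i
    rw [Finset.sum_apply, Finset.sum_eq_single i]
    · rw [map_smul, Pi.smul_apply, h3, smul_eq_mul, mul_assoc, neg_mul_neg,
        inv_mul_cancel₀ (hg2 i), mul_one]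
    · intro c _ hc
      rw [map_smul, Pi.smul_apply, h3, hg1 c i (Ne.symm hc), neg_zero, smul_zero]
    · intro h
      exact absurd (Finset.mem_univ _) h
  have hdim := LinearMap.finrank_range_add_finrank_ker f
  rw [hsurj, finrank_top, Module.finrank_pi, Fintype.card_fin] at hdim
  have hle : Module.finrank E (Jsp D θ ![x, y]) ≤ Module.finrank E (LinearMap.ker f) := by
    rw [← Submodule.finrank_map_subtype_eq (Asp D θ ![x, y]) (LinearMap.ker f)]
    refine Submodule.finrank_mono ?_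
    intro v hv
    exact Submodule.mem_map.2 ⟨⟨v, hJA hv⟩, hJK hv, rfl⟩
  omega

end Pool.Agent.Helper74.BP
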