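import Pool.Agent.Helper74.BP.Eng
import Pool.Agent.Helper74.BP.LineMv
import Pool.Agent.Helper74.LN.K2
import Pool.Agent.Helper74.LN.BoundL
import Pool.Agent.Helper74.LN.UltraL
import Pool.Agent.Helper74.LN.LinesIn
import Pool.Agent.Helper74.LN.EngN
import Pool.Agent.Helper6.QS.MainC

/-!
# BP-FINL: the points lie on finitely many lines, over fields, from `KeyL N q`

An infinite set of points contains infinitely many points on one line: the points on no line
contained in the hypersurface are finite in number (`ultra_l`, `stage_oneL`); the lines contained in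
the hypersurface move in `q + 1` dimensions (`moves_lineIn`), so they are bounded (`k2`,
`bounded_ln`) and `ultra_ln` applies.
-/

set_option autoImplicit false

namespace Pool.Agent.Helper74.BP

open scoped BigOperators
open MvPolynomial
open Pool.Agent.Helper8.LG
open Pool.Agent.Helper49.LN (cP mo hf)
open Pool.Agent.Helper6.QS (FinC KeyQ finKey_coeff)

universe u v

/-- finitely many of the points are on no line contained in the hypersurface -/
theorem fin_offline {N q : ℕ} (hK : KeyL.{u} N q) {k : Type v} {L : Type u} [Field k] [Field L]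
    [CharZero L] [Algebra k L] (a : Sym (Fin (N + 1)) q → L) (hind : AlgebraicIndependent k a)
    (hfin : FiniteDimensional (IntermediateField.adjoin k (Set.range a)) L)
    (D : Sym (Fin (N + 1)) q → Derivation ℤ L L)
    (hD : ∀ I J, D J (a I) = if I = J then 1 else 0)
    (hDk : ∀ J (c : k), D J (algebraMap k L c) = 0) :
    {x : Fin (N + 1) → L | x 0 = 1 ∧ form a x = 0 ∧ ¬ LineIn a x}.Finite := by
  classical
  by_contra hnf
  have hinf : {x : Fin (N + 1) → L | x 0 = 1 ∧ form a x = 0 ∧ ¬ LineIn a x}.Infinite := hnf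
  set X : ℕ → Fin (N + 1) → L := fun m => (hinf.natEmbedding _ m : Fin (N + 1) → L) with hX
  have hXS : ∀ m, X m 0 = 1 ∧ form a (X m) = 0 ∧ ¬ LineIn a (X m) :=
    fun m => (hinf.natEmbedding _ m).2
  have hXi : Function.Injective X := fun u v huv =>
    (hinf.natEmbedding _).injective (Subtype.ext huv)
  obtain ⟨V, hV, hinfV⟩ := stage_oneL hK a hind hfin D hD hDk X (fun m => (hXS m).1)
    (fun m => (hXS m).2.1) (fun m => (hXS m).2.2)
  have := ultra_l hK a D hD hDk V (X '' {m : ℕ | ∃ G : L, G ≠ 0 ∧ ∀ l, G * X m l ∈ V}) (by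
    rintro _ ⟨m, hm, rfl⟩
    exact ⟨(hXS m).1, (hXS m).2.1, (hXS m).2.2, hm⟩)
  exact hinfV.image hXi.injOn this

/-- infinitely many points on lines contained in the hypersurface -/
theorem inf_online {σ : Type*} [Fintype σ] [DecidableEq σ] {q : ℕ}
    (hq : 6 * Fintype.card σ ≤ (q + 1) * (q + 1 + 1) + 6) {k L : Type*} [Field k] [Field L]
    [CharZero L] [Algebra k L] (a : Sym σ q → L) (hind : AlgebraicIndependent k a)
    (hfin : FiniteDimensional (IntermediateField.adjoin k (Set.range a)) L)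
    (D : Sym σ q → Derivation ℤ L L)
    (hD : ∀ I J, D J (a I) = if I = J then 1 else 0)
    (hDk : ∀ J (c : k), D J (algebraMap k L c) = 0)
    (S : Set (σ → L)) (hS : ∀ x ∈ S, LineIn a x) (hinf : S.Infinite) :
    ∃ W : Submodule L (σ → L), Module.finrank L W ≤ 2 ∧ (S ∩ W).Infinite := by
  classical
  have key := Pool.Agent.Helper74.LN.bounded_ln (k := k) (ι := Unit) (τ := Fin 0)
    (fun _ => q) (fun _ => a) (Finset.univ : Finset (Ix σ fun _ : Unit => q)) ?_ ?_
    (fun p => D p.2) (fun j => j.elim0) (fun j _ => j.elim0) ?_ (fun j => j.elim0)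
    (fun p c => hDk p.2 c)
  · obtain ⟨V, hV, hVb⟩ := key
    have hT : 6 * Fintype.card σ + 2 * Fintype.card (Fin 0) ≤ (q + 1) * (q + 1 + 1) + 6 := by
      rw [Fintype.card_fin]
      omega
    obtain ⟨α, β, u, v, hαβ, hu1, hu0, hv0, hv1, hline⟩ := Pool.Agent.Helper74.LN.ultra_ln (k := k)
      (τ := Fin 0) D (fun j _ => j.elim0) (fun p c => hDk p c) (q + 1) hT V S hinf (by
        intro x hx
        obtain ⟨y, hy, hF⟩ := hS x hx
        have hm := moves_lineIn (τ := Fin 0) D (fun j _ => j.elim0) a hD x y hy hF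
        obtain ⟨G, hG, hk⟩ := Pool.Agent.Helper74.LN.k2 D (fun (j : Fin 0) _ => j.elim0) ![x, y]
          hy (q + 1) hm hT
        exact ⟨y, G, hy, hG, hVb ![x, y] G hk, hm⟩)
    refine ⟨Submodule.span L ({u, v} : Set (σ → L)), ?_, hline.mono ?_⟩
    · refine (finrank_span_le_card ({u, v} : Set (σ → L))).trans ?_
      rw [Set.toFinset_card, Fintype.card_ofFinset]
      exact Finset.card_le_two
    · rintro x ⟨hx, hxl⟩
      refine ⟨hx, Submodule.mem_span_pair.2 ⟨x α, x β, ?_⟩⟩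
      funext l
      rw [hxl l]
      rfl
  · have hinj : Function.Injective
        (fun p : (Finset.univ : Finset (Ix σ fun _ : Unit => q)) => p.1.2) := by
      rintro ⟨⟨⟨⟩, J⟩, _⟩ ⟨⟨⟨⟩, J'⟩, _⟩ h
      have h1 : J = J' := h
      subst h1
      rfl
    exact hind.comp _ hinj
  · have hrange : (Set.range fun p : (Finset.univ : Finset (Ix σ fun _ : Unit => q)) => a p.1.2) =
        Set.range a := by
      ext z
      constructor
      · rintro ⟨p, rfl⟩
        exact ⟨p.1.2, rfl⟩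
      · rintro ⟨J, rfl⟩
        exact ⟨⟨⟨(), J⟩, Finset.mem_univ _⟩, rfl⟩
    rw [hrange]
    exact hfin
  · rintro ⟨⟨⟩, J⟩ ⟨⟨⟩, I⟩
    change D J (a I) = _
    rw [hD I J]
    simp only [Finset.univ_eq_empty, Finset.sum_empty, sub_zero]
    by_cases h : I = J
    · subst h
      simp
    · rw [if_neg h, if_neg]
      intro h'
      apply h
      simpa using h'.symm

/-- an infinite set of points contains infinitely many points on one line -/
theorem inf_lineB {N q : ℕ} (hK : KeyL.{u} N q)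
    (hq : 6 * (N + 1) ≤ (q + 1) * (q + 1 + 1) + 6) {k : Type v} {L : Type u} [Field k] [Field L]
    [CharZero L] [Algebra k L] (a : Sym (Fin (N + 1)) q → L) (hind : AlgebraicIndependent k a)
    (hfin : FiniteDimensional (IntermediateField.adjoin k (Set.range a)) L)
    (D : Sym (Fin (N + 1)) q → Derivation ℤ L L)
    (hD : ∀ I J, D J (a I) = if I = J then 1 else 0)
    (hDk : ∀ J (c : k), D J (algebraMap k L c) = 0)
    (S : Set (Fin (N + 1) → L)) (hS : ∀ x ∈ S, x 0 = 1 ∧ form a x = 0) (hinf : S.Infinite) :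
    ∃ W : Submodule L (Fin (N + 1) → L), Module.finrank L W ≤ 2 ∧ (S ∩ W).Infinite := by
  classical
  have hA : {x ∈ S | LineIn a x}.Infinite := by
    intro hA
    apply hinf
    refine (hA.union (fin_offline hK a hind hfin D hD hDk)).subset ?_
    intro x hx
    by_cases h : LineIn a x
    · exact Or.inl ⟨hx, h⟩
    · exact Or.inr ⟨(hS x hx).1, (hS x hx).2, h⟩
  obtain ⟨W, hW, hWi⟩ := inf_online (by rw [Fintype.card_fin]; exact hq) a hind hfin D hD hDk
    {x ∈ S | LineIn a x} (fun x hx => hx.2) hA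
  exact ⟨W, hW, hWi.mono fun x hx => ⟨hx.1.1, hx.2⟩⟩

/-- the derivations -/
theorem frame_of {N q : ℕ} {k₀ : Type v} {L : Type u} [Field k₀]
    [Field L] [CharZero L] [Algebra k₀ L] (hfg : (⊤ : IntermediateField k₀ L).FG)
    (F : MvPolynomial (Fin (N + 1)) L) (hF : F.IsHomogeneous q)
    (hcoef : ((N + q).choose N : Cardinal) ≤
      Algebra.trdeg k₀ (IntermediateField.adjoin k₀ {z | ∃ J, z = coeff J F})) :
    ∃ k : IntermediateField k₀ L, AlgebraicIndependent k (cf q F) ∧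
      FiniteDimensional (IntermediateField.adjoin k (Set.range (cf q F))) L ∧
      ∃ D : Sym (Fin (N + 1)) q → Derivation ℤ L L,
        (∀ I J, D J (cf q F I) = if I = J then 1 else 0) ∧
        ∀ J (c : k), D J (algebraMap k L c) = 0 := by
  classical
  have e1 : ({z | ∃ J, z = coeff J F} : Set L) = {z | ∃ (_ : Fin 1) (J : Fin (N + 1) →₀ ℕ),
      z = coeff J F} := by
    ext z
    constructor
    · intro h
      exact ⟨0, h⟩
    · rintro ⟨-, h⟩
      exact h
  have hc : (Fintype.card (Ix (Fin (N + 1)) fun _ : Fin 1 => q) : Cardinal) ≤ Algebra.trdeg k₀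
      (IntermediateField.adjoin k₀ (Set.range fun p : Ix (Fin (N + 1)) fun _ : Fin 1 => q =>
        cf q F p.2)) + (0 : ℕ) := by
    have h1 := Pool.Agent.Helper8.LV.adjoin_poly k₀ (fun _ : Fin 1 => q) (fun _ => F)
      (fun _ => hF)
    rw [card_Ix, ← h1, Fin.sum_univ_one, ← e1, Nat.cast_zero, add_zero]
    exact hcoef
  obtain ⟨T, k, hT, hind, hfin, D, θ, hD, hDk⟩ := reduce hfg (fun _ : Fin 1 => q)
    (fun _ => cf q F) 0 hc
  have hall : ∀ p : Ix (Fin (N + 1)) fun _ : Fin 1 => q, p ∈ T := by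
    intro p
    by_contra hp
    have h1 : Fintype.card {p : Ix (Fin (N + 1)) (fun _ : Fin 1 => q) // p ∉ T} = 0 := by omega
    rw [Fintype.card_eq_zero_iff] at h1
    exact h1.false ⟨p, hp⟩
  have hempty : IsEmpty {p : Ix (Fin (N + 1)) (fun _ : Fin 1 => q) // p ∉ T} :=
    ⟨fun p => p.2 (hall p.1)⟩
  have hinj : Function.Injective
      (fun J : Sym (Fin (N + 1)) q => (⟨⟨0, J⟩, hall _⟩ : T)) := by
    intro J J' h
    have h1 := congrArg (fun p : T => p.1) h
    simp only [Sigma.mk.injEq, heq_eq_eq, true_and] at h1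
    exact h1
  have hind1 := hind.comp (fun J : Sym (Fin (N + 1)) q => (⟨⟨0, J⟩, hall _⟩ : T)) hinj
  have hfun : ((fun p : T => cf q F p.1.2) ∘ fun J : Sym (Fin (N + 1)) q =>
      (⟨⟨0, J⟩, hall _⟩ : T)) = cf q F := rfl
  have hind' : AlgebraicIndependent k (cf q F) := by
    rw [← hfun]
    exact hind1
  have hrange : (Set.range fun p : T => cf q F p.1.2) = Set.range (cf q F) := by
    ext z
    constructor
    · rintro ⟨p, rfl⟩
      exact ⟨p.1.2, rfl⟩
    · rintro ⟨J, rfl⟩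
      exact ⟨⟨⟨0, J⟩, hall _⟩, rfl⟩
  rw [hrange] at hfin
  have hD' : ∀ I J : Sym (Fin (N + 1)) q, D ⟨0, J⟩ (cf q F I) = if I = J then 1 else 0 := by
    intro I J
    have h1 := hD ⟨0, J⟩ ⟨0, I⟩
    rw [Fintype.sum_empty, sub_zero] at h1
    rw [h1]
    refine if_congr ?_ rfl rfl
    constructor
    · intro h
      simp only [Sigma.mk.injEq, heq_eq_eq, true_and] at h
      exact h.symm
    · intro h
      rw [h]
  exact ⟨k, hind', hfin, fun J => D ⟨0, J⟩, hD', fun J c => hDk _ c⟩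

/-- the case `i₀ = 0` -/
theorem lines_zero {N q : ℕ} (hK : KeyL.{u} N q)
    (hq : 6 * (N + 1) ≤ (q + 1) * (q + 1 + 1) + 6) {k₀ : Type v} {L : Type u} [Field k₀]
    [Field L] [CharZero L] [Algebra k₀ L] (hfg : (⊤ : IntermediateField k₀ L).FG)
    (F : MvPolynomial (Fin (N + 1)) L) (hF : F.IsHomogeneous q)
    (hcoef : ((N + q).choose N : Cardinal) ≤
      Algebra.trdeg k₀ (IntermediateField.adjoin k₀ {z | ∃ J, z = coeff J F})) :
    ∃ Λ : Set (Submodule L (Fin (N + 1) → L)), Λ.Finite ∧ (∀ W ∈ Λ, Module.finrank L W ≤ 2) ∧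
      ∀ x : Fin (N + 1) → L, x 0 = 1 → eval x F = 0 → ∃ W ∈ Λ, x ∈ W := by
  classical
  obtain ⟨k, hind, hfin, D, hD, hDk⟩ := frame_of hfg F hF hcoef
  obtain ⟨Λ, h1, h2, h3⟩ := Pool.Agent.Helper10.LB.greedy
    {x : Fin (N + 1) → L | x 0 = 1 ∧ form (cf q F) x = 0} (fun S' hS' hinf =>
      inf_lineB hK hq (cf q F) hind hfin D hD hDk S' hS' hinf)
    0 (fun x hx => hx.1)
  exact ⟨Λ, h1, h2, fun x hx hx0 => h3 x ⟨hx, by rw [form_cf F hF, hx0]⟩⟩

/-- any `i₀`, by a permutation of the variables -/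
theorem lines_all {N q : ℕ} (hK : KeyL.{u} N q)
    (hq : 6 * (N + 1) ≤ (q + 1) * (q + 1 + 1) + 6) {k₀ : Type v} {L : Type u} [Field k₀]
    [Field L] [CharZero L] [Algebra k₀ L] (hfg : (⊤ : IntermediateField k₀ L).FG)
    (F : MvPolynomial (Fin (N + 1)) L) (hF : F.IsHomogeneous q)
    (hcoef : ((N + q).choose N : Cardinal) ≤
      Algebra.trdeg k₀ (IntermediateField.adjoin k₀ {z | ∃ J, z = coeff J F}))
    (i₀ : Fin (N + 1)) :
    ∃ Λ : Set (Submodule L (Fin (N + 1) → L)), Λ.Finite ∧ (∀ W ∈ Λ, Module.finrank L W ≤ 2) ∧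
      ∀ x : Fin (N + 1) → L, x i₀ = 1 → eval x F = 0 → ∃ W ∈ Λ, x ∈ W := by
  classical
  set e : Fin (N + 1) → Fin (N + 1) := fun i => Equiv.swap 0 i₀ i with he
  have hinj : Function.Injective e := (Equiv.swap 0 i₀).injective
  have hee : e ∘ e = id := by
    funext i
    exact Equiv.swap_apply_self 0 i₀ i
  have hset : ({z | ∃ J, z = coeff J F} : Set L) = {z | ∃ J, z = coeff J (rename e F)} := by
    refine Set.Subset.antisymm (finKey_coeff e hinj F) ?_
    have h1 := finKey_coeff e hinj (rename e F)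
    rw [rename_rename, hee, rename_id_apply] at h1
    exact h1
  rw [hset] at hcoef
  obtain ⟨Λ, h1, h2, h3⟩ := lines_zero hK hq hfg (rename e F) (hF.rename_isHomogeneous) hcoef
  refine ⟨Submodule.map (LinearMap.funLeft L L e) '' Λ, h1.image _, ?_, fun x hx hx0 => ?_⟩
  · rintro _ ⟨W, hW, rfl⟩
    exact (Submodule.finrank_map_le _ _).trans (h2 W hW)
  · obtain ⟨W, hW, hxW⟩ := h3 (x ∘ e) (by
      change x (e 0) = 1
      have h3 : e 0 = i₀ := Equiv.swap_apply_left 0 i₀
      rw [h3]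
      exact hx) (by
      rw [eval_rename, Function.comp_assoc, hee, Function.comp_id]
      exact hx0)
    refine ⟨_, ⟨W, hW, rfl⟩, x ∘ e, hxW, ?_⟩
    change (x ∘ e) ∘ e = x
    rw [Function.comp_assoc, hee, Function.comp_id]

/-- no line is contained in the hypersurface if `q ≥ 2 N - 2` -/
theorem no_line {N q : ℕ} (hNq : 2 * N ≤ q + 2) {k₀ : Type v} {L : Type u} [Field k₀]
    [Field L] [CharZero L] [Algebra k₀ L] (hfg : (⊤ : IntermediateField k₀ L).FG)
    (F : MvPolynomial (Fin (N + 1)) L) (hF : F.IsHomogeneous q)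
    (hcoef : ((N + q).choose N : Cardinal) ≤
      Algebra.trdeg k₀ (IntermediateField.adjoin k₀ {z | ∃ J, z = coeff J F}))
    (W : Submodule L (Fin (N + 1) → L)) (hW : Module.finrank L W = 2)
    (h : ∀ y ∈ W, eval y F = 0) : False := by
  classical
  obtain ⟨k, hind, hfin, D, hD, hDk⟩ := frame_of hfg F hF hcoef
  obtain ⟨w, hw, hw0⟩ : ∃ w ∈ W, w ≠ 0 := by
    by_contra hcon
    push Not at hcon
    have h1 : W = ⊥ := (Submodule.eq_bot_iff W).2 hcon
    rw [h1, finrank_bot] at hW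
    omega
  obtain ⟨i₀, hi⟩ : ∃ i, w i ≠ 0 := by
    by_contra hcon
    push Not at hcon
    exact hw0 (funext hcon)
  obtain ⟨β, u, v, hiβ, huW, hvW, hu1, hu0, hv0, hv1, -⟩ :=
    Pool.Agent.Helper74.LN.plane_basis W hW i₀ ((w i₀)⁻¹ • w) (W.smul_mem _ hw) (by
      rw [Pi.smul_apply, smul_eq_mul, inv_mul_cancel₀ hi])
  obtain ⟨n, hn⟩ := Pool.Agent.Helper6.QS.line_gen hD (by rw [Fintype.card_fin]; omega) i₀ β hiβ
    u v hu1 hu0 hv0 hv1
  apply hn
  have h5 : (fun l => u l + (n : L) * v l) = u + (n : L) • v := by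
    funext l
    simp
  rw [form_cf F hF, h5]
  exact h _ (W.add_mem huW (W.smul_mem _ hvW))

/-- **Finitely many lines contained in the hypersurface, and a finite set.** -/
theorem finC_of {N q : ℕ} (hK : KeyL.{u} N q) (hq : 6 * (N + 1) ≤ (q + 1) * (q + 1 + 1) + 6) :
    FinC.{u, v} N q := by
  classical
  intro k₀ L _ _ _ _ hfg F hF hcoef
  choose Λ hΛ1 hΛ2 hΛ3 using fun i₀ => lines_all hK hq hfg F hF hcoef i₀
  refine ⟨{W ∈ ⋃ i₀, Λ i₀ | Module.finrank L W = 2 ∧ ∀ y ∈ W, eval y F = 0},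
    (Set.finite_iUnion hΛ1).subset fun W hW => hW.1, fun W hW => ⟨hW.2.1.le, hW.2.2, ?_⟩,
    fun i₀ => ?_⟩
  · by_contra hcon
    exact no_line (by omega) hfg F hF hcoef W hW.2.1 hW.2.2
  · refine (Set.Finite.biUnion (hΛ1 i₀) (t := fun W => {x : Fin (N + 1) → L | x i₀ = 1 ∧
      eval x F = 0 ∧ x ∈ W ∧ ¬ (Module.finrank L W = 2 ∧ ∀ y ∈ W, eval y F = 0)})
      fun W hW => ?_).subset ?_
    · by_contra hinf
      have hinf' : ({x : Fin (N + 1) → L | x i₀ = 1 ∧ eval x F = 0 ∧ x ∈ W ∧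
          ¬ (Module.finrank L W = 2 ∧ ∀ y ∈ W, eval y F = 0)} : Set _).Infinite := hinf
      have h1 := Pool.Agent.Helper74.LN.line_in (ι := Unit) (fun _ => q) (fun _ => cf q F) i₀ W
        (hΛ2 i₀ W hW) {x : Fin (N + 1) → L | x i₀ = 1 ∧ eval x F = 0} (fun x hx => hx.1)
        (fun x hx _ => by rw [form_cf F hF, hx.2])
        (hinf'.mono fun x hx => ⟨⟨hx.1, hx.2.1⟩, hx.2.2.1⟩)
      obtain ⟨x, -, -, -, hx⟩ := hinf'.nonempty
      exact hx ⟨h1.1, fun y hy => by rw [← form_cf F hF]; exact h1.2 y hy ()⟩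
    · rintro x ⟨h2, h4, h5⟩
      obtain ⟨W, hW, hx⟩ := hΛ3 i₀ x h2 h4
      rw [Set.mem_iUnion₂]
      exact ⟨W, hW, h2, h4, hx, fun h => h5 W ⟨Set.mem_iUnion.2 ⟨i₀, hW⟩, h⟩ hx⟩

end Pool.Agent.Helper74.BP
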