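import Pool.Agent.Helper74.BP.TBlk

/-!
# BP-KERDIM: the kernel of a block modulo the other ones

Adapt `Helper74/Q8/KerDim.lean`. `φ(l) = D_(P_p l) x` maps `R = {l | l . x = 0}` (dimension
`card σ - 1`) to `n^⊥` and `φ(u), φ(v)` form a basis of `n^⊥ / (x, the rows of the other blocks)`
(dimension 2, `vB_coord`). So the kernel of `R → n^⊥ / (x, ..)` has dimension `card σ - 3`, and it is
the kernel of the alternating form `TU e D x i₀ P l p`.
-/

set_option autoImplicit false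

namespace Pool.Agent.Helper74.BP

open scoped BigOperators
open MvPolynomial
open Pool.Agent.Helper8.LG (Bdd form mon)
open Pool.Agent.Helper49.LN (cP mo hf pl)
open Pool.Agent.Helper6.QS
open Pool.Agent.Helper74.Q8 (dl rr)

variable {Ω : Type*} [Field Ω] [CharZero Ω] {σ : Type*} [Fintype σ] [DecidableEq σ] {q b : ℕ}
  {e : Option (Option (Fin b × Fin 2)) ≃ σ} {D : Sym σ q → Derivation ℤ Ω Ω} {a : Sym σ q → Ω}
  {B : Subfield Ω} {i₀ : σ} {x n : σ → Ω}

omit [CharZero Ω] in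
/-- a matrix all of whose rows outside one block are unit vectors -/
private theorem kerDim_det (p : Fin b) (A : Matrix (Fin b × Fin 2) (Fin b × Fin 2) Ω)
    (hA : ∀ i : Fin b × Fin 2, i.1 ≠ p → ∀ j, A i j = if i = j then 1 else 0) :
    A.det = A (p, 0) (p, 0) * A (p, 1) (p, 1) - A (p, 0) (p, 1) * A (p, 1) (p, 0) := by
  have h1 := Matrix.twoBlockTriangular_det A (fun i : Fin b × Fin 2 => i.1 = p) (by
    intro i hi j hj
    rw [hA i hi, if_neg]
    intro hij
    exact hi (by rw [hij]; exact hj))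
  have h2 : (Matrix.toSquareBlockProp A fun i : Fin b × Fin 2 => ¬ i.1 = p) = 1 := by
    ext i j
    rw [Matrix.toSquareBlockProp_def, Matrix.of_apply, hA i.1 i.2, Matrix.one_apply]
    exact if_congr Subtype.val_injective.eq_iff rfl rfl
  let g : Fin 2 ≃ {r : Fin b × Fin 2 // r.1 = p} :=
    { toFun := fun i => ⟨(p, i), rfl⟩
      invFun := fun r => r.1.2
      left_inv := fun i => rfl
      right_inv := by
        rintro ⟨⟨r1, r2⟩, hr⟩
        have hr' : r1 = p := hr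
        subst hr'
        rfl }
  have h3 : (Matrix.toSquareBlockProp A fun i : Fin b × Fin 2 => i.1 = p).det =
      A (p, 0) (p, 0) * A (p, 1) (p, 1) - A (p, 0) (p, 1) * A (p, 1) (p, 0) := by
    rw [← Matrix.det_submatrix_equiv_self g, Matrix.det_fin_two]
    rfl
  rw [h1, h2, Matrix.det_one, mul_one, h3]

/-- the form `TU` in coordinates -/
private theorem kerDim_coord (h : PtB e D a B i₀ x n) (P : Fin b → MvPolynomial σ Ω)
    (l : Fin b × Fin 2 → σ → Ω) (hl : ∀ r, dt (l r) x = 0) (p : Fin b) (u v : σ → Ω)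
    (hu : dt u x = 0) (hv : dt v x = 0) (hne : TU e D x i₀ P l p u v ≠ 0) :
    ∃ θ0 θ1 : σ → Ω, dt θ0 (dl D x (P p) u) = 1 ∧ dt θ1 (dl D x (P p) u) = 0 ∧
      dt θ0 (dl D x (P p) v) = 0 ∧ dt θ1 (dl D x (P p) v) = 1 ∧
      ∀ u' v', dt u' x = 0 → dt v' x = 0 → TU e D x i₀ P l p u' v' = TU e D x i₀ P l p u v *
        (dt θ0 (dl D x (P p) u') * dt θ1 (dl D x (P p) v') -
          dt θ1 (dl D x (P p) u') * dt θ0 (dl D x (P p) v')) := by
  obtain ⟨W, hW⟩ : ∃ W : (σ → Ω) → (σ → Ω) → Fin b × Fin 2 → σ → Ω, ∀ u v, W u v =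
      fun r : Fin b × Fin 2 => dl D x (P r.1)
        (Function.update (Function.update l (p, 0) u) (p, 1) v r) := ⟨_, fun _ _ => rfl⟩
  have hTU : ∀ u v, TU e D x i₀ P l p u v = vol2 e x (dv D x (X i₀ ^ q)) (W u v) := by
    intro u v
    rw [hW]
    rfl
  have hW0 : ∀ u v, W u v (p, 0) = dl D x (P p) u := by
    intro u v
    rw [hW]
    show dl D x (P p) (Function.update (Function.update l (p, 0) u) (p, 1) v (p, 0)) = _
    rw [Function.update_of_ne (TBlk_ne p), Function.update_self]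
  have hW1 : ∀ u v, W u v (p, 1) = dl D x (P p) v := by
    intro u v
    rw [hW]
    show dl D x (P p) (Function.update (Function.update l (p, 0) u) (p, 1) v (p, 1)) = _
    rw [Function.update_self]
  have hWr : ∀ u v (r : Fin b × Fin 2), r.1 ≠ p → W u v r = dl D x (P r.1) (l r) := by
    intro u v r hr
    rw [hW]
    show dl D x (P r.1) (Function.update (Function.update l (p, 0) u) (p, 1) v r) = _
    rw [Function.update_of_ne, Function.update_of_ne]
    · intro hr'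
      exact hr (by rw [hr'])
    · intro hr'
      exact hr (by rw [hr'])
  have hWn : ∀ u v, dt u x = 0 → dt v x = 0 → ∀ r, dt n (W u v r) = 0 := by
    intro u v hu hv r
    rw [hW]
    show dt n (dl D x (P r.1) (Function.update (Function.update l (p, 0) u) (p, 1) v r)) = 0
    refine vB_tan h _ _ ?_
    by_cases hr1 : r = (p, 1)
    · subst hr1
      rw [Function.update_self]
      exact hv
    · rw [Function.update_of_ne hr1]
      by_cases hr0 : r = (p, 0)
      · subst hr0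
        rw [Function.update_self]
        exact hu
      · rw [Function.update_of_ne hr0]
        exact hl r
  rw [hTU] at hne
  obtain ⟨θ, -, hθ, -, -, hdet⟩ := vB_coord h (W u v) (hWn u v hu hv) hne
  refine ⟨θ (p, 0), θ (p, 1), ?_, ?_, ?_, ?_, ?_⟩
  · rw [← hW0 u v, hθ, if_pos rfl]
  · rw [← hW0 u v, hθ, if_neg (TBlk_ne p)]
  · rw [← hW1 u v, hθ, if_neg (TBlk_ne p).symm]
  · rw [← hW1 u v, hθ, if_pos rfl]
  · intro u' v' hu' hv'
    rw [hTU, hTU, hdet (W u' v') (hWn u' v' hu' hv'), kerDim_det p]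
    · rw [Matrix.of_apply, Matrix.of_apply, Matrix.of_apply, Matrix.of_apply, hW0, hW1]
    · intro i hi j
      rw [Matrix.of_apply, hWr u' v' i hi, ← hWr u v i hi, hθ]

/-- membership in the kernel in coordinates -/
private theorem kerDim_mem (h : PtB e D a B i₀ x n) (P : Fin b → MvPolynomial σ Ω)
    (l : Fin b × Fin 2 → σ → Ω) (hl : ∀ r, dt (l r) x = 0) (p : Fin b) (u v : σ → Ω)
    (hu : dt u x = 0) (hv : dt v x = 0) (hne : TU e D x i₀ P l p u v ≠ 0) :
    ∃ θ0 θ1 : σ → Ω, dt θ0 (dl D x (P p) u) = 1 ∧ dt θ1 (dl D x (P p) u) = 0 ∧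
      dt θ0 (dl D x (P p) v) = 0 ∧ dt θ1 (dl D x (P p) v) = 1 ∧
      (∀ u' v', dt u' x = 0 → dt v' x = 0 → TU e D x i₀ P l p u' v' = TU e D x i₀ P l p u v *
        (dt θ0 (dl D x (P p) u') * dt θ1 (dl D x (P p) v') -
          dt θ1 (dl D x (P p) u') * dt θ0 (dl D x (P p) v'))) ∧
      ∀ u', u' ∈ KerB e D x i₀ P l p ↔ dt u' x = 0 ∧ dt θ0 (dl D x (P p) u') = 0 ∧
        dt θ1 (dl D x (P p) u') = 0 := by
  obtain ⟨θ0, θ1, t0u, t1u, t0v, t1v, key⟩ := kerDim_coord h P l hl p u v hu hv hne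
  refine ⟨θ0, θ1, t0u, t1u, t0v, t1v, key, fun u' => ?_⟩
  rw [mem_KerB]
  constructor
  · rintro ⟨hu', hz⟩
    refine ⟨hu', ?_, ?_⟩
    · have e2 := hz v hv
      rw [key u' v hu' hv, t0v, t1v] at e2
      rcases mul_eq_zero.1 e2 with e3 | e3
      · exact absurd e3 hne
      · linear_combination e3
    · have e1 := hz u hu
      rw [key u' u hu' hu, t0u, t1u] at e1
      rcases mul_eq_zero.1 e1 with e3 | e3
      · exact absurd e3 hne
      · linear_combination -e3
  · rintro ⟨hu', f0, f1⟩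
    refine ⟨hu', fun v' hv' => ?_⟩
    rw [key u' v' hu' hv', f0, f1, zero_mul, zero_mul, sub_zero, mul_zero]

theorem ker_dimB (h : PtB e D a B i₀ x n) (P : Fin b → MvPolynomial σ Ω)
    (l : Fin b × Fin 2 → σ → Ω) (hl : ∀ r, dt (l r) x = 0) (p : Fin b) (u v : σ → Ω)
    (hu : dt u x = 0) (hv : dt v x = 0) (hne : TU e D x i₀ P l p u v ≠ 0) :
    Module.finrank Ω (KerB e D x i₀ P l p) + 3 = Fintype.card σ := by
  obtain ⟨θ0, θ1, t01, t11, t02, t12, -, hmem⟩ := kerDim_mem h P l hl p u v hu hv hne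
  -- the linear map
  let G : (σ → Ω) →ₗ[Ω] (Fin 3 → Ω) :=
    { toFun := fun l => ![dt x l, dt θ0 (dl D x (P p) l), dt θ1 (dl D x (P p) l)]
      map_add' := by
        intro l l'
        rw [Pool.Agent.Helper74.Q8.dl_add_right, Pool.Agent.Helper74.Q8.dt_add',
          Pool.Agent.Helper74.Q8.dt_add', Pool.Agent.Helper74.Q8.dt_add']
        ext i
        fin_cases i <;> rfl
      map_smul' := by
        intro c l
        rw [Pool.Agent.Helper74.Q8.dl_smul_right, Pool.Agent.Helper74.Q8.dt_smul',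
          Pool.Agent.Helper74.Q8.dt_smul', Pool.Agent.Helper74.Q8.dt_smul']
        ext i
        fin_cases i <;> rfl }
  have hG : ∀ l, G l = ![dt x l, dt θ0 (dl D x (P p) l), dt θ1 (dl D x (P p) l)] := fun _ => rfl
  have hsurj : Function.Surjective G := by
    intro c
    obtain ⟨l3, hl3⟩ : ∃ l3 : σ → Ω, dt x l3 = 1 := by
      refine ⟨Pi.single i₀ 1, ?_⟩
      unfold dt
      rw [Finset.sum_eq_single i₀]
      · rw [h.one, Pi.single_eq_same, mul_one]
      · intro j _ hj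
        rw [Pi.single_eq_of_ne hj, mul_zero]
      · intro h0
        exact absurd (Finset.mem_univ _) h0
    refine ⟨c 0 • l3 + (c 1 - c 0 * dt θ0 (dl D x (P p) l3)) • u +
      (c 2 - c 0 * dt θ1 (dl D x (P p) l3)) • v, ?_⟩
    rw [hG]
    simp only [Pool.Agent.Helper74.Q8.dl_add_right, Pool.Agent.Helper74.Q8.dl_smul_right,
      Pool.Agent.Helper74.Q8.dt_add', Pool.Agent.Helper74.Q8.dt_smul']
    rw [hl3, Pool.Agent.Helper74.Q8.dt_comm' x u, Pool.Agent.Helper74.Q8.dt_comm' x v, hu, hv,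
      t01, t11, t02, t12]
    ext i
    fin_cases i
    · show c 0 * 1 + _ * 0 + _ * 0 = c 0
      ring
    · show c 0 * dt θ0 (dl D x (P p) l3) + (c 1 - c 0 * dt θ0 (dl D x (P p) l3)) * 1 + _ * 0 = c 1
      ring
    · show c 0 * dt θ1 (dl D x (P p) l3) + _ * 0 + (c 2 - c 0 * dt θ1 (dl D x (P p) l3)) * 1 = c 2
      ring
  have hker : KerB e D x i₀ P l p = LinearMap.ker G := by
    ext l'
    rw [hmem, LinearMap.mem_ker, hG]
    constructor
    · rintro ⟨h1, h2, h3⟩
      rw [Pool.Agent.Helper74.Q8.dt_comm' x l', h1, h2, h3]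
      ext i
      fin_cases i <;> rfl
    · intro h1
      refine ⟨?_, congrFun h1 1, congrFun h1 2⟩
      rw [Pool.Agent.Helper74.Q8.dt_comm']
      exact congrFun h1 0
  have e1 := LinearMap.finrank_range_add_finrank_ker G
  rw [LinearMap.range_eq_top.2 hsurj, finrank_top, Module.finrank_fin_fun,
    Module.finrank_fintype_fun_eq_card] at e1
  rw [hker]
  omega

/-- the form is not degenerate on a complement of the kernel -/
theorem ker_ne (h : PtB e D a B i₀ x n) (P : Fin b → MvPolynomial σ Ω)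
    (l : Fin b × Fin 2 → σ → Ω) (hl : ∀ r, dt (l r) x = 0) (p : Fin b) (u v : σ → Ω)
    (hu : dt u x = 0) (hv : dt v x = 0) (hne : TU e D x i₀ P l p u v ≠ 0) (u' v' : σ → Ω)
    (hu' : dt u' x = 0) (hv' : dt v' x = 0)
    (hind : ∀ c c' : Ω, c • u' + c' • v' ∈ KerB e D x i₀ P l p → c = 0 ∧ c' = 0) :
    TU e D x i₀ P l p u' v' ≠ 0 := by
  obtain ⟨θ0, θ1, t01, t11, t02, t12, key, hmem⟩ := kerDim_mem h P l hl p u v hu hv hne
  intro h0
  rw [key u' v' hu' hv'] at h0
  obtain ⟨a0, ha0⟩ : ∃ a0, a0 = dt θ0 (dl D x (P p) u') := ⟨_, rfl⟩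
  obtain ⟨a1, ha1⟩ : ∃ a1, a1 = dt θ1 (dl D x (P p) u') := ⟨_, rfl⟩
  obtain ⟨b0, hb0⟩ : ∃ b0, b0 = dt θ0 (dl D x (P p) v') := ⟨_, rfl⟩
  obtain ⟨b1, hb1⟩ : ∃ b1, b1 = dt θ1 (dl D x (P p) v') := ⟨_, rfl⟩
  rw [← ha0, ← ha1, ← hb0, ← hb1] at h0
  have h1 : a0 * b1 - a1 * b0 = 0 := by
    rcases mul_eq_zero.1 h0 with h2 | h2
    · exact absurd h2 hne
    · exact h2
  have hm : ∀ c c' : Ω, c * a0 + c' * b0 = 0 → c * a1 + c' * b1 = 0 → c = 0 ∧ c' = 0 := by
    intro c c' hc0 hc1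
    refine hind c c' ?_
    rw [hmem]
    refine ⟨?_, ?_, ?_⟩
    · rw [Pool.Agent.Helper74.Q8.dt_comm', Pool.Agent.Helper74.Q8.dt_add',
        Pool.Agent.Helper74.Q8.dt_smul', Pool.Agent.Helper74.Q8.dt_smul',
        Pool.Agent.Helper74.Q8.dt_comm' x u', Pool.Agent.Helper74.Q8.dt_comm' x v', hu', hv',
        mul_zero, mul_zero, add_zero]
    · rw [Pool.Agent.Helper74.Q8.dl_add_right, Pool.Agent.Helper74.Q8.dl_smul_right,
        Pool.Agent.Helper74.Q8.dl_smul_right, Pool.Agent.Helper74.Q8.dt_add',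
        Pool.Agent.Helper74.Q8.dt_smul', Pool.Agent.Helper74.Q8.dt_smul', ← ha0, ← hb0]
      exact hc0
    · rw [Pool.Agent.Helper74.Q8.dl_add_right, Pool.Agent.Helper74.Q8.dl_smul_right,
        Pool.Agent.Helper74.Q8.dl_smul_right, Pool.Agent.Helper74.Q8.dt_add',
        Pool.Agent.Helper74.Q8.dt_smul', Pool.Agent.Helper74.Q8.dt_smul', ← ha1, ← hb1]
      exact hc1
  have h2 := hm b0 (-a0) (by ring) (by linear_combination -h1)
  have h3 := hm b1 (-a1) (by linear_combination h1) (by ring)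
  have h4 : a0 = 0 := neg_eq_zero.1 h2.2
  have h5 : a1 = 0 := neg_eq_zero.1 h3.2
  have h6 := hm 1 0 (by rw [h4, mul_zero, zero_mul, add_zero]) (by
    rw [h5, mul_zero, zero_mul, add_zero])
  exact one_ne_zero h6.1

end Pool.Agent.Helper74.BP
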