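import Pool.Agent.Helper74.BP.TRat
import Pool.Agent.Helper74.Q8.KerRat

/-!
# BP-KERSPAN: the kernel of a block modulo rational blocks is rational

Adapted from `Helper74/Q8/KerSpan.lean`: with `T_uv = TU .. (rr x i₀ u) (rr x i₀ v)` and
`t_juv = x_j T_uv - x_u T_jv + x_v T_ju ∈ B` (`trat`) the kernel is the set of the `m` with
`∑_j m_j t_juv = 0` for all `u, v` (these imply `m . x = 0`, as some `t_(i₀ u v) = T_uv ≠ 0`, `TU_ex`);
`ker_rat`.
-/

set_option autoImplicit false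

namespace Pool.Agent.Helper74.BP

open scoped BigOperators
open MvPolynomial
open Pool.Agent.Helper8.LG (Bdd form mon)
open Pool.Agent.Helper49.LN (cP mo hf pl)
open Pool.Agent.Helper6.QS
open Pool.Agent.Helper74.Q8 (dl rr)

/-- the algebra of the system -/
theorem kerSpan_algB {Ω : Type*} [Field Ω] {σ : Type*} [Fintype σ] (x m : σ → Ω)
    (T : σ → σ → Ω) (b c : σ) :
    ∑ j, m j * (x j * T b c - x b * T j c + x c * T j b) =
      (∑ j, m j * x j) * T b c - x b * (∑ j, m j * T j c) + x c * ∑ j, m j * T j b := by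
  rw [Finset.sum_mul, Finset.mul_sum, Finset.mul_sum, ← Finset.sum_sub_distrib,
    ← Finset.sum_add_distrib]
  exact Finset.sum_congr rfl fun j _ => by ring

variable {Ω : Type*} [Field Ω] [CharZero Ω] {σ : Type*} [Fintype σ] [DecidableEq σ] {q b : ℕ}
  {e : Option (Option (Fin b × Fin 2)) ≃ σ} {D : Sym σ q → Derivation ℤ Ω Ω} {a : Sym σ q → Ω}
  {B : Subfield Ω} {i₀ : σ} {x n : σ → Ω}

theorem ker_spanB (h : PtB e D a B i₀ x n) (P : Fin b → MvPolynomial σ Ω)
    (hP : ∀ p, RatP B (P p)) (c : Fin b × Fin 2 → σ) (p : Fin b) (u v : σ → Ω)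
    (hu : dt u x = 0) (hv : dt v x = 0)
    (hne : TU e D x i₀ P (fun r => rr x i₀ (c r)) p u v ≠ 0) :
    KerB e D x i₀ P (fun r => rr x i₀ (c r)) p ≤ RatO B x := by
  intro l hlk
  obtain ⟨hl, hker⟩ := (mem_KerB e D x i₀ P (fun r => rr x i₀ (c r)) p l).1 hlk
  obtain ⟨b0, c0, hbc⟩ := TU_ex e D x i₀ P (fun r => rr x i₀ (c r)) p h.one u v hu hv hne
  set T : σ → σ → Ω := fun u v =>
    TU e D x i₀ P (fun r => rr x i₀ (c r)) p (rr x i₀ u) (rr x i₀ v) with hT
  have hrat : ∀ j u v, x j * T u v - x u * T j v + x v * T j u ∈ B := fun j u v =>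
    trat h P hP c p j u v
  have hT0 : ∀ c', T i₀ c' = 0 := by
    intro c'
    simp only [hT]
    rw [rr_zeroB]
    have h5 := TU_left e D x i₀ P (fun r => rr x i₀ (c r)) p 0 0 0 0 (rr x i₀ c')
    rw [zero_smul, add_zero, zero_mul, add_zero] at h5
    exact h5
  -- the kernel
  have hS : ∀ c', ∑ j, l j * T j c' = 0 := by
    intro c'
    have h3 := hker (rr x i₀ c') (rr_dtB x i₀ c')
    rw [rr_spanB h.one l hl, TU_sum_left] at h3
    exact h3
  have hsys := Pool.Agent.Helper74.Q8.ker_rat B (fun (i : σ × σ) (j : σ) =>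
    x j * T i.1 i.2 - x i.1 * T j i.2 + x i.2 * T j i.1) (fun i j => hrat j i.1 i.2) l (by
      rintro ⟨b', c'⟩
      have h3 := kerSpan_algB x l T b' c'
      rw [hS, hS] at h3
      have h4 : ∑ j, l j * x j = 0 := hl
      rw [h4] at h3
      simpa using h3)
  refine Submodule.span_mono ?_ hsys
  rintro m ⟨hmB, hm⟩
  refine ⟨hmB, ?_⟩
  by_contra hmx
  have h4 : ∑ j, m j * x j ≠ 0 := hmx
  have h5 : ∀ b' c', (∑ j, m j * x j) * T b' c' =
      x b' * (∑ j, m j * T j c') - x c' * ∑ j, m j * T j b' := by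
    intro b' c'
    have h3 := kerSpan_algB x m T b' c'
    rw [hm (b', c')] at h3
    linear_combination -h3
  apply hbc
  show T b0 c0 = 0
  have h7 : (∑ j, m j * x j) * (x i₀ * T b0 c0 - x b0 * T i₀ c0 + x c0 * T i₀ b0) = 0 := by
    linear_combination x i₀ * h5 b0 c0 - x b0 * h5 i₀ c0 + x c0 * h5 i₀ b0
  rw [hT0, hT0, h.one] at h7
  have h8 := (mul_eq_zero.1 h7).resolve_left h4
  linear_combination h8

end Pool.Agent.Helper74.BP
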