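import Pool.Agent.Helper74.BP.Defs
import Pool.Agent.Helper74.Q8.KerRat

/-!
# BP-LINES: points on a rational line

Adapt `Helper6/QS/Line.lean` (`line_mem`, `line_mem_G`) and `Helper74/Q8/Lines6.lean`. There may be
lines in the hypersurface, so the hypothesis is `¬ LineIn a x`.
`form_line`: a form of degree `n` vanishing at `u + j v` for all `j : ℕ` vanishes on the line
(`lineP`, `lineP_eval`: infinitely many zeros; for the point `v` itself: `T ↦ form (T u + v)` is a
polynomial which vanishes at all `T ≠ 0`).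
`line_or`: as in `line_mem`, `u_l = P_lβ / P_(i₀ β)`, `v_l = P_(i₀ l) / P_(i₀ β)` are rational and
`x = u + x_β v`. If `F(u + n v) = 0` for all `n : ℕ`, then the line is contained in the hypersurface
(`LineIn`, the points `s x + t y` are combinations of `u, v`). So `x_β` is algebraic over `B`
(`line_alg`, `rat_alg`).
`ratO_line`: if the span of the rational vectors orthogonal to `x` has dimension at least
`card σ - 2`, choose a rational basis of it (a spanning set contains a basis): `x` is in a rational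
subspace of dimension at most 2 (`ker_rat`: spanned by rational vectors): `two_line`.
-/

set_option autoImplicit false

namespace Pool.Agent.Helper74.BP

open scoped BigOperators
open MvPolynomial
open Pool.Agent.Helper8.LG (Bdd form mon)
open Pool.Agent.Helper49.LN (cP mo hf pl)
open Pool.Agent.Helper6.QS
open Pool.Agent.Helper74.Q8 (dl rr)

variable {Ω : Type*} [Field Ω] [CharZero Ω] {σ : Type*} [Fintype σ] [DecidableEq σ] {q : ℕ}

/-- a multiple of a rational vector with a coordinate `1` is rational -/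
theorem Lines_mul {Ω : Type*} [Field Ω] {σ : Type*} {B : Subfield Ω} {x z : σ → Ω} {i₀ : σ}
    (hx1 : x i₀ = 1) (hz : ∀ i, z i ∈ B) (β : Ω) (h : ∀ i, x i = β * z i) : ∀ i, x i ∈ B := by
  have h1 : β * z i₀ = 1 := by rw [← h, hx1]
  have h2 : z i₀ ≠ 0 := by
    intro h0
    rw [h0, mul_zero] at h1
    exact zero_ne_one h1
  have h3 : β = (z i₀)⁻¹ := eq_inv_of_mul_eq_one_left h1
  intro i
  rw [h i, h3]
  exact B.mul_mem (B.inv_mem (hz i₀)) (hz i)

/-- the space of solutions of at least `card σ - 2` independent equations -/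
theorem Lines_span {Ω : Type*} [Field Ω] {σ : Type*} [Fintype σ] {m : ℕ}
    (hm : Fintype.card σ ≤ m + 2) (k : Fin m → σ → Ω) (hk : LinearIndependent Ω k)
    (z z' : σ → Ω) (hz : ∀ i, ∑ j, z j * k i j = 0) (hz' : ∀ i, ∑ j, z' j * k i j = 0)
    (hzz : LinearIndependent Ω ![z, z']) (x : σ → Ω) (hx : ∀ i, ∑ j, x j * k i j = 0) :
    ∃ α β : Ω, x = α • z + β • z' := by
  classical
  set K : Matrix (Fin m) σ Ω := Matrix.of k with hK
  have hrank : K.rank = m := by
    have h1 := LinearIndependent.rank_matrix (M := K) hk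
    rwa [Fintype.card_fin] at h1
  have hmem : ∀ y : σ → Ω, (∀ i, ∑ j, y j * k i j = 0) → y ∈ LinearMap.ker K.mulVecLin := by
    intro y hy
    rw [LinearMap.mem_ker, Matrix.mulVecLin_apply]
    funext i
    rw [Pi.zero_apply, ← hy i]
    show ∑ j, k i j * y j = _
    exact Finset.sum_congr rfl fun j _ => mul_comm _ _
  have hker : Module.finrank Ω (LinearMap.ker K.mulVecLin) ≤ 2 := by
    have h1 := LinearMap.finrank_range_add_finrank_ker K.mulVecLin
    have h2 : Module.finrank Ω (LinearMap.range K.mulVecLin) = m := hrank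
    rw [h2, Module.finrank_fintype_fun_eq_card] at h1
    omega
  have hle : Submodule.span Ω (Set.range ![z, z']) ≤ LinearMap.ker K.mulVecLin := by
    rw [Submodule.span_le]
    rintro _ ⟨i, rfl⟩
    fin_cases i
    · exact hmem z hz
    · exact hmem z' hz'
  have heq : Submodule.span Ω (Set.range ![z, z']) = LinearMap.ker K.mulVecLin := by
    apply Submodule.eq_of_le_of_finrank_le hle
    rw [finrank_span_eq_card hzz, Fintype.card_fin]
    exact hker
  have h3 := hmem x hx
  rw [← heq, Matrix.range_cons, Matrix.range_cons, Matrix.range_empty, Set.union_empty,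
    Set.singleton_union, Submodule.mem_span_pair] at h3
  obtain ⟨α, β, h4⟩ := h3
  exact ⟨α, β, h4.symm⟩

omit [CharZero Ω] in
/-- a form which vanishes at infinitely many points `p + z r` vanishes at all of them -/
theorem Lines_zero (a : Sym σ q → Ω) (p r : σ → Ω) (S : Set Ω) (hS : S.Infinite)
    (h : ∀ z ∈ S, form a (fun l => p l + z * r l) = 0) (z : Ω) :
    form a (fun l => p l + z * r l) = 0 := by
  have h0 : Pool.Agent.Helper49.LG.lineP a p r = 0 := by
    refine Polynomial.eq_zero_of_infinite_isRoot _ (hS.mono fun w hw => ?_)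
    show (Pool.Agent.Helper49.LG.lineP a p r).eval w = 0
    rw [Pool.Agent.Helper49.LG.lineP_eval]
    exact h w hw
  rw [← Pool.Agent.Helper49.LG.lineP_eval, h0, Polynomial.eval_zero]

omit [CharZero Ω] in
/-- homogeneity -/
theorem Lines_smul (a : Sym σ q → Ω) (c : Ω) (p : σ → Ω) :
    form a (fun l => c * p l) = c ^ q * form a p := by
  have h := Pool.Agent.Helper49.LG.form_mul (1 : Ω) c a p
  simp only [one_mul] at h
  exact h

theorem form_line (a : Sym σ q → Ω) (u v : σ → Ω)
    (h : ∀ j : ℕ, form a (fun l => u l + j * v l) = 0) (s t : Ω) :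
    form a (fun l => s * u l + t * v l) = 0 := by
  have h1 : ∀ z : Ω, form a (fun l => u l + z * v l) = 0 := by
    refine Lines_zero a u v (Set.range fun j : ℕ => (j : Ω))
      (Set.infinite_range_of_injective Nat.cast_injective) ?_
    rintro _ ⟨j, rfl⟩
    exact h j
  have h2 : ∀ s t : Ω, s ≠ 0 → form a (fun l => s * u l + t * v l) = 0 := by
    intro s t hs
    have h3 : (fun l => s * u l + t * v l) = fun l => s * (u l + t / s * v l) := by
      funext l
      field_simp
    rw [h3, Lines_smul a s (fun l => u l + t / s * v l), h1, mul_zero]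
  have h4 := Lines_zero a (fun l => t * v l) u {z : Ω | z ≠ 0} ?_ (fun z hz => ?_) s
  · have h5 : (fun l => s * u l + t * v l) = fun l => t * v l + s * u l := by
      funext l
      exact add_comm _ _
    rw [h5]
    exact h4
  · exact (Set.finite_singleton (0 : Ω)).infinite_compl
  · have h5 : (fun l => t * v l + z * u l) = fun l => z * u l + t * v l := by
      funext l
      exact add_comm _ _
    show form a (fun l => t * v l + z * u l) = 0
    rw [h5]
    exact h2 z t hz

variable {D : Sym σ q → Derivation ℤ Ω Ω} {a : Sym σ q → Ω} {B : Subfield Ω}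

theorem line_or (hB : Frame D a B) (x : σ → Ω) (i₀ : σ) (hx : x i₀ = 1) (hF : form a x = 0)
    (hnl : ¬ LineIn a x) (y : σ → Ω) (hy : ∃ j l, pl x y j l ≠ 0)
    (hyB : ∀ j l, pl x y j l ∈ B) : ∀ l, x l ∈ B := by
  obtain ⟨β, hβ⟩ : ∃ β, pl x y i₀ β ≠ 0 := by
    by_contra hcon
    push Not at hcon
    obtain ⟨j, l, hjl⟩ := hy
    apply hjl
    have h1 : ∀ l, y l = x l * y i₀ := fun l => by
      have h2 := hcon l
      unfold pl at h2
      rw [hx, one_mul] at h2
      exact sub_eq_zero.1 h2
    unfold pl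
    rw [h1 j, h1 l]
    ring
  set u : σ → Ω := fun l => pl x y l β / pl x y i₀ β with hu
  set v : σ → Ω := fun l => pl x y i₀ l / pl x y i₀ β with hv
  have hxuv : ∀ l, x l = u l + x β * v l := by
    intro l
    rw [hu, hv]
    simp only
    field_simp
    unfold pl
    rw [hx]
    ring
  have hu1 : u i₀ = 1 := div_self hβ
  have hv0 : v i₀ = 0 := by
    change pl x y i₀ i₀ / _ = 0
    unfold pl
    simp
  have hv1 : v β = 1 := div_self hβ
  have huB : ∀ l, u l ∈ B := fun l => div_mem (hyB l β) (hyB i₀ β)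
  have hvB : ∀ l, v l ∈ B := fun l => div_mem (hyB i₀ l) (hyB i₀ β)
  obtain ⟨n, hn⟩ : ∃ n : ℕ, form a (fun l => u l + n * v l) ≠ 0 := by
    by_contra hcon
    push Not at hcon
    apply hnl
    refine ⟨v, ⟨i₀, β, ?_⟩, fun s t => ?_⟩
    · unfold pl
      rw [hx, hv0, hv1, mul_zero, sub_zero, one_mul]
      exact one_ne_zero
    · have h1 := form_line a u v hcon s (s * x β + t)
      have h2 : (fun l => s * x l + t * v l) = fun l => s * u l + (s * x β + t) * v l := by
        funext l
        have h3 := hxuv l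
        linear_combination s * h3
      rw [h2]
      exact h1
  have hxβ : x β ∈ B := by
    refine rat_alg hB (x β) (line_alg hB.mem u v huB hvB n hn (x β) ?_)
    have h1 : (fun l => u l + x β * v l) = x := funext fun l => (hxuv l).symm
    rw [h1]
    exact hF
  intro l
  rw [hxuv l]
  exact add_mem (huB l) (mul_mem hxβ (hvB l))

/-- the same if the Plücker coordinates are bounded after multiplication by `G` -/
theorem line_or_G (hB : Frame D a B) (x : σ → Ω) (i₀ : σ) (hx : x i₀ = 1) (hF : form a x = 0)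
    (hnl : ¬ LineIn a x) (y : σ → Ω) (hy : ∃ j l, pl x y j l ≠ 0) (G : Ω) (hG : G ≠ 0) (M : ℕ)
    (h : ∀ (O : ValuationSubring Ω) (Δ : Ω), Bdd D Δ O →
      ∀ m, x m ≠ 0 → (∀ l, x l / x m ∈ O) → ∀ j l, Δ ^ M * (G * pl x y j l) ∈ O) :
    ∀ l, x l ∈ B := by
  have hpl : ∀ j l, pl x (fun l => G * y l) j l = G * pl x y j l := by
    intro j l
    unfold pl
    ring
  refine line_or hB x i₀ hx hF hnl (fun l => G * y l) ?_ fun j l => ?_
  · obtain ⟨j, l, hjl⟩ := hy
    exact ⟨j, l, by rw [hpl]; exact mul_ne_zero hG hjl⟩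
  · rw [hpl]
    exact rat_max hB x i₀ hx ∅ (fun b hb => absurd hb (Finset.notMem_empty b)) _ M
      fun O Δ hO _ m hm hl => h O Δ hO m hm hl j l

theorem two_line (hB : Frame D a B) (x : σ → Ω) (i₀ : σ) (hx : x i₀ = 1) (hF : form a x = 0)
    (hnl : ¬ LineIn a x) (z z' : σ → Ω) (hz : ∀ i, z i ∈ B) (hz' : ∀ i, z' i ∈ B) (α β : Ω)
    (hxz : x = α • z + β • z') : ∀ i, x i ∈ B := by
  have hxi : ∀ i, x i = α * z i + β * z' i := by
    intro i
    conv_lhs => rw [hxz]
    rfl
  by_cases hα : α = 0
  · refine Lines_mul hx hz' β fun i => ?_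
    rw [hxi i, hα, zero_mul, zero_add]
  by_cases hpl : ∃ j l, pl z z' j l ≠ 0
  · have hy : ∀ j l, pl x (α⁻¹ • z') j l = pl z z' j l := by
      intro j l
      unfold pl
      rw [hxi j, hxi l, Pi.smul_apply, Pi.smul_apply, smul_eq_mul, smul_eq_mul]
      field_simp
      ring
    refine line_or hB x i₀ hx hF hnl (α⁻¹ • z') ?_ ?_
    · obtain ⟨j, l, hjl⟩ := hpl
      exact ⟨j, l, by rw [hy]; exact hjl⟩
    · intro j l
      rw [hy]
      unfold pl
      exact B.sub_mem (B.mul_mem (hz _) (hz' _)) (B.mul_mem (hz _) (hz' _))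
  · push Not at hpl
    have hp : ∀ j l, z j * z' l = z l * z' j := by
      intro j l
      have h1 := hpl j l
      unfold pl at h1
      exact sub_eq_zero.1 h1
    have h0 : α * z i₀ + β * z' i₀ = 1 := by rw [← hxi, hx]
    by_cases hz0 : z i₀ = 0
    · have hz0' : z' i₀ ≠ 0 := by
        intro h1
        rw [hz0, h1, mul_zero, mul_zero, add_zero] at h0
        exact zero_ne_one h0
      refine Lines_mul hx hz' (z' i₀)⁻¹ fun i => ?_
      have h1 := hp i₀ i
      rw [hxi i]
      field_simp
      linear_combination (-α) * h1 + z' i * h0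
    · refine Lines_mul hx hz (z i₀)⁻¹ fun i => ?_
      have h1 := hp i₀ i
      rw [hxi i]
      field_simp
      linear_combination β * h1 + z i * h0

/-- `card σ - 2` independent rational linear forms vanish at `x` -/
theorem many_line (hB : Frame D a B) (x : σ → Ω) (i₀ : σ) (hx : x i₀ = 1) (hF : form a x = 0)
    (hnl : ¬ LineIn a x) {m : ℕ} (hm : Fintype.card σ ≤ m + 2) (k : Fin m → σ → Ω)
    (hkB : ∀ i j, k i j ∈ B) (hkx : ∀ i, dt (k i) x = 0) (hk : LinearIndependent Ω k) :
    ∀ i, x i ∈ B := by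
  have hx' : ∀ i, ∑ j, x j * k i j = 0 := by
    intro i
    rw [← hkx i]
    unfold dt
    exact Finset.sum_congr rfl fun j _ => mul_comm _ _
  have hspan := Pool.Agent.Helper74.Q8.ker_rat B k hkB x hx'
  by_cases hcase : ∃ z z' : σ → Ω, ((∀ j, z j ∈ B) ∧ ∀ i, ∑ j, z j * k i j = 0) ∧
      ((∀ j, z' j ∈ B) ∧ ∀ i, ∑ j, z' j * k i j = 0) ∧ LinearIndependent Ω ![z, z']
  · obtain ⟨z, z', h1, h2, h3⟩ := hcase
    obtain ⟨α, β, h4⟩ := Lines_span hm k hk z z' h1.2 h2.2 h3 x hx'
    exact two_line hB x i₀ hx hF hnl z z' h1.1 h2.1 α β h4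
  · push Not at hcase
    obtain ⟨z, hzS, hz0⟩ : ∃ z : σ → Ω, ((∀ j, z j ∈ B) ∧ ∀ i, ∑ j, z j * k i j = 0) ∧
        z ≠ 0 := by
      by_contra hcon
      push Not at hcon
      have h1 : Submodule.span Ω {m : σ → Ω | (∀ j, m j ∈ B) ∧ ∀ i, ∑ j, m j * k i j = 0} ≤
          ⊥ := by
        rw [Submodule.span_le]
        intro m hm
        exact (Submodule.mem_bot Ω).2 (hcon m hm)
      have h2 := h1 hspan
      rw [Submodule.mem_bot] at h2
      rw [h2] at hx
      exact zero_ne_one hx
    have h1 : Submodule.span Ω {m : σ → Ω | (∀ j, m j ∈ B) ∧ ∀ i, ∑ j, m j * k i j = 0} ≤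
        Submodule.span Ω {z} := by
      rw [Submodule.span_le]
      intro m hm
      have h2 := hcase z m hzS hm
      rw [LinearIndependent.pair_iff' hz0] at h2
      push Not at h2
      obtain ⟨c, hc⟩ := h2
      exact Submodule.mem_span_singleton.2 ⟨c, hc⟩
    obtain ⟨c, hc⟩ := Submodule.mem_span_singleton.1 (h1 hspan)
    refine two_line hB x i₀ hx hF hnl z z hzS.1 hzS.1 c 0 ?_
    rw [zero_smul, add_zero, hc]

theorem ratO_line (hB : Frame D a B) (x : σ → Ω) (i₀ : σ) (hx : x i₀ = 1) (hF : form a x = 0)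
    (hnl : ¬ LineIn a x) (hm : Fintype.card σ ≤ Module.finrank Ω (RatO B x) + 2) :
    ∀ i, x i ∈ B := by
  obtain ⟨b, hbS, hbs, hbi⟩ := exists_linearIndependent Ω
    {m : σ → Ω | (∀ j, m j ∈ B) ∧ dt m x = 0}
  have hfin : Finite b := hbi.finite
  have hcard : Nat.card b = Module.finrank Ω (RatO B x) := by
    have h1 : RatO B x = Submodule.span Ω (Set.range (Subtype.val : b → σ → Ω)) := by
      rw [Subtype.range_coe, hbs]
      rfl
    rw [h1]
    have : Fintype b := Fintype.ofFinite b
    rw [finrank_span_eq_card hbi, Nat.card_eq_fintype_card]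
  let e : Fin (Nat.card b) ≃ b := (Finite.equivFin b).symm
  refine many_line hB x i₀ hx hF hnl (m := Nat.card b) (by rw [hcard]; exact hm)
    (fun i => (e i).1) (fun i j => (hbS (e i).2).1 j) (fun i => (hbS (e i).2).2) ?_
  exact hbi.comp e e.injective

end Pool.Agent.Helper74.BP
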