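import Pool.Agent.Helper74.BP.KeyDef
import Pool.Agent.Helper74.BP.Lines
import Pool.Agent.Helper74.LN.UltraP

/-!
# BP-LINEUL: lines in the hypersurface and extensions of fields, ultrapowers

`lineIn_of`: it is enough that the form vanishes at `x + j y` for all `j ≤ q`, `j : ℕ` (then at all
points `x + T y`: a polynomial of degree at most `q` with `q + 1` zeros; `form_line`).
`lineIn_ul`: let `y` be a line through the point of the ultrapower, `y_l = Q (Y l)` (`hQ`). For almost
all `m`: some Plücker coordinate of `X m` and `Y . m` is not zero (finitely many pairs), and the form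
vanishes at `X m + j Y . m`, `j ≤ q` (`ul_Q_form`, `hker`): `LineIn a (X m)`, a contradiction.
-/

set_option autoImplicit false

namespace Pool.Agent.Helper74.BP

open scoped BigOperators
open MvPolynomial
open Pool.Agent.Helper8.LG
open Pool.Agent.Helper49.LN (cP mo hf pl)
open Pool.Agent.Helper6.QS

section aux

variable {L : Type*} [Field L] {σ : Type*} [Fintype σ] [DecidableEq σ] {q : ℕ}

theorem ulP_smul (a : Sym σ q → L) (c : L) (x : σ → L) :
    form a (fun l => c * x l) = c ^ q * form a x := by
  unfold form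
  rw [Finset.mul_sum]
  refine Finset.sum_congr rfl fun J _ => ?_
  have h : mon (fun l => c * x l) J = c ^ q * mon x J := by
    unfold mon
    rw [Multiset.prod_map_mul, Multiset.map_const', Multiset.prod_replicate, Sym.card_coe]
  rw [h]
  ring

/-- the form on a line, as a polynomial of the parameter -/
noncomputable def ulP (a : Sym σ q → L) (u v : σ → L) : Polynomial L :=
  form (fun J => Polynomial.C (a J)) fun l => Polynomial.C (u l) + Polynomial.X * Polynomial.C (v l)

theorem ulP_eval (a : Sym σ q → L) (u v : σ → L) (z : L) :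
    (ulP a u v).eval z = form a fun l => u l + z * v l := by
  have h := ul_map_form (Polynomial.evalRingHom z) (fun J => Polynomial.C (a J))
    (fun l => Polynomial.C (u l) + Polynomial.X * Polynomial.C (v l))
  simp only [Polynomial.coe_evalRingHom, Polynomial.eval_add, Polynomial.eval_mul,
    Polynomial.eval_C, Polynomial.eval_X] at h
  exact h

theorem ulP_natDegree (a : Sym σ q → L) (u v : σ → L) : (ulP a u v).natDegree ≤ q := by
  unfold ulP form
  refine Polynomial.natDegree_sum_le_of_forall_le _ _ fun J _ => ?_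
  refine (Polynomial.natDegree_C_mul_le _ _).trans ?_
  unfold mon
  refine (Polynomial.natDegree_multiset_prod_le _).trans ?_
  refine (Multiset.sum_le_card_nsmul _ 1 ?_).trans ?_
  · intro n hn
    rw [Multiset.mem_map] at hn
    obtain ⟨P, hP, rfl⟩ := hn
    rw [Multiset.mem_map] at hP
    obtain ⟨l, _, rfl⟩ := hP
    refine (Polynomial.natDegree_add_le _ _).trans (max_le ?_ ?_)
    · rw [Polynomial.natDegree_C]
      exact Nat.zero_le _
    · refine Polynomial.natDegree_mul_le.trans ?_
      rw [Polynomial.natDegree_C, add_zero]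
      exact Polynomial.natDegree_X_le
  · rw [Multiset.card_map, Multiset.card_map, Sym.card_coe, smul_eq_mul, mul_one]

theorem ulP_zero [CharZero L] (a : Sym σ q → L) (u v : σ → L) (k : ℕ)
    (h : ∀ j : ℕ, j ≤ q → form a (fun l => u l + ((j + k : ℕ) : L) * v l) = 0) (z : L) :
    form a (fun l => u l + z * v l) = 0 := by
  have h0 : ulP a u v = 0 := by
    refine Polynomial.eq_zero_of_natDegree_lt_card_of_eval_eq_zero (ulP a u v)
      (f := fun i : Fin (q + 1) => (((i : ℕ) + k : ℕ) : L)) ?_ ?_ ?_
    · intro i j hij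
      have h1 := Nat.cast_injective hij
      exact Fin.ext (by omega)
    · intro i
      rw [ulP_eval]
      exact h i (Nat.lt_succ_iff.1 i.2)
    · rw [Fintype.card_fin]
      exact Nat.lt_succ_of_le (ulP_natDegree a u v)
  rw [← ulP_eval, h0, Polynomial.eval_zero]

end aux

theorem lineIn_of {L : Type*} [Field L] [CharZero L] {σ : Type*} [Fintype σ] [DecidableEq σ]
    {q : ℕ} {a : Sym σ q → L} {x y : σ → L} (hy : ∃ j l, pl x y j l ≠ 0)
    (h : ∀ j : ℕ, j ≤ q → form a (fun l => x l + j * y l) = 0) : LineIn a x := by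
  have h1 : ∀ z : L, form a (fun l => x l + z * y l) = 0 := ulP_zero a x y 0 h
  have h2 : ∀ z : L, z ≠ 0 → form a (fun l => y l + z * x l) = 0 := by
    intro z hz
    have e : (fun l => y l + z * x l) = fun l => z * (x l + z⁻¹ * y l) := by
      funext l
      field_simp
      ring
    rw [e, ulP_smul, h1, mul_zero]
  have h3 : form a y = 0 := by
    have h4 := ulP_zero a y x 1 (fun j _ => h2 _ (Nat.cast_ne_zero.2 (Nat.succ_ne_zero j))) 0
    have e : (fun l => y l + 0 * x l) = y := by
      funext l
      ring
    rwa [e] at h4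
  refine ⟨y, hy, fun s t => ?_⟩
  by_cases hs : s = 0
  · have e : (fun l => s * x l + t * y l) = fun l => t * y l := by
      funext l
      rw [hs]
      ring
    rw [e, ulP_smul, h3, mul_zero]
  · have e : (fun l => s * x l + t * y l) = fun l => s * (x l + (t / s) * y l) := by
      funext l
      field_simp
    rw [e, ulP_smul, h1, mul_zero]

theorem LineIn.map {L E : Type*} [Field L] [Field E] [CharZero E] {σ : Type*} [Fintype σ]
    [DecidableEq σ] {q : ℕ} {a : Sym σ q → L} {x : σ → L} (h : LineIn a x) (f : L →+* E) :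
    LineIn (fun J => f (a J)) (fun l => f (x l)) := by
  obtain ⟨y, ⟨j, l, hjl⟩, hF⟩ := h
  refine lineIn_of (y := fun l => f (y l)) ⟨j, l, ?_⟩ fun n _ => ?_
  · have h1 : pl (fun l => f (x l)) (fun l => f (y l)) j l = f (pl x y j l) := by
      unfold pl
      simp only [map_sub, map_mul]
    rw [h1]
    exact (map_ne_zero f).2 hjl
  · have h2 := hF 1 n
    have h3 : (fun l => f (x l) + (n : E) * f (y l)) =
        fun l => f (1 * x l + (n : L) * y l) := by
      funext l
      simp
    rw [h3, ← ul_map_form f, h2, map_zero]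

theorem lineIn_ul {L Ω : Type*} [Field L] [CharZero L] [Field Ω] (Q : (ℕ → L) →+* Ω)
    (hQ : Function.Surjective Q)
    (hker : ∀ f, Q f = 0 ↔ ∀ᶠ m in (Filter.hyperfilter ℕ : Filter ℕ), f m = 0)
    {σ : Type*} [Fintype σ] [DecidableEq σ] {q : ℕ} (a : Sym σ q → L) (X : ℕ → σ → L)
    (hnl : ∀ m, ¬ LineIn a (X m)) :
    ¬ LineIn (fun J => Q fun _ => a J) (fun l => Q fun m => X m l) := by
  rintro ⟨y, ⟨j, l, hjl⟩, hF⟩
  choose Y hY using fun l => hQ (y l)
  have h1 : ∀ᶠ m in (Filter.hyperfilter ℕ : Filter ℕ),
      ¬ (pl (X m) (fun l => Y l m) j l = 0) := by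
    rw [Ultrafilter.eventually_not]
    intro h
    refine hjl ?_
    have h2 := (hker fun m => pl (X m) (fun l => Y l m) j l).2 h
    rw [← h2]
    unfold pl
    rw [← hY j, ← hY l, ← map_mul, ← map_mul, ← map_sub]
    rfl
  have h2 : ∀ n ∈ Finset.range (q + 1), ∀ᶠ m in (Filter.hyperfilter ℕ : Filter ℕ),
      form a (fun l => X m l + (n : L) * Y l m) = 0 := by
    intro n _
    rw [← hker fun m => form a (fun l => X m l + (n : L) * Y l m), ul_Q_form Q a
      (fun m l => X m l + (n : L) * Y l m)]
    have h3 := hF 1 n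
    rw [← h3]
    congr 1
    funext l
    rw [one_mul, ← hY l]
    have e : (fun m => X m l + (n : L) * Y l m) = (fun m => X m l) + (n : ℕ → L) * Y l := rfl
    rw [e, map_add, map_mul, map_natCast]
  have h3 := (Filter.eventually_all_finset (Finset.range (q + 1))).2 h2
  obtain ⟨m, h4, h5⟩ := (h1.and h3).exists
  exact hnl m (lineIn_of ⟨j, l, h4⟩ fun n hn => h5 n (Finset.mem_range.2 (Nat.lt_succ_of_le hn)))

end Pool.Agent.Helper74.BP
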