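import Pool.Agent.Helper6.QS.MainC
import Pool.Agent.Helper6.QS.MainE

/-!
# BP-MAINK: the points of the hypersurface, over schemes, for any integral base

`B` is any integral scheme whose function field is finitely generated over `k₀` (for instance the
spectrum of the field: then the sections are the rational points).
-/

set_option autoImplicit false

open AlgebraicGeometry CategoryTheory CategoryTheory.Limits MvPolynomial

namespace Pool.Agent.Helper74.BP

open Pool.Agent.Helper10.LN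

open scoped BigOperators LinearAlgebra.Projectivization
open Pool.Agent.Helper8.LG hiding coeffField
open Pool.Agent.Helper8.LV (pull)
open Pool.Agent.Helper10.LB
open Pool.Agent.Helper6.QS (FinC eng_cN eng_e)

universe u v

set_option maxHeartbeats 400000 in
/-- the closed case for any integral base -/
theorem lines_K (B : Scheme.{u}) [IsIntegral B]
    (U : Scheme.{u}) (π : U ⟶ B) [IsSeparated π] [LocallyOfFiniteType π] [QuasiCompact π]
    {N : ℕ} (F : MvPolynomial (Fin (N + 1)) B.functionField)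
    (f : genFib π ⟶ PN N B.functionField) (hf : f ≫ PN.toSpec N _ = pullback.snd _ _)
    [LocallyQuasiFinite f]
    (M : Type v) [Field M] [Algebra B.functionField M] (g : GL (Fin (N + 1)) M)
    (F' : MvPolynomial (Fin (N + 1)) M) (hF' : F' = subst (g : Matrix _ _ M) F)
    (Q' : (Fin (N + 1) → M) → Prop) (X : Prop)
    (hfin : ∃ Λ' : Set (Submodule M (Fin (N + 1) → M)),
      Λ'.Finite ∧ (∀ W' ∈ Λ', Module.finrank M W' ≤ 2 ∧
        (∀ y ∈ W', eval y F' = 0) ∧ X) ∧ ∀ i₀ : Fin (N + 1),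
        {y : Fin (N + 1) → M | y i₀ = 1 ∧ Q' y ∧ (∀ W' ∈ Λ', y ∉ W')}.Finite)
    (Q : (Fin (N + 1) → B.functionField) → Prop)
    (hQ : ∀ x, Q x → ∀ i₀,
      (g⁻¹ : GL (Fin (N + 1)) M).1.mulVec (fun l => algebraMap B.functionField M (x l)) i₀ ≠ 0 →
      Q' fun i => (g⁻¹ : GL (Fin (N + 1)) M).1.mulVec
        (fun l => algebraMap B.functionField M (x l)) i /
          (g⁻¹ : GL (Fin (N + 1)) M).1.mulVec
            (fun l => algebraMap B.functionField M (x l)) i₀) :
    ∃ Λ : Set (Submodule B.functionField (Fin (N + 1) → B.functionField)), Λ.Finite ∧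
      (∀ W ∈ Λ, Module.finrank B.functionField W = 2 ∧ (∀ x ∈ W, eval x F = 0) ∧ X) ∧
      {σ : B ⟶ U | ∃ hσ : σ ≫ π = 𝟙 B, ∀ (t : Spec B.functionField)
        (x : Fin (N + 1) → B.functionField), IsCoord (f (genPt π σ hσ t)) x →
          Q x ∧ ∀ W ∈ Λ, x ∉ W}.Finite := by
  classical
  obtain ⟨_, ⟨V, hV, rfl⟩, hmem, -⟩ :=
    B.isBasis_affineOpens.exists_subset_of_mem_open (Set.mem_univ (genericPoint B)) isOpen_univ
  have hV' : IsAffineOpen V := hV
  have hne : Nonempty V := ⟨⟨_, hmem⟩⟩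
  refine lines_closed (κ := B.functionField) V hV' ⊤ ?_ (fun _ => Algebra.mem_top) π F f hf M g
    F' hF' Q' X hfin Q hQ
  exact ⟨∅, by
    rw [Finset.coe_empty, Algebra.adjoin_empty]
    exact (Subalgebra.bot_eq_top_of_finrank_eq_one (Module.finrank_self _))⟩

set_option maxHeartbeats 400000 in
/-- **The points of the hypersurface.** -/
theorem main_z (B : Scheme.{u}) [IsIntegral B] [CharZero B.functionField]
    (U : Scheme.{u}) (π : U ⟶ B) [IsSeparated π] [LocallyOfFiniteType π] [QuasiCompact π]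
    {N n : ℕ} (d q : ℕ) (b : Fin n → ℕ) (hb : ∀ j, b j + q ≤ d)
    (F : MvPolynomial (Fin (N + 1)) B.functionField) (hF : F.IsHomogeneous d)
    (f : genFib π ⟶ PN N B.functionField) (hf : f ≫ PN.toSpec N _ = pullback.snd _ _)
    [LocallyQuasiFinite f] (Cl S : Prop) (hCl : Cl)
    (k₀ : Subfield B.functionField) (hK : (⊤ : IntermediateField k₀ B.functionField).FG)
    (M : Type v) [Field M] [Algebra B.functionField M]
    (hM : (⊤ : IntermediateField B.functionField M).FG) (g : GL (Fin (N + 1)) M)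
    (A : MvPolynomial (Fin (N + 1)) k₀) (hA : A.IsHomogeneous d)
    (P : Fin n → MvPolynomial (Fin (N + 1)) k₀) (hP : ∀ j, (P j).IsHomogeneous (b j))
    (H : Fin n → MvPolynomial (Fin (N + 1)) M) (hH : ∀ j, (H j).IsHomogeneous (d - b j))
    (hFA : subst (g : Matrix _ _ M) F =
      map (algebraMap k₀ M) A + ∑ j, map (algebraMap k₀ M) (P j) * H j) (w c : ℕ)
    (hcoef : ((∑ j, (N + (d - b j)).choose N : ℕ) : Cardinal) ≤
      Algebra.trdeg k₀ (IntermediateField.adjoin k₀ {z | ∃ j J, z = coeff J (H j)}) + c)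
    (hnum : ((w = N ∨ 2 * N + w + c + 55 ≤ 10 * q) ∧ 3 * w + 3 + c ≤ 2 * q ∧
        6 * N + 2 * c ≤ (q - 2) * (q - 1)) ∨ (n = 1 ∧ d = q ∧ c = 0 ∧ FinC.{v, u} N q) ∨
        (n = 1 ∧ d = q ∧ c = 0 ∧ S ∧ N = 4 ∧ q = 6)) :
    ∃ Λ : Set (Submodule B.functionField (Fin (N + 1) → B.functionField)), Λ.Finite ∧
      (∀ W ∈ Λ, Module.finrank B.functionField W = 2 ∧ (∀ x ∈ W, eval x F = 0) ∧
        q + 2 < 2 * N + c) ∧
      {σ : B ⟶ U | ∃ hσ : σ ≫ π = 𝟙 B, ∀ (t : Spec B.functionField)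
        (x : Fin (N + 1) → B.functionField), IsCoord (f (genPt π σ hσ t)) x →
          (CondN Cl F g P w x ∧ (S → ∃ i j, ¬ IsAlgebraic
            (IntermediateField.adjoin k₀ {z | ∃ j J, z = coeff J (H j)})
            (pull g x i / pull g x j))) ∧ ∀ W ∈ Λ, x ∉ W}.Finite := by
  classical
  have : CharZero M :=
    charZero_of_injective_algebraMap (algebraMap B.functionField M).injective
  obtain ⟨F', hFF'⟩ : ∃ F' : MvPolynomial (Fin (N + 1)) M, F' = subst (g : Matrix _ _ M) F :=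
    ⟨_, rfl⟩
  have hF' : F'.IsHomogeneous d := by
    rw [hFF']
    exact subst_hom _ _ hF
  rw [← hFF'] at hFA
  have hfg : (⊤ : IntermediateField k₀ M).FG := wrap_fg_trans hK hM
  obtain ⟨E, hE⟩ : ∃ E : IntermediateField k₀ M,
    E = IntermediateField.adjoin k₀ {z | ∃ j J, z = coeff J (H j)} := ⟨_, rfl⟩
  refine lines_K B U π F f hf M g F' hFF'
    (fun y => CondN' Cl F' P w y ∧ (S → ¬ ∀ l, IsAlgebraic
      (IntermediateField.adjoin k₀ {z | ∃ j J, z = coeff J (H j)}) (y l)))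
    (q + 2 < 2 * N + c) ?_ (fun x => CondN Cl F g P w x ∧ (S → ∃ i j, ¬ IsAlgebraic
      (IntermediateField.adjoin k₀ {z | ∃ j J, z = coeff J (H j)})
      (pull g x i / pull g x j))) ?_
  · rcases hnum with ⟨n0, n1, n3⟩ | ⟨hn, hdq, hc, hFC⟩ | ⟨hn, hdq, hc, hS, hN, hq6⟩
    · obtain ⟨Λ', h1, h2, h3⟩ := Pool.Agent.Helper74.LN.eng_c hfg w d q b hb F' A hA P hP H hH hFA
        c hcoef n0 n1 n3 Cl hCl
      exact ⟨Λ', h1, h2, fun i₀ => (h3 i₀).subset fun y hy => ⟨hy.1, hy.2.1.1, hy.2.2⟩⟩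
    · have hcoef' := hcoef
      rw [hc, Nat.cast_zero, add_zero] at hcoef'
      obtain ⟨Λ', h1, h2, h3⟩ := eng_cN hfg hn w d q c b hb hdq hc hFC F' hF' A P hP H hFA
        hcoef' Cl hCl
      exact ⟨Λ', h1, h2, fun i₀ => (h3 i₀).subset fun y hy => ⟨hy.1, hy.2.1.1, hy.2.2⟩⟩
    · have hcoef' := hcoef
      rw [hc, Nat.cast_zero, add_zero] at hcoef'
      exact ⟨∅, Set.finite_empty, fun W h => absurd h (Set.notMem_empty _),
        fun i₀ => (eng_e hfg hn w d q b hb hdq hN hq6 F' hF' A P hP H hFA hcoef' Cl hCl i₀).subset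
          fun y hy => ⟨hy.1, hy.2.1.1, hy.2.1.2 hS⟩⟩
  · rintro x ⟨hx, hS⟩ i₀ h0
    refine ⟨?_, fun hs hall => ?_⟩
    · rw [hFF']
      exact condN Cl d b F hF g P hP w x hx i₀ h0
    · obtain ⟨i, j, hij⟩ := hS hs
      apply hij
      have h1 : pull g x i / pull g x j = (pull g x i / pull g x i₀) / (pull g x j / pull g x i₀) :=
        (div_div_div_cancel_right₀ h0 _ _).symm
      rw [h1, div_eq_mul_inv]
      exact (hall i).mul (hall j).inv

end Pool.Agent.Helper74.BP
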