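import Pool.Agent.Helper74.BP.KerDim
import Pool.Agent.Helper74.BP.KerSpan
import Pool.Agent.Helper74.BP.Lines

/-!
# BP-PLANEA: the rational plane through the point

If `dim (RatO B x) + 2 ≥ card σ`, `ratO_line`. All the kernels have dimension `card σ - 3` (`ker_dimB`)
and are contained in `RatO B x` (`ker_spanB`): so all of them are equal to `RatO B x`.
-/

set_option autoImplicit false

namespace Pool.Agent.Helper74.BP

open scoped BigOperators
open MvPolynomial
open Pool.Agent.Helper8.LG (Bdd form mon)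
open Pool.Agent.Helper49.LN (cP mo hf pl)
open Pool.Agent.Helper6.QS
open Pool.Agent.Helper74.Q8 (dl rr)

variable {Ω : Type*} [Field Ω] [CharZero Ω] {σ : Type*} [Fintype σ] [DecidableEq σ] {q b : ℕ}
  {e : Option (Option (Fin b × Fin 2)) ≃ σ} {D : Sym σ q → Derivation ℤ Ω Ω} {a : Sym σ q → Ω}
  {B : Subfield Ω} {i₀ : σ} {x n : σ → Ω}

/-- the kernel of a block modulo rational blocks: its dimension, and it is contained in `RatO` -/
theorem PlaneA_ker (h : PtB e D a B i₀ x n) (P : Fin b → MvPolynomial σ Ω)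
    (hP : ∀ p, RatP B (P p)) (c : Fin b × Fin 2 → σ)
    (hne : TB e D x i₀ P (fun r => rr x i₀ (c r)) ≠ 0) (p : Fin b) :
    Module.finrank Ω (KerB e D x i₀ P (fun r => rr x i₀ (c r)) p) + 3 = Fintype.card σ ∧
      KerB e D x i₀ P (fun r => rr x i₀ (c r)) p ≤ RatO B x := by
  have hne' : TU e D x i₀ P (fun r => rr x i₀ (c r)) p (rr x i₀ (c (p, 0)))
      (rr x i₀ (c (p, 1))) ≠ 0 := by
    rw [TU_eq e D x i₀ P (fun r => rr x i₀ (c r)) p]
    exact hne
  exact ⟨ker_dimB h P _ (fun r => rr_dtB x i₀ (c r)) p _ _ (rr_dtB x i₀ _) (rr_dtB x i₀ _) hne',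
    ker_spanB h P hP c p _ _ (rr_dtB x i₀ _) (rr_dtB x i₀ _) hne'⟩

theorem plane_a (h : PtB e D a B i₀ x n) (P : Fin b → MvPolynomial σ Ω)
    (hP : ∀ p, RatP B (P p)) (c : Fin b × Fin 2 → σ)
    (hne : TB e D x i₀ P (fun r => rr x i₀ (c r)) ≠ 0) :
    (∀ i, x i ∈ B) ∨ (Module.finrank Ω (RatO B x) + 3 = Fintype.card σ ∧
      ∀ P' : Fin b → MvPolynomial σ Ω, (∀ p, RatP B (P' p)) → ∀ c' : Fin b × Fin 2 → σ,
        TB e D x i₀ P' (fun r => rr x i₀ (c' r)) ≠ 0 → ∀ p,
        KerB e D x i₀ P' (fun r => rr x i₀ (c' r)) p = RatO B x) := by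
  by_cases hm : Fintype.card σ ≤ Module.finrank Ω (RatO B x) + 2
  · exact Or.inl (ratO_line h.frame x i₀ h.one h.zero h.nol hm)
  · right
    have hb := h.hb
    obtain ⟨h1, h2⟩ := PlaneA_ker h P hP c hne ⟨0, by omega⟩
    have h3 := Submodule.finrank_mono h2
    have h4 : Module.finrank Ω (RatO B x) + 3 = Fintype.card σ := by omega
    refine ⟨h4, fun P' hP' c' hne' p => ?_⟩
    obtain ⟨h5, h6⟩ := PlaneA_ker h P' hP' c' hne' p
    exact Submodule.eq_of_le_of_finrank_le h6 (by omega)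

end Pool.Agent.Helper74.BP
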