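import Pool.Agent.Helper74.BP.KerDim

/-!
# BP-PLANEB: a common complement of the kernel

Let `u = c (p0, 0)`, `v = c (p0, 1)` for one block `p0` (`b ≥ 2`). `rr x i₀ u`, `rr x i₀ v` are
independent modulo `RatO B x` (`= KerB .. p0`, and `TU .. p0 (rr u) (rr v) ≠ 0`: a combination in the
kernel is zero). For each other block `p` replace `c (p, 0), c (p, 1)` by `u, v`: `ker_ne` with
`KerB .. p = RatO B x`; one block at a time (induction on a finset of blocks, `TU_rr`), the
hypothesis `hall` is for all `c'`.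
-/

set_option autoImplicit false

namespace Pool.Agent.Helper74.BP

open scoped BigOperators
open MvPolynomial
open Pool.Agent.Helper8.LG (Bdd form mon)
open Pool.Agent.Helper49.LN (cP mo hf pl)
open Pool.Agent.Helper6.QS
open Pool.Agent.Helper74.Q8 (dl rr)

variable {Ω : Type*} [Field Ω] [CharZero Ω] {σ : Type*} [Fintype σ] [DecidableEq σ] {q b : ℕ}
  {e : Option (Option (Fin b × Fin 2)) ≃ σ} {D : Sym σ q → Derivation ℤ Ω Ω} {a : Sym σ q → Ω}
  {B : Subfield Ω} {i₀ : σ} {x n : σ → Ω}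

/-- the indices with the blocks of `S` replaced by `u`, `v` -/
def planeB_c {b : ℕ} {σ : Type*} (c : Fin b × Fin 2 → σ) (u v : σ) (S : Finset (Fin b))
    (r : Fin b × Fin 2) : σ :=
  if r.1 ∈ S then (if r.2 = 0 then u else v) else c r

omit [DecidableEq σ] [Fintype σ] in
theorem planeB_c_insert (c : Fin b × Fin 2 → σ) (u v : σ) (S : Finset (Fin b)) (p : Fin b) :
    Function.update (Function.update (planeB_c c u v S) (p, 0) u) (p, 1) v =
      planeB_c c u v (insert p S) := by
  funext r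
  obtain ⟨r1, r2⟩ := r
  unfold planeB_c
  by_cases h : r1 = p
  · subst h
    have hm : r1 ∈ insert r1 S := Finset.mem_insert_self r1 S
    have h01 : r2 = 0 ∨ r2 = 1 := by
      fin_cases r2
      · exact Or.inl rfl
      · exact Or.inr rfl
    rcases h01 with rfl | rfl
    · have hne : ((r1, (0 : Fin 2)) : Fin b × Fin 2) ≠ (r1, (1 : Fin 2)) := by
        intro h1
        have h2 : (0 : Fin 2) = 1 := congrArg Prod.snd h1
        exact absurd h2 (by decide)
      rw [Function.update_of_ne hne, Function.update_self, if_pos hm, if_pos rfl]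
    · have h10 : ¬ ((r1, (1 : Fin 2)) : Fin b × Fin 2).2 = 0 := by
        show ¬ ((1 : Fin 2) = 0)
        decide
      rw [Function.update_self, if_pos hm, if_neg h10]
  · have h1 : ((r1, r2) : Fin b × Fin 2) ≠ (p, 1) := fun h' => h (congrArg Prod.fst h')
    have h0 : ((r1, r2) : Fin b × Fin 2) ≠ (p, 0) := fun h' => h (congrArg Prod.fst h')
    rw [Function.update_of_ne h1, Function.update_of_ne h0]
    have hiff : ((r1, r2) : Fin b × Fin 2).1 ∈ insert p S ↔ ((r1, r2) : Fin b × Fin 2).1 ∈ S := by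
      rw [Finset.mem_insert]
      exact or_iff_right h
    by_cases hS : ((r1, r2) : Fin b × Fin 2).1 ∈ S
    · rw [if_pos hS, if_pos (hiff.2 hS)]
    · rw [if_neg hS, if_neg (fun h' => hS (hiff.1 h'))]

theorem plane_b1 (h : PtB e D a B i₀ x n)
    (hall : ∀ P' : Fin b → MvPolynomial σ Ω, (∀ p, RatP B (P' p)) → ∀ c' : Fin b × Fin 2 → σ,
      TB e D x i₀ P' (fun r => rr x i₀ (c' r)) ≠ 0 → ∀ p,
      KerB e D x i₀ P' (fun r => rr x i₀ (c' r)) p = RatO B x)
    (P : Fin b → MvPolynomial σ Ω) (hP : ∀ p, RatP B (P p)) (c : Fin b × Fin 2 → σ)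
    (hne : TB e D x i₀ P (fun r => rr x i₀ (c r)) ≠ 0) :
    ∃ u v : σ, TB e D x i₀ P (fun r => rr x i₀ (if r.2 = 0 then u else v)) ≠ 0 ∧
      ∀ s t : Ω, s • rr x i₀ u + t • rr x i₀ v ∈ RatO B x → s = 0 ∧ t = 0 := by
  classical
  have hb := h.hb
  have p0 : Fin b := ⟨0, by omega⟩
  have hTU : TU e D x i₀ P (fun r => rr x i₀ (c r)) p0 (rr x i₀ (c (p0, 0)))
      (rr x i₀ (c (p0, 1))) ≠ 0 := by
    have h1 := TU_eq e D x i₀ P (fun r => rr x i₀ (c r)) p0
    rw [h1]
    exact hne
  have hind : ∀ s t : Ω, s • rr x i₀ (c (p0, 0)) + t • rr x i₀ (c (p0, 1)) ∈ RatO B x →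
      s = 0 ∧ t = 0 := by
    intro s t hst
    rw [← hall P hP c hne p0, mem_KerB] at hst
    constructor
    · have h1 := hst.2 (rr x i₀ (c (p0, 1))) (rr_dtB x i₀ _)
      rw [TU_left, TU_self, mul_zero, add_zero] at h1
      exact (mul_eq_zero.1 h1).resolve_right hTU
    · have h1 := hst.2 (rr x i₀ (c (p0, 0))) (rr_dtB x i₀ _)
      rw [TU_left, TU_self, mul_zero, zero_add, TU_swap] at h1
      exact (mul_eq_zero.1 h1).resolve_right (neg_ne_zero.2 hTU)
  have hS : ∀ S : Finset (Fin b), TB e D x i₀ P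
      (fun r => rr x i₀ (planeB_c c (c (p0, 0)) (c (p0, 1)) S r)) ≠ 0 := by
    intro S
    induction S using Finset.induction_on with
    | empty =>
      have h1 : planeB_c c (c (p0, 0)) (c (p0, 1)) ∅ = c := by
        funext r
        unfold planeB_c
        rw [if_neg (Finset.notMem_empty _)]
      rw [h1]
      exact hne
    | insert p S _ ih =>
      have h1 : TU e D x i₀ P (fun r => rr x i₀ (planeB_c c (c (p0, 0)) (c (p0, 1)) S r)) p
          (rr x i₀ (planeB_c c (c (p0, 0)) (c (p0, 1)) S (p, 0)))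
          (rr x i₀ (planeB_c c (c (p0, 0)) (c (p0, 1)) S (p, 1))) ≠ 0 := by
        have h2 := TU_eq e D x i₀ P
          (fun r => rr x i₀ (planeB_c c (c (p0, 0)) (c (p0, 1)) S r)) p
        rw [h2]
        exact ih
      have h3 := ker_ne h P (fun r => rr x i₀ (planeB_c c (c (p0, 0)) (c (p0, 1)) S r))
        (fun r => rr_dtB x i₀ _) p _ _ (rr_dtB x i₀ _) (rr_dtB x i₀ _) h1
        (rr x i₀ (c (p0, 0))) (rr x i₀ (c (p0, 1))) (rr_dtB x i₀ _) (rr_dtB x i₀ _)
        (fun s t hst => by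
          rw [hall P hP _ ih p] at hst
          exact hind s t hst)
      rw [TU_rr, planeB_c_insert] at h3
      exact h3
  refine ⟨c (p0, 0), c (p0, 1), ?_, hind⟩
  have h1 : planeB_c c (c (p0, 0)) (c (p0, 1)) Finset.univ =
      fun r : Fin b × Fin 2 => if r.2 = 0 then c (p0, 0) else c (p0, 1) := by
    funext r
    unfold planeB_c
    rw [if_pos (Finset.mem_univ _)]
  have h2 := hS Finset.univ
  rw [h1] at h2
  exact h2

end Pool.Agent.Helper74.BP
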