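import Pool.Agent.Helper74.BP.KerDim

/-!
# BP-PLANEM: the rational linear forms do not move the point

Adapt `PlaneB_core` and the end of `plane_b` of `Helper74/Q8/PlaneB.lean`. Let
`w_(p,0) = D_(P_p rr u) x`, `w_(p,1) = D_(P_p rr v) x`: coordinates `θ` on `n^⊥ / x` (`vB_coord`, `hne`,
`vB_tan`). `plane_m1`: let `m ∈ RatO B x` and `α_r = θ_r . D_(P_(p0) m) x`. `hall` for `P`: `TU` at `p0`
of `m` and `rr u` (`rr v`) is zero: `α_(p0,0) = α_(p0,1) = 0`. For `p ≠ p0` replace `P_p` by
`P_p + P_(p0)`: the determinant does not change (the rows of the block `p0` are still there), so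
`hall` applies: `vol(.., D_(P_(p0) m) x, w_(p0,0) at p0, .., w_(p,j) + w_(p0,j) at p, ..) = 0`, which gives
`α_(p,1) = 0`, and with `w_(p0,1)` instead of `w_(p0,0)`: `α_(p,0) = 0`. So `D_(P_(p0) m) x ∥ x`.
`plane_m`: for rational `Q` choose `s ∈ ℕ`, `s ≠ 0`, with `TB ≠ 0` for `P_0 + s Q` in the place of
`P_0` (a polynomial of degree at most 2 in `s`, not zero at `0`) and apply `plane_m1` to `P` and to the
new family; for all `Q` by linearity (`ratP` monomials), `D_(Q m) x` is linear in `Q`.
-/

set_option autoImplicit false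

namespace Pool.Agent.Helper74.BP

open scoped BigOperators
open MvPolynomial
open Pool.Agent.Helper8.LG (Bdd form mon)
open Pool.Agent.Helper49.LN (cP mo hf pl)
open Pool.Agent.Helper6.QS
open Pool.Agent.Helper74.Q8 (dl rr)

section alt

variable {Ω : Type*} [Field Ω] {V : Type*} [AddCommGroup V] [Module Ω V] {τ : Type*}
  [DecidableEq τ]

omit [AddCommGroup V] in
theorem PlaneM_self (v : τ → V) (i : τ) (y : V) (h : y = v i) : Function.update v i y = v := by
  rw [h, Function.update_eq_self]

theorem PlaneM_swap (f : V [⋀^τ]→ₗ[Ω] Ω) (w : τ → V) {i j : τ} (hij : i ≠ j) (z : V) :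
    f (Function.update (Function.update w i z) j (w i)) = - f (Function.update w j z) := by
  rw [← f.map_swap (Function.update w j z) hij]
  congr 1
  funext r
  rw [Function.comp_apply]
  by_cases hi : r = i
  · subst hi
    rw [Equiv.swap_apply_left, Function.update_self, Function.update_of_ne hij,
      Function.update_self]
  · by_cases hj : r = j
    · subst hj
      rw [Equiv.swap_apply_right, Function.update_self, Function.update_of_ne hij]
    · rw [Equiv.swap_apply_of_ne_of_ne hi hj, Function.update_of_ne hj, Function.update_of_ne hi,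
        Function.update_of_ne hj]

theorem PlaneM_addrow (f : V [⋀^τ]→ₗ[Ω] Ω) (w : τ → V) {i j : τ} (hij : i ≠ j) (z : V) :
    f (Function.update w i (z + w j)) = f (Function.update w i z) := by
  rw [f.map_update_add, f.map_update_self _ hij, add_zero]

theorem PlaneM_two (f : V [⋀^τ]→ₗ[Ω] Ω) (w : τ → V) {i0 i1 j0 j1 : τ} (h00 : i0 ≠ j0)
    (h11 : i1 ≠ j1) (h10 : i1 ≠ j0) (hj : j0 ≠ j1) :
    f (Function.update (Function.update w j0 (w j0 + w i0)) j1 (w j1 + w i1)) = f w := by
  have e1 : w i1 = Function.update w j0 (w j0 + w i0) i1 := (Function.update_of_ne h10 _ _).symm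
  have e2 : w j1 = Function.update w j0 (w j0 + w i0) j1 :=
    (Function.update_of_ne hj.symm _ _).symm
  rw [e1, PlaneM_addrow f _ h11.symm, PlaneM_self _ _ _ e2, PlaneM_addrow f _ h00.symm,
    Function.update_eq_self]

theorem PlaneM_F0 (f : V [⋀^τ]→ₗ[Ω] Ω) (w : τ → V) {i0 i1 j0 j1 : τ} (h01 : i0 ≠ i1)
    (h00 : i0 ≠ j0) (h0j : i0 ≠ j1) (h10 : i1 ≠ j0) (h11 : i1 ≠ j1) (hj : j0 ≠ j1) (z : V) :
    f (Function.update (Function.update (Function.update (Function.update w i0 z) i1 (w i0)) j0
      (w j0 + w i0)) j1 (w j1 + w i1)) =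
      f (Function.update w j1 z) - f (Function.update w i1 z) := by
  have hz : ∀ y : V, f (Function.update (Function.update (Function.update
      (Function.update w i0 z) i1 (w i0)) j0 (w j0 + w i0)) j1 y) =
      f (Function.update (Function.update (Function.update w i0 z) i1 (w i0)) j1 y) := by
    intro y
    rw [Function.update_comm hj]
    have e1 : w i0 = Function.update (Function.update (Function.update w i0 z) i1 (w i0)) j1 y
        i1 := by
      rw [Function.update_of_ne h11, Function.update_self]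
    have e2 : w j0 = Function.update (Function.update (Function.update w i0 z) i1 (w i0)) j1 y
        j0 := by
      rw [Function.update_of_ne hj, Function.update_of_ne h10.symm, Function.update_of_ne h00.symm]
    generalize Function.update (Function.update (Function.update w i0 z) i1 (w i0)) j1 y = G at *
    rw [e1, PlaneM_addrow f _ h10.symm, PlaneM_self _ _ _ e2]
  rw [f.map_update_add, hz, hz]
  have e3 : Function.update (Function.update (Function.update w i0 z) i1 (w i0)) j1 (w j1) =
      Function.update (Function.update w i0 z) i1 (w i0) := by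
    have e4 : w j1 = Function.update (Function.update w i0 z) i1 (w i0) j1 := by
      rw [Function.update_of_ne h11.symm, Function.update_of_ne h0j.symm]
    exact PlaneM_self _ _ _ e4
  have e5 : f (Function.update (Function.update (Function.update w i0 z) i1 (w i0)) j1 (w i1)) =
      f (Function.update w j1 z) := by
    have e6 : w i1 = Function.update w i0 z i1 := (Function.update_of_ne h01.symm _ _).symm
    rw [e6, PlaneM_swap f _ h11, PlaneM_swap f w h0j, neg_neg]
  rw [e3, e5, PlaneM_swap f w h01]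
  ring

theorem PlaneM_F1 (f : V [⋀^τ]→ₗ[Ω] Ω) (w : τ → V) {i0 i1 j0 j1 : τ} (h01 : i0 ≠ i1)
    (h00 : i0 ≠ j0) (h0j : i0 ≠ j1) (h10 : i1 ≠ j0) (h11 : i1 ≠ j1) (hj : j0 ≠ j1) (z : V) :
    f (Function.update (Function.update (Function.update w i0 z) j0
      (w j0 + w i0)) j1 (w j1 + w i1)) =
      f (Function.update w i0 z) - f (Function.update w j0 z) := by
  have e1 : w i1 = Function.update (Function.update w i0 z) j0 (w j0 + w i0) i1 := by
    rw [Function.update_of_ne h10, Function.update_of_ne h01.symm]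
  have e2 : w j1 = Function.update (Function.update w i0 z) j0 (w j0 + w i0) j1 := by
    rw [Function.update_of_ne hj.symm, Function.update_of_ne h0j.symm]
  have e3 : w j0 = Function.update w i0 z j0 := (Function.update_of_ne h00.symm _ _).symm
  rw [e1, PlaneM_addrow f _ h11.symm, PlaneM_self _ _ _ e2, f.map_update_add,
    PlaneM_swap f w h00, PlaneM_self _ _ _ e3, sub_eq_add_neg]

theorem PlaneM_exp (f : V [⋀^τ]→ₗ[Ω] Ω) (w : τ → V) {i0 i1 : τ} (h01 : i0 ≠ i1) (s : Ω)
    (y z : V) :
    f (Function.update (Function.update w i0 (w i0 + s • y)) i1 (w i1 + s • z)) =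
      f w + s * (f (Function.update w i0 y) + f (Function.update w i1 z)) +
        s ^ 2 * f (Function.update (Function.update w i0 y) i1 z) := by
  have e1 : ∀ u : V, f (Function.update (Function.update w i0 (w i0 + s • y)) i1 u) =
      f (Function.update w i1 u) + s * f (Function.update (Function.update w i0 y) i1 u) := by
    intro u
    rw [Function.update_comm h01, f.map_update_add, f.map_update_smul, smul_eq_mul,
      Function.update_comm h01 y u w]
    have e2 : w i0 = Function.update w i1 u i0 := (Function.update_of_ne h01 _ _).symm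
    rw [PlaneM_self _ _ _ e2]
  have e3 : Function.update (Function.update w i0 y) i1 (w i1) = Function.update w i0 y := by
    have e4 : w i1 = Function.update w i0 y i1 := (Function.update_of_ne h01.symm _ _).symm
    exact PlaneM_self _ _ _ e4
  rw [f.map_update_add, f.map_update_smul, smul_eq_mul, e1, e1, e3, Function.update_eq_self]
  ring

end alt

section gen

variable {Ω : Type*} [Field Ω] {σ : Type*} {B : Subfield Ω} {x : σ → Ω}

theorem PlaneM_par_add {u v : σ → Ω} (hu : Par x u) (hv : Par x v) : Par x (u + v) := by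
  obtain ⟨c, rfl⟩ := hu
  obtain ⟨d, rfl⟩ := hv
  exact ⟨c + d, (add_smul c d x).symm⟩

theorem PlaneM_par_smul {u : σ → Ω} (r : Ω) (hu : Par x u) : Par x (r • u) := by
  obtain ⟨c, rfl⟩ := hu
  exact ⟨r * c, (mul_smul r c x).symm⟩

theorem PlaneM_rat_add {P Q : MvPolynomial σ Ω} (hP : RatP B P) (hQ : RatP B Q) :
    RatP B (P + Q) := fun m => by
  rw [coeff_add]
  exact B.add_mem (hP m) (hQ m)

theorem PlaneM_rat_smul {P : MvPolynomial σ Ω} (s : ℕ) (hP : RatP B P) :
    RatP B ((s : Ω) • P) := fun m => by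
  rw [coeff_smul, smul_eq_mul]
  exact B.mul_mem (natCast_mem B s) (hP m)

theorem PlaneM_rat_mono (m : σ →₀ ℕ) : RatP B (monomial m (1 : Ω)) := fun m' => by
  classical
  rw [coeff_monomial]
  split_ifs
  · exact B.one_mem
  · exact B.zero_mem

end gen

variable {Ω : Type*} [Field Ω] [CharZero Ω] {σ : Type*} [Fintype σ] [DecidableEq σ] {q b : ℕ}
  {e : Option (Option (Fin b × Fin 2)) ≃ σ} {D : Sym σ q → Derivation ℤ Ω Ω} {a : Sym σ q → Ω}
  {B : Subfield Ω} {i₀ : σ} {x n : σ → Ω}

/-- the coordinates by means of the determinants -/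
theorem PlaneM_zero (h : PtB e D a B i₀ x n) (w : Fin b × Fin 2 → σ → Ω)
    (hw : ∀ i, dt n (w i) = 0) (h0 : vol2 e x (dv D x (X i₀ ^ q)) w ≠ 0) (z : σ → Ω)
    (hz : dt n z = 0)
    (hv : ∀ i, vol2 e x (dv D x (X i₀ ^ q)) (Function.update w i z) = 0) : Par x z := by
  obtain ⟨θ, -, -, hc, hp, -⟩ := vB_coord h w hw h0
  refine hp z hz fun r => ?_
  obtain ⟨c, hc⟩ := hc z hz
  have hz' : z = c • x + ∑ j, dt (θ j) z • w j := by
    rw [← hc]
    abel
  have h1 := hv r
  rw [hz', AlternatingMap.map_update_add, AlternatingMap.map_update_smul,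
    vB_par e x _ _ r ⟨1, by rw [Function.update_self, one_smul]⟩, smul_zero, zero_add,
    AlternatingMap.map_update_sum, Finset.sum_eq_single r] at h1
  · rw [AlternatingMap.map_update_smul, Function.update_eq_self, smul_eq_mul] at h1
    exact (mul_eq_zero.1 h1).resolve_right h0
  · intro s _ hs
    rw [AlternatingMap.map_update_smul, AlternatingMap.map_update_self _ _ hs.symm, smul_zero]
  · intro hr
    exact absurd (Finset.mem_univ r) hr

theorem plane_m1 (h : PtB e D a B i₀ x n)
    (hall : ∀ P' : Fin b → MvPolynomial σ Ω, (∀ p, RatP B (P' p)) → ∀ c' : Fin b × Fin 2 → σ,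
      TB e D x i₀ P' (fun r => rr x i₀ (c' r)) ≠ 0 → ∀ p,
      KerB e D x i₀ P' (fun r => rr x i₀ (c' r)) p = RatO B x)
    (P : Fin b → MvPolynomial σ Ω) (hP : ∀ p, RatP B (P p)) (u v : σ)
    (hne : TB e D x i₀ P (fun r => rr x i₀ (if r.2 = 0 then u else v)) ≠ 0) (p : Fin b)
    (m : σ → Ω) (hm : m ∈ RatO B x) : Par x (dl D x (P p) m) := by
  have hA : ∀ P' : Fin b → MvPolynomial σ Ω, (∀ p, RatP B (P' p)) →
      TB e D x i₀ P' (fun r => rr x i₀ (if r.2 = 0 then u else v)) ≠ 0 →
      dt m x = 0 ∧ ∀ z, dt z x = 0 →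
        TU e D x i₀ P' (fun r => rr x i₀ (if r.2 = 0 then u else v)) p m z = 0 := by
    intro P' hP' hne'
    have h1 := hall P' hP' (fun r => if r.2 = 0 then u else v) hne' p
    rw [← h1] at hm
    exact hm
  have hl : ∀ r : Fin b × Fin 2, dt ((fun r : Fin b × Fin 2 =>
      rr x i₀ (if r.2 = 0 then u else v)) r) x = 0 := fun r => rr_dtB x i₀ _
  have hlp : ∀ (p' : Fin b) (j : Fin 2), (fun r : Fin b × Fin 2 =>
      rr x i₀ (if r.2 = 0 then u else v)) (p', j) = (fun r : Fin b × Fin 2 =>
      rr x i₀ (if r.2 = 0 then u else v)) (p, j) := fun _ _ => rfl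
  clear hall
  generalize (fun r : Fin b × Fin 2 => rr x i₀ (if r.2 = 0 then u else v)) = l at *
  have hmx := (hA P hP hne).1
  -- the rows
  obtain ⟨w, hwd⟩ : ∃ w : Fin b × Fin 2 → σ → Ω,
    (fun r : Fin b × Fin 2 => dl D x (P r.1) (l r)) = w := ⟨_, rfl⟩
  have hwr : ∀ r, w r = dl D x (P r.1) (l r) := fun r => by rw [← hwd]
  have hTB : TB e D x i₀ P l = vol2 e x (dv D x (X i₀ ^ q)) w := by
    rw [← hwd]
    rfl
  have hvn : vol2 e x (dv D x (X i₀ ^ q)) w ≠ 0 := by
    rw [← hTB]
    exact hne
  have hwn : ∀ r, dt n (w r) = 0 := fun r => by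
    rw [hwr]
    exact vB_tan h _ _ (hl r)
  have hzn : dt n (dl D x (P p) m) = 0 := vB_tan h _ _ hmx
  obtain ⟨z, hzd⟩ : ∃ z, dl D x (P p) m = z := ⟨_, rfl⟩
  rw [hzd] at hzn ⊢
  have h01 : (p, (0 : Fin 2)) ≠ (p, 1) := by
    intro h1
    exact absurd (show (0 : Fin 2) = 1 from congrArg Prod.snd h1) (by decide)
  have hU0 : (fun r : Fin b × Fin 2 => dl D x (P r.1)
      (Function.update (Function.update l (p, 0) m) (p, 1) (l (p, 0)) r)) =
      Function.update (Function.update w (p, 0) z) (p, 1) (w (p, 0)) := by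
    funext r
    by_cases hr1 : r = (p, 1)
    · subst hr1
      rw [Function.update_self, Function.update_self, hwr]
    · rw [Function.update_of_ne hr1, Function.update_of_ne hr1]
      by_cases hr0 : r = (p, 0)
      · subst hr0
        rw [Function.update_self, Function.update_self, hzd]
      · rw [Function.update_of_ne hr0, Function.update_of_ne hr0, hwr]
  have hU1 : (fun r : Fin b × Fin 2 => dl D x (P r.1)
      (Function.update (Function.update l (p, 0) m) (p, 1) (l (p, 1)) r)) =
      Function.update w (p, 0) z := by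
    funext r
    by_cases hr1 : r = (p, 1)
    · subst hr1
      rw [Function.update_self, Function.update_of_ne h01.symm, hwr]
    · rw [Function.update_of_ne hr1]
      by_cases hr0 : r = (p, 0)
      · subst hr0
        rw [Function.update_self, Function.update_self, hzd]
      · rw [Function.update_of_ne hr0, Function.update_of_ne hr0, hwr]
  -- the block p
  have e1 : vol2 e x (dv D x (X i₀ ^ q)) (Function.update w (p, 1) z) = 0 := by
    have h1 := (hA P hP hne).2 _ (hl (p, 0))
    have h2 : TU e D x i₀ P l p m (l (p, 0)) = vol2 e x (dv D x (X i₀ ^ q))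
        (Function.update (Function.update w (p, 0) z) (p, 1) (w (p, 0))) := by
      rw [← hU0]
      rfl
    rw [h2, PlaneM_swap _ w h01] at h1
    exact neg_eq_zero.1 h1
  have e0 : vol2 e x (dv D x (X i₀ ^ q)) (Function.update w (p, 0) z) = 0 := by
    have h1 := (hA P hP hne).2 _ (hl (p, 1))
    have h2 : TU e D x i₀ P l p m (l (p, 1)) =
        vol2 e x (dv D x (X i₀ ^ q)) (Function.update w (p, 0) z) := by
      rw [← hU1]
      rfl
    rw [h2] at h1
    exact h1
  -- the other blocks
  have hoth : ∀ p' : Fin b, p' ≠ p →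
      vol2 e x (dv D x (X i₀ ^ q)) (Function.update w (p', 0) z) = 0 ∧
      vol2 e x (dv D x (X i₀ ^ q)) (Function.update w (p', 1) z) = 0 := by
    intro p' hp
    have h01' : (p', (0 : Fin 2)) ≠ (p', 1) := by
      intro h1
      exact absurd (show (0 : Fin 2) = 1 from congrArg Prod.snd h1) (by decide)
    have hpp : ∀ i j : Fin 2, (p, i) ≠ (p', j) := by
      intro i j h1
      exact hp (congrArg Prod.fst h1).symm
    obtain ⟨P', hPd⟩ : ∃ P', Function.update P p' (P p' + P p) = P' := ⟨_, rfl⟩
    have hP' : ∀ s, RatP B (P' s) := by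
      intro s
      rw [← hPd]
      by_cases hs : s = p'
      · subst hs
        rw [Function.update_self]
        exact PlaneM_rat_add (hP _) (hP _)
      · rw [Function.update_of_ne hs]
        exact hP s
    have hP1 : P' p' = P p' + P p := by rw [← hPd, Function.update_self]
    have hP2 : ∀ s, s ≠ p' → P' s = P s := fun s hs => by
      rw [← hPd, Function.update_of_ne hs]
    have hcase : ∀ y : Fin b × Fin 2 → σ → Ω, y (p', 0) = l (p', 0) → y (p', 1) = l (p', 1) →
        (fun r : Fin b × Fin 2 => dl D x (P' r.1) (y r)) =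
          Function.update (Function.update (fun r : Fin b × Fin 2 => dl D x (P r.1) (y r)) (p', 0)
            (w (p', 0) + w (p, 0))) (p', 1) (w (p', 1) + w (p, 1)) := by
      intro y hy0 hy1
      funext r
      by_cases hr1 : r = (p', 1)
      · subst hr1
        rw [Function.update_self, hP1, Pool.Agent.Helper74.Q8.dl_add, hy1, hwr (p', 1), hwr (p, 1),
          hlp p' 1]
      · rw [Function.update_of_ne hr1]
        by_cases hr0 : r = (p', 0)
        · subst hr0
          rw [Function.update_self, hP1, Pool.Agent.Helper74.Q8.dl_add, hy0, hwr (p', 0),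
            hwr (p, 0), hlp p' 0]
        · rw [Function.update_of_ne hr0, hP2]
          intro h1
          obtain ⟨r1, r2⟩ := r
          simp only at h1
          subst h1
          fin_cases r2
          · exact hr0 rfl
          · exact hr1 rfl
    have hT : TB e D x i₀ P' l = vol2 e x (dv D x (X i₀ ^ q)) w := by
      have h1 : TB e D x i₀ P' l = vol2 e x (dv D x (X i₀ ^ q))
          (fun r : Fin b × Fin 2 => dl D x (P' r.1) (l r)) := rfl
      rw [h1, hcase l rfl rfl, hwd, PlaneM_two _ w (hpp 0 0) (hpp 1 1) (hpp 1 0) h01']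
    have hne' : TB e D x i₀ P' l ≠ 0 := by
      rw [hT]
      exact hvn
    have hA' := (hA P' hP' hne').2
    have hy0 : ∀ t : σ → Ω,
        Function.update (Function.update l (p, 0) m) (p, 1) t (p', 0) = l (p', 0) := by
      intro t
      rw [Function.update_of_ne (hpp 1 0).symm, Function.update_of_ne (hpp 0 0).symm]
    have hy1 : ∀ t : σ → Ω,
        Function.update (Function.update l (p, 0) m) (p, 1) t (p', 1) = l (p', 1) := by
      intro t
      rw [Function.update_of_ne (hpp 1 1).symm, Function.update_of_ne (hpp 0 1).symm]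
    have f1 : vol2 e x (dv D x (X i₀ ^ q)) (Function.update w (p', 1) z) = 0 := by
      have h1 := hA' _ (hl (p, 0))
      have h2 : TU e D x i₀ P' l p m (l (p, 0)) = vol2 e x (dv D x (X i₀ ^ q))
          (fun r : Fin b × Fin 2 => dl D x (P' r.1)
            (Function.update (Function.update l (p, 0) m) (p, 1) (l (p, 0)) r)) := rfl
      rw [h2, hcase _ (hy0 _) (hy1 _), hU0, PlaneM_F0 _ w h01 (hpp 0 0) (hpp 0 1) (hpp 1 0)
        (hpp 1 1) h01', e1, sub_zero] at h1
      exact h1
    have f0 : vol2 e x (dv D x (X i₀ ^ q)) (Function.update w (p', 0) z) = 0 := by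
      have h1 := hA' _ (hl (p, 1))
      have h2 : TU e D x i₀ P' l p m (l (p, 1)) = vol2 e x (dv D x (X i₀ ^ q))
          (fun r : Fin b × Fin 2 => dl D x (P' r.1)
            (Function.update (Function.update l (p, 0) m) (p, 1) (l (p, 1)) r)) := rfl
      rw [h2, hcase _ (hy0 _) (hy1 _), hU1, PlaneM_F1 _ w h01 (hpp 0 0) (hpp 0 1) (hpp 1 0)
        (hpp 1 1) h01', e0, zero_sub] at h1
      exact neg_eq_zero.1 h1
    exact ⟨f0, f1⟩
  refine PlaneM_zero h w hwn hvn z hzn fun i => ?_
  obtain ⟨p', j⟩ := i
  by_cases hp : p' = p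
  · subst hp
    fin_cases j
    · exact e0
    · exact e1
  · fin_cases j
    · exact (hoth p' hp).1
    · exact (hoth p' hp).2

theorem plane_m (h : PtB e D a B i₀ x n)
    (hall : ∀ P' : Fin b → MvPolynomial σ Ω, (∀ p, RatP B (P' p)) → ∀ c' : Fin b × Fin 2 → σ,
      TB e D x i₀ P' (fun r => rr x i₀ (c' r)) ≠ 0 → ∀ p,
      KerB e D x i₀ P' (fun r => rr x i₀ (c' r)) p = RatO B x)
    (P : Fin b → MvPolynomial σ Ω) (hP : ∀ p, RatP B (P p)) (u v : σ)
    (hne : TB e D x i₀ P (fun r => rr x i₀ (if r.2 = 0 then u else v)) ≠ 0)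
    (m : σ → Ω) (hm : m ∈ RatO B x) (Q : MvPolynomial σ Ω) : Par x (dl D x Q m) := by
  have hb : 0 < b := lt_of_lt_of_le (by norm_num) h.hb
  obtain ⟨p, -⟩ : ∃ p : Fin b, p = p := ⟨⟨0, hb⟩, rfl⟩
  have h01 : (p, (0 : Fin 2)) ≠ (p, 1) := by
    intro h1
    exact absurd (show (0 : Fin 2) = 1 from congrArg Prod.snd h1) (by decide)
  have hcr := plane_m1 h hall
  have hPm : Par x (dl D x (P p) m) := hcr P hP u v hne p m hm
  have hrat : ∀ Q : MvPolynomial σ Ω, RatP B Q → Par x (dl D x Q m) := by
    intro Q hQ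
    have hcore : ∀ s : ℕ, TB e D x i₀ (Function.update P p (P p + (s : Ω) • Q))
        (fun r => rr x i₀ (if r.2 = 0 then u else v)) ≠ 0 →
        Par x (dl D x (P p + (s : Ω) • Q) m) := by
      intro s hs
      have h1 := hcr (Function.update P p (P p + (s : Ω) • Q)) (by
        intro p'
        by_cases hp : p' = p
        · subst hp
          rw [Function.update_self]
          exact PlaneM_rat_add (hP _) (PlaneM_rat_smul s hQ)
        · rw [Function.update_of_ne hp]
          exact hP p') u v hs p m hm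
      rw [Function.update_self] at h1
      exact h1
    have hfin : ∀ s : ℕ, s ≠ 0 → Par x (dl D x (P p + (s : Ω) • Q) m) → Par x (dl D x Q m) := by
      intro s hs hp
      have hs' : (s : Ω) ≠ 0 := Nat.cast_ne_zero.2 hs
      have e : dl D x Q m =
          (s : Ω)⁻¹ • (dl D x (P p + (s : Ω) • Q) m + (-1 : Ω) • dl D x (P p) m) := by
        rw [Pool.Agent.Helper74.Q8.dl_add, Pool.Agent.Helper74.Q8.dl_smul, neg_one_smul,
          add_neg_cancel_comm, smul_smul, inv_mul_cancel₀ hs', one_smul]
      rw [e]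
      exact PlaneM_par_smul _ (PlaneM_par_add hp (PlaneM_par_smul _ hPm))
    clear hcr hall
    generalize (fun r : Fin b × Fin 2 => rr x i₀ (if r.2 = 0 then u else v)) = l at *
    obtain ⟨w, hwd⟩ : ∃ w : Fin b × Fin 2 → σ → Ω,
      (fun r : Fin b × Fin 2 => dl D x (P r.1) (l r)) = w := ⟨_, rfl⟩
    have hwr : ∀ r, w r = dl D x (P r.1) (l r) := fun r => by rw [← hwd]
    have hexp : ∀ s : ℕ, TB e D x i₀ (Function.update P p (P p + (s : Ω) • Q)) l =
        vol2 e x (dv D x (X i₀ ^ q)) w + (s : Ω) *
          (vol2 e x (dv D x (X i₀ ^ q)) (Function.update w (p, 0) (dl D x Q (l (p, 0)))) +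
            vol2 e x (dv D x (X i₀ ^ q)) (Function.update w (p, 1) (dl D x Q (l (p, 1))))) +
          (s : Ω) ^ 2 * vol2 e x (dv D x (X i₀ ^ q)) (Function.update (Function.update w (p, 0)
            (dl D x Q (l (p, 0)))) (p, 1) (dl D x Q (l (p, 1)))) := by
      intro s
      rw [← PlaneM_exp _ w h01]
      unfold TB
      congr 1
      funext r
      by_cases hr1 : r = (p, 1)
      · subst hr1
        rw [Function.update_self, Function.update_self, Pool.Agent.Helper74.Q8.dl_add,
          Pool.Agent.Helper74.Q8.dl_smul, hwr]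
      · rw [Function.update_of_ne hr1]
        by_cases hr0 : r = (p, 0)
        · subst hr0
          rw [Function.update_self, Function.update_self, Pool.Agent.Helper74.Q8.dl_add,
            Pool.Agent.Helper74.Q8.dl_smul, hwr]
        · rw [Function.update_of_ne hr0, Function.update_of_ne, hwr]
          intro h1
          obtain ⟨r1, r2⟩ := r
          simp only at h1
          subst h1
          fin_cases r2
          · exact hr0 rfl
          · exact hr1 rfl
    by_cases s1 : TB e D x i₀ (Function.update P p (P p + ((1 : ℕ) : Ω) • Q)) l ≠ 0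
    · exact hfin 1 (by norm_num) (hcore 1 s1)
    by_cases s2 : TB e D x i₀ (Function.update P p (P p + ((2 : ℕ) : Ω) • Q)) l ≠ 0
    · exact hfin 2 (by norm_num) (hcore 2 s2)
    by_cases s3 : TB e D x i₀ (Function.update P p (P p + ((3 : ℕ) : Ω) • Q)) l ≠ 0
    · exact hfin 3 (by norm_num) (hcore 3 s3)
    exfalso
    apply hne
    have hTB : TB e D x i₀ P l = vol2 e x (dv D x (X i₀ ^ q)) w := by
      rw [← hwd]
      rfl
    rw [hTB]
    rw [not_not] at s1 s2 s3
    rw [hexp] at s1 s2 s3
    push_cast at s1 s2 s3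
    linear_combination 3 * s1 - 3 * s2 + s3
  induction Q using MvPolynomial.induction_on' with
  | monomial t r =>
    have e : (monomial t r : MvPolynomial σ Ω) = r • monomial t 1 := by
      rw [smul_monomial, smul_eq_mul, mul_one]
    rw [e, Pool.Agent.Helper74.Q8.dl_smul]
    exact PlaneM_par_smul _ (hrat _ (PlaneM_rat_mono t))
  | add p r hp hr =>
    rw [Pool.Agent.Helper74.Q8.dl_add]
    exact PlaneM_par_add hp hr

end Pool.Agent.Helper74.BP
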