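import Pool.Agent.Helper74.BP.PlaneA
import Pool.Agent.Helper74.BP.PlaneB
import Pool.Agent.Helper74.BP.PlaneM

/-!
# BP-PLANEC: a rational line or the plane case

`TB_ex`, `plane_a`, `plane_b1`, `plane_m`. `k` is a basis of `RatO B x` of rational vectors (a spanning
set contains a basis: `exists_linearIndependent`), with `m = card σ - 3 = 2 b - 1` elements (`card_e`);
`l' j = rr x i₀ u` or `rr x i₀ v`. `rat` is `trat0`; `span`: the vectors orthogonal to `x` form a space
of dimension `card σ - 1`.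
-/

set_option autoImplicit false

namespace Pool.Agent.Helper74.BP

open scoped BigOperators
open MvPolynomial
open Pool.Agent.Helper8.LG (Bdd form mon)
open Pool.Agent.Helper49.LN (cP mo hf pl)
open Pool.Agent.Helper6.QS
open Pool.Agent.Helper74.Q8 (dl rr)

section gen

variable {Ω : Type*} [Field Ω] {σ : Type*} [Fintype σ]

/-- the linear forms vanishing at `x` have dimension `card σ - 1` -/
theorem PlaneC_span [DecidableEq σ] {x : σ → Ω} {i₀ : σ} (hx : x i₀ = 1) {ι : Type*} [Fintype ι]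
    (g : ι → σ → Ω) (hc : Fintype.card ι + 1 = Fintype.card σ) (hg : ∀ i, dt (g i) x = 0)
    (hlin : LinearIndependent Ω g) (l : σ → Ω) (hl : dt l x = 0) :
    ∃ r : ι → Ω, ∑ i, r i • g i = l := by
  let φ : (σ → Ω) →ₗ[Ω] Ω :=
    { toFun := fun u => dt u x
      map_add' := fun u v => by
        rw [Pool.Agent.Helper74.Q8.dt_comm', Pool.Agent.Helper74.Q8.dt_add',
          Pool.Agent.Helper74.Q8.dt_comm' x u, Pool.Agent.Helper74.Q8.dt_comm' x v]
      map_smul' := fun r u => by
        rw [Pool.Agent.Helper74.Q8.dt_comm', Pool.Agent.Helper74.Q8.dt_smul',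
          Pool.Agent.Helper74.Q8.dt_comm' x u]
        rfl }
  have hφ : ∀ u, φ u = dt u x := fun u => rfl
  have hr : LinearMap.range φ = ⊤ := by
    rw [LinearMap.range_eq_top]
    intro y
    refine ⟨y • Pi.single i₀ 1, ?_⟩
    rw [map_smul, hφ, smul_eq_mul]
    unfold dt
    simp [Pi.single_apply, hx]
  have hk : Module.finrank Ω (LinearMap.ker φ) + 1 = Fintype.card σ := by
    have := LinearMap.finrank_range_add_finrank_ker φ
    rw [hr, finrank_top, Module.finrank_self, Module.finrank_fintype_fun_eq_card] at this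
    omega
  have hle : Submodule.span Ω (Set.range g) ≤ LinearMap.ker φ := by
    rw [Submodule.span_le]
    rintro _ ⟨i, rfl⟩
    exact hg i
  have hs : Module.finrank Ω (Submodule.span Ω (Set.range g)) = Fintype.card ι :=
    finrank_span_eq_card hlin
  have heq := Submodule.eq_of_le_of_finrank_eq hle (by omega)
  have hm : l ∈ Submodule.span Ω (Set.range g) := by
    rw [heq]
    exact hl
  exact (Submodule.mem_span_range_iff_exists_fun Ω).1 hm

/-- a rational basis of the span of the rational vectors orthogonal to `x` -/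
theorem PlaneC_basis (B : Subfield Ω) (x : σ → Ω) :
    ∃ (m : ℕ) (k : Fin m → σ → Ω), (∀ i j, k i j ∈ B) ∧ (∀ i, dt (k i) x = 0) ∧
      LinearIndependent Ω k ∧ Submodule.span Ω (Set.range k) = RatO B x := by
  obtain ⟨t, hts, htsp, hlin⟩ := exists_linearIndependent Ω
    {m : σ → Ω | (∀ j, m j ∈ B) ∧ dt m x = 0}
  have hfin : Finite t := hlin.finite
  have := Fintype.ofFinite t
  let ε := (Fintype.equivFin t).symm
  refine ⟨Fintype.card t, fun i => (ε i : σ → Ω), fun i j => (hts (ε i).2).1 j,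
    fun i => (hts (ε i).2).2, ?_, ?_⟩
  · exact hlin.comp ε ε.injective
  · have h1 : Set.range (fun i => (ε i : σ → Ω)) = t := by
      have h2 : (fun i => (ε i : σ → Ω)) = Subtype.val ∘ ε := rfl
      rw [h2, Set.range_comp, ε.surjective.range_eq, Set.image_univ, Subtype.range_coe]
    rw [h1, htsp]
    rfl

/-- two vectors independent modulo `RatO` complete a basis of `RatO` -/
theorem PlaneC_ind (W : Submodule Ω (σ → Ω)) {m : ℕ} (k : Fin m → σ → Ω)
    (hk : LinearIndependent Ω k) (hsp : Submodule.span Ω (Set.range k) = W) (l : Fin 2 → σ → Ω)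
    (h : ∀ s t : Ω, s • l 0 + t • l 1 ∈ W → s = 0 ∧ t = 0) :
    LinearIndependent Ω (Sum.elim k l) := by
  have hl : LinearIndependent Ω l := by
    rw [Fintype.linearIndependent_iff]
    intro g hg
    rw [Fin.sum_univ_two] at hg
    obtain ⟨h0, h1⟩ := h (g 0) (g 1) (by rw [hg]; exact W.zero_mem)
    intro i
    rcases (by omega : i = 0 ∨ i = 1) with hi | hi
    · rw [hi, h0]
    · rw [hi, h1]
  refine hk.sum_type hl ?_
  rw [hsp, Submodule.disjoint_def]
  intro v hv hv'
  obtain ⟨c, hc⟩ := (Submodule.mem_span_range_iff_exists_fun Ω).1 hv'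
  rw [Fin.sum_univ_two] at hc
  obtain ⟨h0, h1⟩ := h (c 0) (c 1) (by rw [hc]; exact hv)
  rw [← hc, h0, h1, zero_smul, zero_smul, add_zero]

end gen

variable {Ω : Type*} [Field Ω] [CharZero Ω] {σ : Type*} [Fintype σ] [DecidableEq σ] {q b : ℕ}
  {e : Option (Option (Fin b × Fin 2)) ≃ σ} {D : Sym σ q → Derivation ℤ Ω Ω} {a : Sym σ q → Ω}
  {B : Subfield Ω} {i₀ : σ} {x n : σ → Ω}

theorem plane_c (h : PtB e D a B i₀ x n) (P : Fin b → MvPolynomial σ Ω)
    (hP : ∀ p, RatP B (P p)) (l : Fin b × Fin 2 → σ → Ω) (hl : ∀ r, dt (l r) x = 0)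
    (hne : TB e D x i₀ P l ≠ 0) :
    (∀ i, x i ∈ B) ∨ ∃ (m : ℕ) (k : Fin m → σ → Ω) (l' : Fin 2 → σ → Ω),
      PlB e D a B i₀ x n k l' ∧ TB e D x i₀ P (fun r => l' r.2) ≠ 0 := by
  obtain ⟨c, hc⟩ := TB_ex e D x i₀ P l h.one hl hne
  rcases plane_a h P hP c hc with hB | ⟨hfr, hall⟩
  · exact Or.inl hB
  obtain ⟨u, v, huv, hind⟩ := plane_b1 h hall P hP c hc
  obtain ⟨m, k, hkB, hkx, hk, hsp⟩ := PlaneC_basis B x
  have hm : m = Module.finrank Ω (RatO B x) := by
    rw [← hsp, finrank_span_eq_card hk, Fintype.card_fin]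
  have hcard := card_e e
  have hind' := PlaneC_ind (RatO B x) k hk hsp (fun j : Fin 2 => rr x i₀ (if j = 0 then u else v))
    hind
  have hlx : ∀ i : Fin 2, dt ((fun j : Fin 2 => rr x i₀ (if j = 0 then u else v)) i) x = 0 :=
    fun i => rr_dtB x i₀ _
  refine Or.inr ⟨m, k, fun j : Fin 2 => rr x i₀ (if j = 0 then u else v),
    ⟨h, by omega, hkB, hkx, fun Q i => plane_m h hall P hP u v huv (k i) ?_ Q, hlx, hind', ?_, ?_⟩,
    huv⟩
  · rw [← hsp]
    exact Submodule.subset_span ⟨i, rfl⟩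
  · intro w hw
    obtain ⟨r, hr⟩ := PlaneC_span h.one (Sum.elim k
      (fun j : Fin 2 => rr x i₀ (if j = 0 then u else v))) (by
        rw [Fintype.card_sum, Fintype.card_fin, Fintype.card_fin]
        omega) (by
        rintro (i | i)
        · exact hkx i
        · exact hlx i) hind' w hw
    refine ⟨fun i => r (Sum.inl i), fun i => r (Sum.inr i), ?_⟩
    rw [← hr, Fintype.sum_sum_type]
    rfl
  · intro P' hP'
    exact trat0 h P' hP' (fun r => if r.2 = 0 then u else v)

end Pool.Agent.Helper74.BP
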