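import Pool.Agent.Helper74.BP.Vol

/-!
# BP-TBLK: elementary properties of the determinants `TB`, `TU`

`TB` is linear in each `l r` (`dl_add_right`, `dl_smul_right`, `vol2` is multilinear) and alternating
in `l (p, 0)`, `l (p, 1)` for each block `p`. `TB_ex`: expand all `l r` in the `rr x i₀ c`
(`rr_spanB`), by induction on a finset of indices `r` (replace one vector at a time).
-/

set_option autoImplicit false

namespace Pool.Agent.Helper74.BP

open scoped BigOperators
open MvPolynomial
open Pool.Agent.Helper8.LG (Bdd form mon)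
open Pool.Agent.Helper49.LN (cP mo hf pl)
open Pool.Agent.Helper6.QS
open Pool.Agent.Helper74.Q8 (dl rr)

variable {Ω : Type*} [Field Ω] {σ : Type*} [Fintype σ] [DecidableEq σ] {q b : ℕ}
  (e : Option (Option (Fin b × Fin 2)) ≃ σ) (D : Sym σ q → Derivation ℤ Ω Ω) (x : σ → Ω) (i₀ : σ)
  (P : Fin b → MvPolynomial σ Ω) (l : Fin b × Fin 2 → σ → Ω)

theorem TBlk_upd (r : Fin b × Fin 2) (z : σ → Ω) :
    TB e D x i₀ P (Function.update l r z) = vol2 e x (dv D x (X i₀ ^ q))
      (Function.update (fun p : Fin b × Fin 2 => dl D x (P p.1) (l p)) r (dl D x (P r.1) z)) := by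
  have h : (fun p : Fin b × Fin 2 => dl D x (P p.1) (Function.update l r z p)) =
      Function.update (fun p : Fin b × Fin 2 => dl D x (P p.1) (l p)) r (dl D x (P r.1) z) := by
    funext p
    by_cases hp : p = r
    · subst hp
      rw [Function.update_self, Function.update_self]
    · rw [Function.update_of_ne hp, Function.update_of_ne hp]
  unfold TB
  rw [h]

theorem TB_add (r : Fin b × Fin 2) (u v : σ → Ω) :
    TB e D x i₀ P (Function.update l r (u + v)) =
      TB e D x i₀ P (Function.update l r u) + TB e D x i₀ P (Function.update l r v) := by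
  rw [TBlk_upd, TBlk_upd, TBlk_upd, Pool.Agent.Helper74.Q8.dl_add_right]
  exact AlternatingMap.map_update_add _ _ _ _ _

theorem TB_smul (r : Fin b × Fin 2) (c : Ω) (u : σ → Ω) :
    TB e D x i₀ P (Function.update l r (c • u)) = c * TB e D x i₀ P (Function.update l r u) := by
  rw [TBlk_upd, TBlk_upd, Pool.Agent.Helper74.Q8.dl_smul_right, ← smul_eq_mul]
  exact AlternatingMap.map_update_smul _ _ _ _ _

theorem TB_sum {ι : Type*} (r : Fin b × Fin 2) (s : Finset ι) (c : ι → Ω) (u : ι → σ → Ω) :
    TB e D x i₀ P (Function.update l r (∑ i ∈ s, c i • u i)) =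
      ∑ i ∈ s, c i * TB e D x i₀ P (Function.update l r (u i)) := by
  classical
  induction s using Finset.induction_on with
  | empty =>
    have h := TB_smul e D x i₀ P l r 0 0
    rw [zero_smul, zero_mul] at h
    rw [Finset.sum_empty, Finset.sum_empty]
    exact h
  | insert i s hi ih =>
    rw [Finset.sum_insert hi, Finset.sum_insert hi, TB_add, TB_smul, ih]

/-- a row which does not move `x` -/
theorem TB_par (r : Fin b × Fin 2) (h : Par x (dl D x (P r.1) (l r))) : TB e D x i₀ P l = 0 :=
  vB_par e x (dv D x (X i₀ ^ q)) (fun p : Fin b × Fin 2 => dl D x (P p.1) (l p)) r h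

variable (p : Fin b)

theorem TU_eq : TU e D x i₀ P l p (l (p, 0)) (l (p, 1)) = TB e D x i₀ P l := by
  unfold TU
  rw [Function.update_eq_self, Function.update_eq_self]

theorem TBlk_ne : ((p, 0) : Fin b × Fin 2) ≠ (p, 1) := by
  intro h
  have h1 : (0 : Fin 2) = 1 := congrArg Prod.snd h
  exact absurd h1 (by decide)

theorem TBlk_comm (u v : σ → Ω) : TU e D x i₀ P l p u v =
    TB e D x i₀ P (Function.update (Function.update l (p, 1) v) (p, 0) u) := by
  unfold TU
  rw [Function.update_comm (TBlk_ne p)]

theorem TU_left (c c' : Ω) (u u' v : σ → Ω) : TU e D x i₀ P l p (c • u + c' • u') v =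
    c * TU e D x i₀ P l p u v + c' * TU e D x i₀ P l p u' v := by
  rw [TBlk_comm, TBlk_comm, TBlk_comm, TB_add, TB_smul, TB_smul]

theorem TU_right (c c' : Ω) (u v v' : σ → Ω) : TU e D x i₀ P l p u (c • v + c' • v') =
    c * TU e D x i₀ P l p u v + c' * TU e D x i₀ P l p u v' := by
  unfold TU
  rw [TB_add, TB_smul, TB_smul]

theorem TU_sum_left {ι : Type*} (s : Finset ι) (c : ι → Ω) (u : ι → σ → Ω) (v : σ → Ω) :
    TU e D x i₀ P l p (∑ i ∈ s, c i • u i) v = ∑ i ∈ s, c i * TU e D x i₀ P l p (u i) v := by
  rw [TBlk_comm, TB_sum]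
  exact Finset.sum_congr rfl fun i _ => by rw [TBlk_comm]

theorem TU_sum_right {ι : Type*} (s : Finset ι) (c : ι → Ω) (u : σ → Ω) (v : ι → σ → Ω) :
    TU e D x i₀ P l p u (∑ i ∈ s, c i • v i) = ∑ i ∈ s, c i * TU e D x i₀ P l p u (v i) := by
  unfold TU
  rw [TB_sum]

theorem TBlk_self (u : σ → Ω) : TU e D x i₀ P l p u u = 0 := by
  unfold TU TB
  refine AlternatingMap.map_eq_zero_of_eq _ _ (i := (p, 0)) (j := (p, 1)) ?_ (TBlk_ne p)
  show dl D x (P p) (Function.update (Function.update l (p, 0) u) (p, 1) u (p, 0)) =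
    dl D x (P p) (Function.update (Function.update l (p, 0) u) (p, 1) u (p, 1))
  rw [Function.update_self, Function.update_of_ne (TBlk_ne p), Function.update_self]

theorem TU_swap (u v : σ → Ω) : TU e D x i₀ P l p v u = - TU e D x i₀ P l p u v := by
  have h := TBlk_self e D x i₀ P l p ((1 : Ω) • u + (1 : Ω) • v)
  rw [TU_left, TU_right, TU_right, TBlk_self, TBlk_self] at h
  linear_combination h

theorem TU_self (u : σ → Ω) : TU e D x i₀ P l p u u = 0 := TBlk_self e D x i₀ P l p u

/-- the vectors of the block itself do not matter -/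
theorem TU_congr (l' : Fin b × Fin 2 → σ → Ω) (h : ∀ r : Fin b × Fin 2, r.1 ≠ p → l r = l' r)
    (u v : σ → Ω) : TU e D x i₀ P l p u v = TU e D x i₀ P l' p u v := by
  have h1 : Function.update (Function.update l (p, 0) u) (p, 1) v =
      Function.update (Function.update l' (p, 0) u) (p, 1) v := by
    funext r
    by_cases hr1 : r = (p, 1)
    · subst hr1
      rw [Function.update_self, Function.update_self]
    · rw [Function.update_of_ne hr1, Function.update_of_ne hr1]
      by_cases hr0 : r = (p, 0)
      · subst hr0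
        rw [Function.update_self, Function.update_self]
      · rw [Function.update_of_ne hr0, Function.update_of_ne hr0]
        refine h r fun hp => ?_
        obtain ⟨r1, r2⟩ := r
        have hp' : r1 = p := hp
        subst hp'
        have h2 : r2 = 0 ∨ r2 = 1 := by
          rcases r2 with ⟨k, hk⟩
          rcases k with _ | _ | k
          · exact Or.inl rfl
          · exact Or.inr rfl
          · exact absurd hk (by omega)
        rcases h2 with h2 | h2
        · exact hr0 (by rw [h2])
        · exact hr1 (by rw [h2])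
  unfold TU
  rw [h1]

/-- the vectors `rr` -/
theorem TU_rr (c : Fin b × Fin 2 → σ) (u v : σ) :
    TU e D x i₀ P (fun r => rr x i₀ (c r)) p (rr x i₀ u) (rr x i₀ v) =
      TB e D x i₀ P fun r => rr x i₀ (Function.update (Function.update c (p, 0) u) (p, 1) v r) := by
  have h1 : Function.update (Function.update (fun r => rr x i₀ (c r)) (p, 0) (rr x i₀ u)) (p, 1)
      (rr x i₀ v) =
      fun r => rr x i₀ (Function.update (Function.update c (p, 0) u) (p, 1) v r) := by
    funext r
    by_cases hr1 : r = (p, 1)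
    · subst hr1
      rw [Function.update_self, Function.update_self]
    · rw [Function.update_of_ne hr1, Function.update_of_ne hr1]
      by_cases hr0 : r = (p, 0)
      · subst hr0
        rw [Function.update_self, Function.update_self]
      · rw [Function.update_of_ne hr0, Function.update_of_ne hr0]
  unfold TU
  rw [h1]

/-- if a determinant is not zero, then some determinant of vectors `rr` is not zero -/
theorem TB_ex (hx : x i₀ = 1) (hl : ∀ r, dt (l r) x = 0) (hne : TB e D x i₀ P l ≠ 0) :
    ∃ c : Fin b × Fin 2 → σ, TB e D x i₀ P (fun r => rr x i₀ (c r)) ≠ 0 := by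
  classical
  have key : ∀ s : Finset (Fin b × Fin 2), ∃ c : Fin b × Fin 2 → σ,
      TB e D x i₀ P (fun r => if r ∈ s then rr x i₀ (c r) else l r) ≠ 0 := by
    intro s
    induction s using Finset.induction_on with
    | empty =>
      refine ⟨fun _ => i₀, ?_⟩
      have h1 : (fun r : Fin b × Fin 2 => if r ∈ (∅ : Finset (Fin b × Fin 2)) then
          rr x i₀ ((fun _ => i₀) r) else l r) = l := by
        funext r
        rw [if_neg (Finset.notMem_empty r)]
      rw [h1]
      exact hne
    | insert r₀ s hr₀ ih =>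
      obtain ⟨c, hc⟩ := ih
      have h1 : (fun r => if r ∈ s then rr x i₀ (c r) else l r) =
          Function.update (fun r => if r ∈ s then rr x i₀ (c r) else l r) r₀
            (∑ i ∈ Finset.univ, l r₀ i • rr x i₀ i) := by
        rw [← rr_spanB hx (l r₀) (hl r₀)]
        have h2 : (fun r => if r ∈ s then rr x i₀ (c r) else l r) r₀ = l r₀ := by
          show (if r₀ ∈ s then rr x i₀ (c r₀) else l r₀) = l r₀
          rw [if_neg hr₀]
        conv_rhs => rw [← h2]
        rw [Function.update_eq_self]
      rw [h1, TB_sum] at hc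
      obtain ⟨i, _, hi⟩ := Finset.exists_ne_zero_of_sum_ne_zero hc
      refine ⟨Function.update c r₀ i, ?_⟩
      have h3 : (fun r => if r ∈ insert r₀ s then rr x i₀ (Function.update c r₀ i r) else l r) =
          Function.update (fun r => if r ∈ s then rr x i₀ (c r) else l r) r₀ (rr x i₀ i) := by
        funext r
        by_cases hr : r = r₀
        · subst hr
          rw [if_pos (Finset.mem_insert_self _ _), Function.update_self, Function.update_self]
        · rw [Function.update_of_ne hr, Function.update_of_ne hr]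
          by_cases hs : r ∈ s
          · rw [if_pos (Finset.mem_insert_of_mem hs), if_pos hs]
          · rw [if_neg, if_neg hs]
            intro h4
            rcases Finset.mem_insert.mp h4 with h5 | h5
            · exact hr h5
            · exact hs h5
      rw [h3]
      intro h6
      exact hi (by rw [h6, mul_zero])
  obtain ⟨c, hc⟩ := key Finset.univ
  refine ⟨c, ?_⟩
  have h1 : (fun r => if r ∈ (Finset.univ : Finset (Fin b × Fin 2)) then rr x i₀ (c r) else l r) =
      fun r => rr x i₀ (c r) := by
    funext r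
    rw [if_pos (Finset.mem_univ r)]
  rw [h1] at hc
  exact hc

theorem TU_ex (hx : x i₀ = 1) (u v : σ → Ω) (hu : dt u x = 0) (hv : dt v x = 0)
    (hne : TU e D x i₀ P l p u v ≠ 0) :
    ∃ c c' : σ, TU e D x i₀ P l p (rr x i₀ c) (rr x i₀ c') ≠ 0 := by
  rw [rr_spanB hx u hu, TU_sum_left] at hne
  obtain ⟨c, _, hc⟩ := Finset.exists_ne_zero_of_sum_ne_zero hne
  have hc1 : TU e D x i₀ P l p (rr x i₀ c) v ≠ 0 := fun h => hc (by rw [h, mul_zero])
  rw [rr_spanB hx v hv, TU_sum_right] at hc1
  obtain ⟨c', _, hc'⟩ := Finset.exists_ne_zero_of_sum_ne_zero hc1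
  exact ⟨c, c', fun h => hc' (by rw [h, mul_zero])⟩

/-- the kernel of the block `p`: a subspace of the linear forms vanishing at `x` -/
noncomputable def KerB : Submodule Ω (σ → Ω) where
  carrier := {u | dt u x = 0 ∧ ∀ v, dt v x = 0 → TU e D x i₀ P l p u v = 0}
  add_mem' := by
    rintro u u' ⟨h1, h2⟩ ⟨h3, h4⟩
    refine ⟨?_, fun v hv => ?_⟩
    · rw [Pool.Agent.Helper74.Q8.dt_comm', Pool.Agent.Helper74.Q8.dt_add',
        Pool.Agent.Helper74.Q8.dt_comm' x u, Pool.Agent.Helper74.Q8.dt_comm' x u', h1, h3,
        add_zero]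
    · have h5 := TU_left e D x i₀ P l p 1 1 u u' v
      rw [one_smul, one_smul, h2 v hv, h4 v hv, mul_zero, add_zero] at h5
      exact h5
  zero_mem' := by
    refine ⟨?_, fun v _ => ?_⟩
    · rw [Pool.Agent.Helper74.Q8.dt_comm', Pool.Agent.Helper74.Q8.dt_zero']
    · have h5 := TU_left e D x i₀ P l p 0 0 0 0 v
      rw [zero_smul, add_zero, zero_mul, add_zero] at h5
      exact h5
  smul_mem' := by
    rintro c u ⟨h1, h2⟩
    refine ⟨?_, fun v hv => ?_⟩
    · rw [Pool.Agent.Helper74.Q8.dt_comm', Pool.Agent.Helper74.Q8.dt_smul',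
        Pool.Agent.Helper74.Q8.dt_comm' x u, h1, mul_zero]
    · have h5 := TU_left e D x i₀ P l p c 0 u 0 v
      rw [zero_smul, add_zero, h2 v hv, mul_zero, zero_mul, add_zero] at h5
      exact h5

theorem mem_KerB (u : σ → Ω) : u ∈ KerB e D x i₀ P l p ↔
    dt u x = 0 ∧ ∀ v, dt v x = 0 → TU e D x i₀ P l p u v = 0 := Iff.rfl

end Pool.Agent.Helper74.BP
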