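import Pool.Agent.Helper74.BP.TBlk

/-!
# BP-TRAT: the determinants of the blocks have exponent 0

`q = 3 b + 2`, `card σ = 2 b + 2`. At a valuation ring with maximal coordinate `m` (`rat_max`) let
`x' = x / x_m`. Then `rr x i₀ u = rr x' m u - x_u rr x' m i₀`, so, with
`F(u,v) = TU .. (rr x' m u) (rr x' m v)`,
`x_j TU (rr u) (rr v) - x_u TU (rr j) (rr v) + x_v TU (rr j) (rr u) =
x_m (x'_j F(u,v) - x'_u F(j,v) + x'_v F(j,u))` (`bptr_three`), in particular (`j = i₀`)
`TU (rr u) (rr v) = x_m (x'_(i₀) F(u,v) - x'_u F(i₀,v) + x'_v F(i₀,u))`. So the expression of `trat` is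
`x_m^b` times a combination with coefficients in `O` of the determinants
`TB (rr x' m (d r))` (`bptr_step`: induction on the set of blocks), and
`x_m^b TB (rr x' m (d r)) = det(x', D_(X_m^q) x', D_(P_p rr x' m ..) x', ..)` (`bptr_base`:
the determinant only depends on `n . D_(f0) x` and `dv_scale`), which is bounded by a power of `Δ`
(`dv_bdd`).
-/

set_option autoImplicit false

namespace Pool.Agent.Helper74.BP

open scoped BigOperators
open MvPolynomial
open Pool.Agent.Helper8.LG (Bdd form mon)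
open Pool.Agent.Helper49.LN (cP mo hf pl)
open Pool.Agent.Helper6.QS
open Pool.Agent.Helper74.Q8 (dl rr)

section general

variable {Ω : Type*} [Field Ω] {σ τ : Type*} [Fintype σ] [DecidableEq σ]

theorem bptr_ev_pow (n : ℕ) (x : σ → Ω) (m : σ) :
    ev n x (X m ^ n : MvPolynomial σ Ω) = x m ^ n := by
  rw [ev_hom n x _ (isHomogeneous_X_pow m n), map_pow, eval_X]

theorem bptr_coeff_lf (O : ValuationSubring Ω) (l : σ → Ω) (hl : ∀ i, l i ∈ O) (mm : σ →₀ ℕ) :
    coeff mm (lf l) ∈ O := by
  classical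
  unfold lf
  rw [coeff_sum]
  refine sum_mem fun i _ => ?_
  rw [coeff_smul, smul_eq_mul, coeff_X]
  refine mul_mem (hl i) ?_
  split_ifs
  · exact one_mem O
  · exact zero_mem O

theorem bptr_coeff_mul (O : ValuationSubring Ω) (Δ : Ω) (P : MvPolynomial σ Ω)
    (hP : ∀ m, Δ * coeff m P ∈ O) (l : σ → Ω) (hl : ∀ i, l i ∈ O) (mm : σ →₀ ℕ) :
    Δ ^ 1 * coeff mm (P * lf l) ∈ O := by
  classical
  rw [pow_one, coeff_mul, Finset.mul_sum]
  refine sum_mem fun p _ => ?_
  rw [← mul_assoc]
  exact mul_mem (hP p.1) (bptr_coeff_lf O l hl p.2)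

omit [Fintype σ] in
theorem bptr_coeff_pow (O : ValuationSubring Ω) (Δ : Ω) (m : σ) (q : ℕ) (mm : σ →₀ ℕ) :
    Δ ^ 0 * coeff mm (X m ^ q : MvPolynomial σ Ω) ∈ O := by
  classical
  rw [pow_zero, one_mul, coeff_X_pow]
  split_ifs
  · exact one_mem O
  · exact zero_mem O

/-- the determinant of a matrix with bounded entries -/
theorem bptr_det_bdd (O : ValuationSubring Ω) (δ : Ω) (M : Matrix σ σ Ω)
    (h : ∀ i j, δ * M i j ∈ O) : δ ^ Fintype.card σ * M.det ∈ O := by
  have e : δ ^ Fintype.card σ * M.det = (δ • M).det := by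
    rw [Matrix.det_smul]
  rw [e, Matrix.det_apply']
  exact sum_mem fun π _ => mul_mem (intCast_mem O _) (prod_mem fun i _ => h _ _)

/-- the determinant: scaled rows, multiples of the first row added -/
theorem bptr_scale (e : Option (Option τ) ≃ σ) (t c0 : Ω) (x x' w w' : σ → Ω)
    (v v' : τ → σ → Ω) (c : τ → Ω) (hx : ∀ l, x l = t * x' l) (hw : w = t • w' + c0 • x)
    (hv : ∀ p, v p = t • v' p + c p • x) :
    vol2 e x w v = t ^ Fintype.card σ * vol2 e x' w' v' := by
  have h1 := Matrix.det_mul_column (fun _ : σ => t)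
    (Matrix.of fun r => rows x' w' v' (e.symm r))
  rw [Finset.prod_const, Finset.card_univ] at h1
  rw [vol2_apply, vol2_apply, ← h1]
  refine Matrix.det_eq_of_forall_row_eq_smul_add_const
    (fun r => Option.elim (e.symm r) 0 fun o => Option.elim o c0 c) (e none) ?_ fun i j => ?_
  · rw [Equiv.symm_apply_apply]
    rfl
  · rw [Matrix.of_apply, Matrix.of_apply, Matrix.of_apply, Matrix.of_apply, Matrix.of_apply,
      Equiv.symm_apply_apply, rows_none, ← hx]
    rcases e.symm i with _ | _ | p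
    · show x j = t * x' j + 0 * x j
      rw [zero_mul, add_zero, hx]
    · show w j = t * w' j + c0 * x j
      rw [hw]
      rfl
    · show v p j = t * v' p j + c p * x j
      rw [hv]
      rfl

/-- the determinant only depends on the value of `n` at the second row -/
theorem bptr_last (e : Option (Option τ) ≃ σ) (n x w w' : σ → Ω) (v : τ → σ → Ω) (ε : Ω)
    (hx : dt n x = 0) (hv : ∀ i, dt n (v i) = 0) (hw : dt n w = - ε) (hw' : dt n w' = - 1) :
    vol2 e x w v = ε * vol2 e x w' v := by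
  have hn0 : n ≠ 0 := by
    intro h
    rw [h] at hw'
    simp only [dt, Pi.zero_apply, zero_mul, Finset.sum_const_zero] at hw'
    exact one_ne_zero (neg_eq_zero.1 hw'.symm)
  have hnw : dt n (w - ε • w') = 0 := by
    have h3 : dt n (w - ε • w') = dt n w - ε * dt n w' := by
      simp only [dt, Pi.sub_apply, Pi.smul_apply, smul_eq_mul, Finset.mul_sum,
        ← Finset.sum_sub_distrib]
      exact Finset.sum_congr rfl fun i _ => by ring
    rw [h3, hw, hw']
    ring
  have h4 : ∀ u : σ → Ω, dt n u = 0 → u ⬝ᵥ n = 0 := by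
    intro u hu
    rw [← hu]
    simp only [dotProduct, dt]
    exact Finset.sum_congr rfl fun i _ => mul_comm _ _
  have hdet : vol2 e x (w - ε • w') v = 0 := by
    rw [vol2_apply, ← Matrix.exists_mulVec_eq_zero_iff]
    refine ⟨n, hn0, ?_⟩
    funext i
    refine h4 _ ?_
    show dt n (rows x (w - ε • w') v (e.symm i)) = 0
    rcases e.symm i with _ | _ | p
    · exact hx
    · exact hnw
    · exact hv p
  have h5 : ∀ u : σ → Ω, vol2 e x u v =
      Matrix.det (Matrix.updateRow (Matrix.of fun r => rows x 0 v (e.symm r))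
        (e (some none)) u) := by
    intro u
    rw [vol2_apply]
    congr 1
    ext i j
    rw [Matrix.updateRow_apply, Matrix.of_apply, Matrix.of_apply]
    by_cases h : i = e (some none)
    · rw [if_pos h, h, Equiv.symm_apply_apply]
      rfl
    · rw [if_neg h]
      have h6 : e.symm i ≠ some none := fun h1 => h (by rw [← h1, Equiv.apply_symm_apply])
      rcases h7 : e.symm i with _ | _ | p
      · rfl
      · exact absurd h7 h6
      · rfl
  have h6 : w = (w - ε • w') + ε • w' := by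
    rw [sub_add_cancel]
  rw [h5] at hdet
  rw [h5 w, h6, Matrix.det_updateRow_add, hdet, zero_add, Matrix.det_updateRow_smul, ← h5]

omit [Fintype σ] in
theorem bptr_rr_scale (x x' : σ → Ω) (i₀ m : σ) (hx : x i₀ = 1) (hm : x m ≠ 0)
    (hx' : x' = fun l => x l / x m) (u : σ) :
    rr x i₀ u = (1 : Ω) • rr x' m u + (- x u) • rr x' m i₀ := by
  rw [hx']
  funext i
  simp only [rr, Pi.add_apply, Pi.smul_apply, smul_eq_mul, hx]
  rw [div_self hm]
  ring

end general

section general2

variable {Ω : Type*} [Field Ω] {σ : Type*} [Fintype σ] [DecidableEq σ] {q b : ℕ}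
  (e : Option (Option (Fin b × Fin 2)) ≃ σ) (D : Sym σ q → Derivation ℤ Ω Ω) (x : σ → Ω) (i₀ : σ)
  (P : Fin b → MvPolynomial σ Ω) (l : Fin b × Fin 2 → σ → Ω) (p : Fin b)

theorem bptr_two (x' : σ → Ω) (m : σ) (hx : x i₀ = 1) (hm : x m ≠ 0)
    (hx' : x' = fun l => x l / x m) (u v : σ) :
    TU e D x i₀ P l p (rr x i₀ u) (rr x i₀ v) =
      TU e D x i₀ P l p (rr x' m u) (rr x' m v)
        - x u * TU e D x i₀ P l p (rr x' m i₀) (rr x' m v)
        + x v * TU e D x i₀ P l p (rr x' m i₀) (rr x' m u) := by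
  rw [bptr_rr_scale x x' i₀ m hx hm hx' u, bptr_rr_scale x x' i₀ m hx hm hx' v, TU_left, TU_right,
    TU_right, TU_self, TU_swap e D x i₀ P l p (rr x' m i₀) (rr x' m u)]
  ring

theorem bptr_three (x' : σ → Ω) (m : σ) (hx : x i₀ = 1) (hm : x m ≠ 0)
    (hx' : x' = fun l => x l / x m) (j u v : σ) :
    x j * TU e D x i₀ P l p (rr x i₀ u) (rr x i₀ v) -
      x u * TU e D x i₀ P l p (rr x i₀ j) (rr x i₀ v) +
      x v * TU e D x i₀ P l p (rr x i₀ j) (rr x i₀ u) =
    x m * (x' j * TU e D x i₀ P l p (rr x' m u) (rr x' m v) -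
      x' u * TU e D x i₀ P l p (rr x' m j) (rr x' m v) +
      x' v * TU e D x i₀ P l p (rr x' m j) (rr x' m u)) := by
  have h1 : ∀ l, x l = x m * x' l := fun l => by
    rw [hx']
    simp only
    rw [mul_div_cancel₀ _ hm]
  rw [bptr_two e D x i₀ P l p x' m hx hm hx' u v, bptr_two e D x i₀ P l p x' m hx hm hx' j v,
    bptr_two e D x i₀ P l p x' m hx hm hx' j u, h1 j, h1 u, h1 v]
  ring

theorem bptr_one (x' : σ → Ω) (m : σ) (hx : x i₀ = 1) (hm : x m ≠ 0)
    (hx' : x' = fun l => x l / x m) (u v : σ) :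
    TU e D x i₀ P l p (rr x i₀ u) (rr x i₀ v) =
    x m * (x' i₀ * TU e D x i₀ P l p (rr x' m u) (rr x' m v) -
      x' u * TU e D x i₀ P l p (rr x' m i₀) (rr x' m v) +
      x' v * TU e D x i₀ P l p (rr x' m i₀) (rr x' m u)) := by
  have h1 : ∀ l, x l = x m * x' l := fun l => by
    rw [hx']
    simp only
    rw [mul_div_cancel₀ _ hm]
  have h2 : x m * x' i₀ = 1 := by rw [← h1, hx]
  rw [bptr_two e D x i₀ P l p x' m hx hm hx' u v, h1 u, h1 v]
  linear_combination (- TU e D x i₀ P l p (rr x' m u) (rr x' m v)) * h2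

end general2

variable {Ω : Type*} [Field Ω] [CharZero Ω] {σ : Type*} [Fintype σ] [DecidableEq σ] {q b : ℕ}
  {e : Option (Option (Fin b × Fin 2)) ≃ σ} {D : Sym σ q → Derivation ℤ Ω Ω} {a : Sym σ q → Ω}
  {B : Subfield Ω} {i₀ : σ} {x n : σ → Ω}

omit [CharZero Ω] in
/-- change of scale: the exponent is `b` -/
theorem bptr_base (h : PtB e D a B i₀ x n) (x' : σ → Ω) (m : σ) (hm : x m ≠ 0)
    (hx' : x' = fun l => x l / x m) (P : Fin b → MvPolynomial σ Ω) (d : Fin b × Fin 2 → σ) :
    x m ^ b * TB e D x i₀ P (fun r => rr x' m (d r)) =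
      vol2 e x' (dv D x' (X m ^ q)) fun r => dl D x' (P r.1) (rr x' m (d r)) := by
  have h1 : ∀ l, x l = x m * x' l := fun l => by
    rw [hx']
    simp only
    rw [mul_div_cancel₀ _ hm]
  have hrr : ∀ u, dt (rr x' m u) x = 0 := by
    intro u
    have h2 : x = x m • x' := by
      funext l
      exact h1 l
    rw [h2, Pool.Agent.Helper74.Q8.dt_smul', rr_dtB, mul_zero]
  have hq0 : q - 1 + 1 = q := by
    rw [h.hq]
    omega
  have htan : ∀ r : Fin b × Fin 2, dt n (dl D x (P r.1) (rr x' m (d r))) = 0 := by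
    intro r
    rw [Pool.Agent.Helper74.Q8.dl_eq, h.nf]
    have h3 := ev_lf (q - 1) x (rr x' m (d r)) (P r.1)
    rw [hq0] at h3
    rw [h3, hrr, mul_zero, neg_zero]
  have e1 := bptr_last e n x (dv D x (X m ^ q)) (dv D x (X i₀ ^ q))
    (fun r => dl D x (P r.1) (rr x' m (d r))) (x m ^ q) h.nx htan
    (by rw [h.nf, bptr_ev_pow]) (by rw [h.nf, bptr_ev_pow, h.one, one_pow])
  obtain ⟨c0, h0⟩ := dv_scale D x m hm (X m ^ q)
  rw [← hx'] at h0
  have h4 : ∀ r : Fin b × Fin 2, ∃ c : Ω, dl D x (P r.1) (rr x' m (d r)) =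
      x m • dl D x' (P r.1) (rr x' m (d r)) + c • x := by
    intro r
    obtain ⟨c, hc⟩ := dv_scale D x m hm (P r.1 * lf (rr x' m (d r)))
    rw [← hx'] at hc
    exact ⟨c, hc⟩
  choose c hc using h4
  have e2 := bptr_scale e (x m) c0 x x' _ _ _ _ c h1 h0 hc
  rw [e2, card_e e] at e1
  have hpow : x m ^ q = x m ^ (2 * b + 2) * x m ^ b := by
    rw [← pow_add]
    congr 1
    rw [h.hq]
    ring
  rw [hpow, mul_assoc] at e1
  exact (mul_left_cancel₀ (pow_ne_zero _ hm) e1).symm

omit [CharZero Ω] in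
theorem bptr_step (h : PtB e D a B i₀ x n) (x' : σ → Ω) (m : σ) (hm : x m ≠ 0)
    (hx' : x' = fun l => x l / x m) (P : Fin b → MvPolynomial σ Ω) (O : ValuationSubring Ω)
    (hO : ∀ l, x' l ∈ O) (δ : Ω)
    (hδ : ∀ d : Fin b × Fin 2 → σ, δ * vol2 e x' (dv D x' (X m ^ q))
      (fun r => dl D x' (P r.1) (rr x' m (d r))) ∈ O) (s : Finset (Fin b)) :
    ∀ d : Fin b × Fin 2 → σ, ∃ y : Ω, δ * y ∈ O ∧
      x m ^ b * TB e D x i₀ P (fun r => if r.1 ∈ s then rr x i₀ (d r) else rr x' m (d r)) =
        x m ^ s.card * y := by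
  induction s using Finset.induction_on with
  | empty =>
    intro d
    refine ⟨_, hδ d, ?_⟩
    rw [Finset.card_empty, pow_zero, one_mul, ← bptr_base h x' m hm hx' P d]
    congr 2
  | insert p s hp ih =>
    intro d
    have hF : ∀ u v : σ, ∃ y : Ω, δ * y ∈ O ∧ x m ^ b * TU e D x i₀ P
        (fun r => if r.1 ∈ s then rr x i₀ (d r) else rr x' m (d r)) p (rr x' m u) (rr x' m v) =
          x m ^ s.card * y := by
      intro u v
      obtain ⟨y, hy, hy2⟩ := ih (Function.update (Function.update d (p, 0) u) (p, 1) v)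
      refine ⟨y, hy, ?_⟩
      rw [← hy2]
      unfold TU
      congr 2
      funext r
      by_cases h1 : r = (p, 1)
      · subst h1
        rw [Function.update_self, Function.update_self, if_neg hp]
      · rw [Function.update_of_ne h1, Function.update_of_ne h1]
        by_cases h2 : r = (p, 0)
        · subst h2
          rw [Function.update_self, Function.update_self, if_neg hp]
        · rw [Function.update_of_ne h2, Function.update_of_ne h2]
    have hT : TB e D x i₀ P (fun r => if r.1 ∈ insert p s then rr x i₀ (d r)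
        else rr x' m (d r)) = TU e D x i₀ P
        (fun r => if r.1 ∈ s then rr x i₀ (d r) else rr x' m (d r)) p (rr x i₀ (d (p, 0)))
          (rr x i₀ (d (p, 1))) := by
      unfold TU
      congr 1
      funext r
      by_cases h1 : r = (p, 1)
      · subst h1
        rw [Function.update_self, if_pos (Finset.mem_insert_self p s)]
      · rw [Function.update_of_ne h1]
        by_cases h2 : r = (p, 0)
        · subst h2
          rw [Function.update_self, if_pos (Finset.mem_insert_self p s)]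
        · rw [Function.update_of_ne h2]
          have h3 : r.1 ≠ p := by
            intro h3
            rcases r with ⟨r1, r2⟩
            simp only at h3
            subst h3
            fin_cases r2
            · exact h2 rfl
            · exact h1 rfl
          simp only [Finset.mem_insert, h3, false_or]
    obtain ⟨y1, hy1, hz1⟩ := hF (d (p, 0)) (d (p, 1))
    obtain ⟨y2, hy2, hz2⟩ := hF i₀ (d (p, 1))
    obtain ⟨y3, hy3, hz3⟩ := hF i₀ (d (p, 0))
    refine ⟨x' i₀ * y1 - x' (d (p, 0)) * y2 + x' (d (p, 1)) * y3, ?_, ?_⟩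
    · have h4 : δ * (x' i₀ * y1 - x' (d (p, 0)) * y2 + x' (d (p, 1)) * y3) =
          x' i₀ * (δ * y1) - x' (d (p, 0)) * (δ * y2) + x' (d (p, 1)) * (δ * y3) := by ring
      rw [h4]
      exact add_mem (sub_mem (mul_mem (hO _) hy1) (mul_mem (hO _) hy2)) (mul_mem (hO _) hy3)
    · rw [hT, bptr_one e D x i₀ P _ p x' m h.one hm hx', Finset.card_insert_of_notMem hp, pow_succ]
      linear_combination x m * x' i₀ * hz1 - x m * x' (d (p, 0)) * hz2 +
        x m * x' (d (p, 1)) * hz3

theorem trat (h : PtB e D a B i₀ x n) (P : Fin b → MvPolynomial σ Ω) (hP : ∀ p, RatP B (P p))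
    (c : Fin b × Fin 2 → σ) (p : Fin b) (j u v : σ) :
    x j * TU e D x i₀ P (fun r => rr x i₀ (c r)) p (rr x i₀ u) (rr x i₀ v) -
      x u * TU e D x i₀ P (fun r => rr x i₀ (c r)) p (rr x i₀ j) (rr x i₀ v) +
      x v * TU e D x i₀ P (fun r => rr x i₀ (c r)) p (rr x i₀ j) (rr x i₀ u) ∈ B := by
  classical
  refine rat_max h.frame x i₀ h.one (Finset.univ.biUnion fun p =>
    (P p).support.image fun mm => coeff mm (P p)) ?_ _ (2 * Fintype.card σ) ?_
  · intro y hy
    obtain ⟨p, -, hy⟩ := Finset.mem_biUnion.1 hy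
    obtain ⟨mm, -, rfl⟩ := Finset.mem_image.1 hy
    exact hP p mm
  · intro O Δ hΔ hs m hm hxm
    have hcP : ∀ p mm, Δ * coeff mm (P p) ∈ O := by
      intro p mm
      by_cases h : coeff mm (P p) = 0
      · rw [h, mul_zero]
        exact zero_mem O
      · exact hs _ (Finset.mem_biUnion.2 ⟨p, Finset.mem_univ p, Finset.mem_image.2
          ⟨mm, mem_support_iff.2 h, rfl⟩⟩)
    obtain ⟨x', hx'⟩ : ∃ x' : σ → Ω, x' = fun l => x l / x m := ⟨_, rfl⟩
    have hxm' : ∀ l, x' l ∈ O := fun l => by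
      rw [hx']
      exact hxm l
    have hrr : ∀ b i, rr x' m b i ∈ O := by
      intro b i
      simp only [rr]
      refine sub_mem (mul_mem (hxm' m) ?_) (mul_mem (hxm' b) ?_)
      · split_ifs
        · exact one_mem O
        · exact zero_mem O
      · split_ifs
        · exact one_mem O
        · exact zero_mem O
    have hv : ∀ p (b : σ), ∀ l, Δ ^ 2 * dl D x' (P p) (rr x' m b) l ∈ O := fun p b =>
      dv_bdd D x' O Δ hΔ hxm' _ 1 (bptr_coeff_mul O Δ (P p) (hcP p) _ (hrr b))
    have hw : ∀ l, Δ ^ 2 * dv D x' (X m ^ q) l ∈ O := fun l => by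
      have h1 := dv_bdd D x' O Δ hΔ hxm' (X m ^ q) 0 (bptr_coeff_pow O Δ m q) l
      have h2 : Δ ^ 2 * dv D x' (X m ^ q) l = Δ * (Δ ^ (0 + 1) * dv D x' (X m ^ q) l) := by
        ring
      rw [h2]
      exact mul_mem hΔ.1 h1
    have hδ : ∀ d : Fin b × Fin 2 → σ, Δ ^ (2 * Fintype.card σ) * vol2 e x'
        (dv D x' (X m ^ q)) (fun r => dl D x' (P r.1) (rr x' m (d r))) ∈ O := by
      intro d
      rw [pow_mul, vol2_apply]
      refine bptr_det_bdd O (Δ ^ 2) _ fun i l => ?_
      rw [Matrix.of_apply]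
      rcases e.symm i with _ | _ | r
      · exact mul_mem (pow_mem hΔ.1 2) (hxm' l)
      · exact hw l
      · exact hv r.1 (d r) l
    have hb : 0 < b := by
      have := h.hb
      omega
    have hF : ∀ u v : σ, ∃ y : Ω, Δ ^ (2 * Fintype.card σ) * y ∈ O ∧ x m ^ b * TU e D x i₀ P
        (fun r => rr x i₀ (c r)) p (rr x' m u) (rr x' m v) = x m ^ (b - 1) * y := by
      intro u v
      obtain ⟨y, hy, hy2⟩ := bptr_step h x' m hm hx' P O hxm' _ hδ (Finset.univ.erase p)
        (Function.update (Function.update c (p, 0) u) (p, 1) v)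
      refine ⟨y, hy, ?_⟩
      rw [Finset.card_erase_of_mem (Finset.mem_univ p), Finset.card_univ, Fintype.card_fin] at hy2
      rw [← hy2]
      unfold TU
      congr 2
      funext r
      by_cases h1 : r = (p, 1)
      · subst h1
        rw [Function.update_self, Function.update_self, if_neg (Finset.notMem_erase p _)]
      · rw [Function.update_of_ne h1, Function.update_of_ne h1]
        by_cases h2 : r = (p, 0)
        · subst h2
          rw [Function.update_self, Function.update_self, if_neg (Finset.notMem_erase p _)]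
        · rw [Function.update_of_ne h2, Function.update_of_ne h2, if_pos]
          refine Finset.mem_erase.2 ⟨?_, Finset.mem_univ _⟩
          intro h3
          rcases r with ⟨r1, r2⟩
          simp only at h3
          subst h3
          fin_cases r2
          · exact h2 rfl
          · exact h1 rfl
    obtain ⟨y1, hy1, hz1⟩ := hF u v
    obtain ⟨y2, hy2, hz2⟩ := hF j v
    obtain ⟨y3, hy3, hz3⟩ := hF j u
    have hpow : x m ^ b = x m ^ (b - 1) * x m := by
      rw [← pow_succ]
      congr 1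
      omega
    have h5 : x j * TU e D x i₀ P (fun r => rr x i₀ (c r)) p (rr x i₀ u) (rr x i₀ v) -
      x u * TU e D x i₀ P (fun r => rr x i₀ (c r)) p (rr x i₀ j) (rr x i₀ v) +
      x v * TU e D x i₀ P (fun r => rr x i₀ (c r)) p (rr x i₀ j) (rr x i₀ u) =
      x' j * y1 - x' u * y2 + x' v * y3 := by
      refine mul_left_cancel₀ (pow_ne_zero b hm) ?_
      rw [bptr_three e D x i₀ P _ p x' m h.one hm hx' j u v]
      linear_combination x m * x' j * hz1 - x m * x' u * hz2 + x m * x' v * hz3 +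
        (-(x' j * y1 - x' u * y2 + x' v * y3)) * hpow
    have h4 : Δ ^ (2 * Fintype.card σ) * (x' j * y1 - x' u * y2 + x' v * y3) =
        x' j * (Δ ^ (2 * Fintype.card σ) * y1) - x' u * (Δ ^ (2 * Fintype.card σ) * y2) +
          x' v * (Δ ^ (2 * Fintype.card σ) * y3) := by ring
    rw [h5, h4]
    exact add_mem (sub_mem (mul_mem (hxm' _) hy1) (mul_mem (hxm' _) hy2))
      (mul_mem (hxm' _) hy3)

theorem trat0 (h : PtB e D a B i₀ x n) (P : Fin b → MvPolynomial σ Ω) (hP : ∀ p, RatP B (P p))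
    (c : Fin b × Fin 2 → σ) : TB e D x i₀ P (fun r => rr x i₀ (c r)) ∈ B := by
  have hb : 0 < b := by
    have := h.hb
    omega
  obtain ⟨p⟩ : Nonempty (Fin b) := ⟨⟨0, hb⟩⟩
  have h1 := trat h P hP c p i₀ (c (p, 0)) (c (p, 1))
  have h2 : ∀ v, TU e D x i₀ P (fun r => rr x i₀ (c r)) p (rr x i₀ i₀) v = 0 := by
    intro v
    have h3 := TU_left e D x i₀ P (fun r => rr x i₀ (c r)) p 0 0 0 0 v
    rw [rr_zeroB]
    rw [zero_smul, add_zero, zero_mul, add_zero] at h3
    exact h3
  rw [h2, h2, h.one, one_mul, mul_zero, mul_zero, sub_zero, add_zero] at h1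
  have h4 := TU_eq e D x i₀ P (fun r => rr x i₀ (c r)) p
  rw [← h4]
  exact h1

end Pool.Agent.Helper74.BP
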